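import Pool.Agent.Work.MP_1c7b0d_lh60.Interface

set_option autoImplicit false

open MeasureTheory Matrix
open scoped BigOperators RealInnerProductSpace MatrixOrder

namespace Pool.LH60

theorem BLG_thm (hBLI : Stmt_BLI) : Stmt_BLG := by
  intro ι _ _ K Φ y b hy hD
  obtain ⟨B, hB⟩ := CStarAlgebra.nonneg_iff_eq_star_mul_self.mp hD.posSemidef.nonneg
  have hstar : star B = Bᵀ := by
    rw [star_eq_conjTranspose, conjTranspose_eq_transpose_of_trivial]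
  rw [hstar] at hB
  have hdet : (Dm Φ y).det = B.det ^ 2 := by
    rw [hB, Matrix.det_mul, Matrix.det_transpose]
    ring
  have hpos : 0 < (Dm Φ y).det := hD.det_pos
  have hBdet : B.det ≠ 0 := by
    intro h0
    rw [hdet, h0] at hpos
    norm_num at hpos
  have hBu : IsUnit B.det := isUnit_iff_ne_zero.mpr hBdet
  have hBB : B * B⁻¹ = 1 := Matrix.mul_nonsing_inv B hBu
  have hBT : (B⁻¹)ᵀ * Bᵀ = 1 := by
    rw [← Matrix.transpose_mul, hBB, Matrix.transpose_one]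
  have hDm : Dm (Φ * B⁻¹) y = 1 := by
    have h1 : Dm (Φ * B⁻¹) y = (B⁻¹)ᵀ * Dm Φ y * B⁻¹ := by
      unfold Dm
      rw [Matrix.transpose_mul]
      simp only [Matrix.mul_assoc]
    rw [h1, hB]
    calc (B⁻¹)ᵀ * (Bᵀ * B) * B⁻¹ = ((B⁻¹)ᵀ * Bᵀ) * (B * B⁻¹) := by simp only [Matrix.mul_assoc]
      _ = 1 := by rw [hBB, hBT, Matrix.mul_one]
  have hDinv : (Dm Φ y)⁻¹ = B⁻¹ * (B⁻¹)ᵀ := by
    apply Matrix.inv_eq_right_inv
    rw [hB]
    calc (Bᵀ * B) * (B⁻¹ * (B⁻¹)ᵀ) = Bᵀ * (B * B⁻¹) * (B⁻¹)ᵀ := by simp only [Matrix.mul_assoc]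
      _ = Bᵀ * (B⁻¹)ᵀ := by rw [hBB, Matrix.mul_one]
      _ = (B⁻¹ * B)ᵀ := by rw [Matrix.transpose_mul]
      _ = 1 := by rw [Matrix.nonsing_inv_mul B hBu, Matrix.transpose_one]
  have hcn : ∀ i, cn (Φ * B⁻¹) i = qf Φ (Dm Φ y)⁻¹ i := by
    intro i
    unfold cn qf
    rw [hDinv]
    have h1 : Φ * (B⁻¹ * (B⁻¹)ᵀ) * Φᵀ = (Φ * B⁻¹) * (Φ * B⁻¹)ᵀ := by
      rw [Matrix.transpose_mul]
      simp only [Matrix.mul_assoc]
    rw [h1, Matrix.mul_apply]
    apply Finset.sum_congr rfl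
    intro a _
    rw [Matrix.transpose_apply, pow_two]
  have hsl : ∀ f : Fin K → ℝ, ∀ i, sl (Φ * B⁻¹) b f i = sl Φ b (Matrix.toLin' B⁻¹ f) i := by
    intro f i
    unfold sl
    congr 1
    have h1 : ((Φ * B⁻¹) *ᵥ f) i = (Φ *ᵥ (B⁻¹ *ᵥ f)) i := by
      rw [Matrix.mulVec_mulVec]
    simp only [Matrix.mulVec, dotProduct] at h1
    rw [Matrix.toLin'_apply]
    simp only [Matrix.mulVec, dotProduct]
    exact h1
  have hBinv : (B⁻¹).det ≠ 0 := (Matrix.isUnit_nonsing_inv_det B hBu).ne_zero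
  have hBinv2 : ((B⁻¹).det)⁻¹ = B.det := by
    rw [Matrix.det_nonsing_inv, Ring.inverse_eq_inv', inv_inv]
  have h1 := hBLI ι K (Φ * B⁻¹) y b hy hDm
  have hmap := Real.map_matrix_volume_pi_eq_smul_volume_pi hBinv
  rw [hBinv2] at hmap
  have hcont : Continuous (Matrix.toLin' B⁻¹ : (Fin K → ℝ) → (Fin K → ℝ)) :=
    LinearMap.continuous_of_finiteDimensional _
  obtain ⟨F, hF⟩ : ∃ F : (Fin K → ℝ) → ENNReal, F = fun f => ENNReal.ofReal (Real.exp
      (∑ i, y i * (sl Φ b f i - Real.exp (sl Φ b f i)))) := ⟨_, rfl⟩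
  have hFm : Measurable F := by
    rw [hF]
    apply ENNReal.measurable_ofReal.comp
    apply Continuous.measurable
    unfold sl
    fun_prop
  have h2 : ∫⁻ f, F (Matrix.toLin' B⁻¹ f) = ENNReal.ofReal |B.det| * ∫⁻ f, F f := by
    rw [← lintegral_map hFm hcont.measurable, hmap, lintegral_smul_measure]
    rfl
  have h3 : ∫⁻ f : Fin K → ℝ, ENNReal.ofReal (Real.exp (∑ i, y i *
      (sl (Φ * B⁻¹) b f i - Real.exp (sl (Φ * B⁻¹) b f i)))) = ∫⁻ f, F (Matrix.toLin' B⁻¹ f) := by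
    rw [hF]
    apply lintegral_congr
    intro f
    simp only [hsl]
  rw [h3, h2] at h1
  have hlog : Real.log (Dm Φ y).det / 2 = Real.log |B.det| := by
    rw [hdet, ← sq_abs, Real.log_pow]
    push_cast
    ring
  have habs : 0 < |B.det| := abs_pos.mpr hBdet
  have hR : Real.exp ((K:ℝ) / 2 * Real.log (2 * Real.pi) + ∑ i, y i * (-1 + g (cn (Φ * B⁻¹) i))) =
      |B.det| * Real.exp ((K:ℝ) / 2 * Real.log (2 * Real.pi)
        - Real.log (Dm Φ y).det / 2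
        + ∑ i, y i * (-1 + g (qf Φ (Dm Φ y)⁻¹ i))) := by
    nth_rewrite 1 [← Real.exp_log habs]
    rw [← Real.exp_add, hlog]
    simp only [hcn]
    congr 1
    ring
  rw [hR, ENNReal.ofReal_mul habs.le] at h1
  have hne : ENNReal.ofReal |B.det| ≠ 0 := by
    rw [ne_eq, ENNReal.ofReal_eq_zero]
    push Not
    exact habs
  have h4 := (ENNReal.mul_le_mul_iff_right hne ENNReal.ofReal_ne_top).mp h1
  rw [hF] at h4
  exact h4

end Pool.LH60
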