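import Pool.Agent.Work.MP_1c7b0d_lh60.Interface
import Pool.Agent.Work.MP_1c7b0d_gt_BL_helper58.Gam

set_option autoImplicit false

open MeasureTheory Matrix
open scoped BigOperators RealInnerProductSpace

namespace Pool.LH60

theorem dm_quad {ι κ : Type*} [Fintype ι] [DecidableEq ι] [Fintype κ] [DecidableEq κ]
    (Ψ : Matrix ι κ ℝ) (y : ι → ℝ) (x z : κ → ℝ) :
    x ⬝ᵥ (Dm Ψ y *ᵥ z) = ∑ i, y i * (∑ a, Ψ i a * x a) * (∑ a, Ψ i a * z a) := by
  have h1 : Dm Ψ y *ᵥ z = Ψᵀ *ᵥ (Matrix.diagonal y *ᵥ (Ψ *ᵥ z)) := by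
    rw [Matrix.mulVec_mulVec, Matrix.mulVec_mulVec, Dm, Matrix.mul_assoc]
  rw [h1, Matrix.dotProduct_mulVec, Matrix.vecMul_transpose]
  simp only [dotProduct, Matrix.mulVec_diagonal]
  apply Finset.sum_congr rfl
  intro i _
  simp only [Matrix.mulVec, dotProduct]
  ring

theorem BLI_thm : Stmt_BLI := by
  intro ι _ _ K Ψ y b hy hD
  have hin : ∀ i (x : EuclideanSpace ℝ (Fin K)),
      ⟪(WithLp.toLp 2 (Ψ i) : EuclideanSpace ℝ (Fin K)), x⟫ = ∑ a, Ψ i a * x a := by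
    intro i x
    rw [PiLp.inner_apply]
    apply Finset.sum_congr rfl
    intro a _
    simp [mul_comm]
  have hnorm : ∀ i, ‖(WithLp.toLp 2 (Ψ i) : EuclideanSpace ℝ (Fin K))‖ ^ 2 = cn Ψ i := by
    intro i
    rw [← real_inner_self_eq_norm_sq, hin i]
    unfold cn
    apply Finset.sum_congr rfl
    intro a _
    simp only [pow_two]
  have hfr : ∀ x : EuclideanSpace ℝ (Fin K),
      ∑ i, y i * ⟪(WithLp.toLp 2 (Ψ i) : EuclideanSpace ℝ (Fin K)), x⟫ ^ 2 = ‖x‖ ^ 2 := by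
    intro x
    have h1 := dm_quad Ψ y (fun a => x a) (fun a => x a)
    rw [hD, Matrix.one_mulVec] at h1
    rw [EuclideanSpace.norm_sq_eq]
    have h2 : ∑ i, ‖x i‖ ^ 2 = (fun a => x a) ⬝ᵥ (fun a => x a) := by
      simp only [dotProduct]
      apply Finset.sum_congr rfl
      intro a _
      rw [Real.norm_eq_abs, sq_abs, pow_two]
    rw [h2, h1]
    apply Finset.sum_congr rfl
    intro i _
    rw [hin i x]
    ring
  have h1 := Pool.Agent.MP_1c7b0d_BL.bl_exp
    (fun i => (WithLp.toLp 2 (Ψ i) : EuclideanSpace ℝ (Fin K))) y hy hfr b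
  have h2 := (EuclideanSpace.volume_preserving_symm_measurableEquiv_toLp (Fin K)).lintegral_comp_emb
    (MeasurableEquiv.measurableEmbedding _)
    (fun f : Fin K → ℝ => ENNReal.ofReal (Real.exp (∑ i, y i * (sl Ψ b f i - Real.exp (sl Ψ b f i)))))
  rw [← h2]
  refine le_trans (le_of_eq ?_) (le_trans h1 (le_of_eq ?_))
  · apply lintegral_congr
    intro x
    congr 2
    apply Finset.sum_congr rfl
    intro i _
    rw [hin i x]
    rfl
  · congr 2
    rw [finrank_euclideanSpace_fin]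
    simp only [hnorm]
    have h3 : ∀ i, y i * (-1 + g (cn Ψ i)) = -y i + y i * (cn Ψ i * Pool.Agent.MP_1c7b0d_BL.binet (1 / cn Ψ i)) := by
      intro i
      have h4 : g (cn Ψ i) = cn Ψ i * Pool.Agent.MP_1c7b0d_BL.binet (1 / cn Ψ i) := by
        unfold g mu Pool.Agent.MP_1c7b0d_BL.binet
        ring
      rw [h4]
      ring
    rw [Finset.sum_congr rfl (fun i _ => h3 i), Finset.sum_add_distrib, Finset.sum_neg_distrib]
    ring

end Pool.LH60
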