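import Pool.Agent.Work.MP_1c7b0d_lh60.Interface

/-!
Block CVD (helper15): the derivative of the change of variables and its determinant.
-/

open MeasureTheory Matrix
open scoped BigOperators

namespace Pool.LH60

section CVDsec
variable {d K : ℕ}

/-- the matrix of the derivative -/
noncomputable def Jac (U : Matrix (Ix d K) (Fin d) ℝ) (Φ : Matrix (Ix d K) (Fin K) ℝ)
    (b : Ix d K → ℝ) (z : Ix d K → ℝ) : Matrix (Ix d K) (Ix d K) ℝ :=
  Matrix.diagonal (fun i => Real.exp (sl Φ b (fun a => z (Sum.inr a)) i)) *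
    Matrix.fromCols (-U) (Matrix.diagonal (yv U (fun a => z (Sum.inl a))) * Φ)

theorem Jac_inl (U : Matrix (Ix d K) (Fin d) ℝ) (Φ : Matrix (Ix d K) (Fin K) ℝ)
    (b : Ix d K → ℝ) (z : Ix d K → ℝ) (i : Ix d K) (a : Fin d) :
    Jac U Φ b z i (Sum.inl a) =
      Real.exp (sl Φ b (fun a => z (Sum.inr a)) i) * (-U i a) := by
  simp [Jac, Matrix.diagonal_mul, Matrix.fromCols_apply_inl]

theorem Jac_inr (U : Matrix (Ix d K) (Fin d) ℝ) (Φ : Matrix (Ix d K) (Fin K) ℝ)
    (b : Ix d K → ℝ) (z : Ix d K → ℝ) (i : Ix d K) (a : Fin K) :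
    Jac U Φ b z i (Sum.inr a) =
      Real.exp (sl Φ b (fun a => z (Sum.inr a)) i) *
        (yv U (fun a => z (Sum.inl a)) i * Φ i a) := by
  simp [Jac, Matrix.diagonal_mul, Matrix.fromCols_apply_inr]

theorem Th_hasFDerivAt (U : Matrix (Ix d K) (Fin d) ℝ) (Φ : Matrix (Ix d K) (Fin K) ℝ)
    (b : Ix d K → ℝ) (z : Ix d K → ℝ) :
    HasFDerivAt (Th U Φ b) (LinearMap.toContinuousLinearMap (Matrix.toLin' (Jac U Φ b z))) z := by
  rw [hasFDerivAt_pi']
  intro i
  have h1 : HasFDerivAt (fun w : Ix d K → ℝ => yv U (fun a => w (Sum.inl a)) i)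
      (-∑ a, U i a • (ContinuousLinearMap.proj (R := ℝ) (φ := fun _ : Ix d K => ℝ) (Sum.inl a))) z := by
    unfold yv
    have h0 : HasFDerivAt (fun w : Ix d K → ℝ => ∑ a, U i a * w (Sum.inl a))
        (∑ a, U i a • (ContinuousLinearMap.proj (R := ℝ) (φ := fun _ : Ix d K => ℝ) (Sum.inl a))) z := by
      refine HasFDerivAt.fun_sum fun a _ => ?_
      exact (hasFDerivAt_apply (𝕜 := ℝ) (Sum.inl a) z).const_mul (U i a)
    exact h0.const_sub 1
  have h2 : HasFDerivAt (fun w : Ix d K → ℝ => sl Φ b (fun a => w (Sum.inr a)) i)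
      (∑ a, Φ i a • (ContinuousLinearMap.proj (R := ℝ) (φ := fun _ : Ix d K => ℝ) (Sum.inr a))) z := by
    unfold sl
    have h0 : HasFDerivAt (fun w : Ix d K → ℝ => ∑ a, Φ i a * w (Sum.inr a))
        (∑ a, Φ i a • (ContinuousLinearMap.proj (R := ℝ) (φ := fun _ : Ix d K => ℝ) (Sum.inr a))) z := by
      refine HasFDerivAt.fun_sum fun a _ => ?_
      exact (hasFDerivAt_apply (𝕜 := ℝ) (Sum.inr a) z).const_mul (Φ i a)
    exact h0.const_add (b i)
  have h3 := h1.mul h2.exp
  refine (h3.congr_fderiv ?_)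
  ext v
  simp only [ContinuousLinearMap.add_apply, ContinuousLinearMap.smul_apply,
    ContinuousLinearMap.neg_apply, ContinuousLinearMap.sum_apply, ContinuousLinearMap.proj_apply,
    ContinuousLinearMap.comp_apply, smul_eq_mul, LinearMap.coe_toContinuousLinearMap',
    Matrix.toLin'_apply, Matrix.mulVec, dotProduct, Fintype.sum_sum_type, Jac_inl, Jac_inr]
  rw [add_comm]
  congr 1
  · rw [mul_neg, Finset.mul_sum, ← Finset.sum_neg_distrib]
    refine Finset.sum_congr rfl fun a _ => ?_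
    ring
  · rw [Finset.mul_sum, Finset.mul_sum]
    refine Finset.sum_congr rfl fun a _ => ?_
    ring

theorem CVD_thm : Stmt_CVD := by
  intro d K U Φ b hF z hz
  obtain ⟨hΦ, hΦU, hdet⟩ := hF
  refine ⟨LinearMap.toContinuousLinearMap (Matrix.toLin' (Jac U Φ b z)), Th_hasFDerivAt U Φ b z, ?_⟩
  set y := yv U (fun a => z (Sum.inl a)) with hy
  have hypos : ∀ i, 0 < y i := hz
  rw [LinearMap.det_toContinuousLinearMap, LinearMap.det_toLin', Jac, Matrix.det_mul,
    Matrix.det_diagonal, abs_mul, Finset.abs_prod]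
  have hexp : ∏ i, |Real.exp (sl Φ b (fun a => z (Sum.inr a)) i)|
      = Real.exp (∑ i, sl Φ b (fun a => z (Sum.inr a)) i) := by
    rw [Real.exp_sum]
    exact Finset.prod_congr rfl fun i _ => abs_of_pos (Real.exp_pos _)
  rw [hexp, mul_assoc]
  congr 1
  rw [← hy]
  -- the two block computations
  have hUΦ : Uᵀ * Φ = 0 := by
    have := congrArg Matrix.transpose hΦU
    simpa [Matrix.transpose_mul] using this
  set W : Matrix (Ix d K) (Ix d K) ℝ := Matrix.fromCols U Φ with hW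
  set M : Matrix (Ix d K) (Ix d K) ℝ := Matrix.fromCols (-U) (Matrix.diagonal y * Φ) with hM
  have hWM : Wᵀ * M = Matrix.fromBlocks (-(Uᵀ * U)) (Uᵀ * (Matrix.diagonal y * Φ)) 0 (Dm Φ y) := by
    rw [hW, hM, Matrix.transpose_fromCols, Matrix.fromRows_mul_fromCols]
    congr 1
    · rw [Matrix.mul_neg]
    · rw [Matrix.mul_neg, hΦU, neg_zero]
    · rw [Dm, Matrix.mul_assoc]
  have hWW : Wᵀ * W = Matrix.fromBlocks (Uᵀ * U) 0 0 1 := by
    rw [hW, Matrix.transpose_fromCols, Matrix.fromRows_mul_fromCols, hUΦ, hΦU, hΦ]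
  have hdWM : W.det * M.det = (-(Uᵀ * U)).det * (Dm Φ y).det := by
    have := congrArg Matrix.det hWM
    rwa [Matrix.det_mul, Matrix.det_transpose, Matrix.det_fromBlocks_zero₂₁] at this
  have hdWW : W.det * W.det = (Uᵀ * U).det := by
    have := congrArg Matrix.det hWW
    rwa [Matrix.det_mul, Matrix.det_transpose, Matrix.det_fromBlocks_zero₂₁, Matrix.det_one,
      mul_one] at this
  have hSpos : 0 < (Uᵀ * U).det := by
    rcases lt_or_eq_of_le (by rw [← hdWW]; exact mul_self_nonneg _ : 0 ≤ (Uᵀ * U).det) with h | h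
    · exact h
    · exact absurd h.symm hdet
  have hWabs : |W.det| = Real.sqrt (Uᵀ * U).det := by
    rw [← hdWW, Real.sqrt_mul_self_eq_abs]
  have hWpos : 0 < |W.det| := by
    rw [hWabs]; exact Real.sqrt_pos.mpr hSpos
  have hD : 0 ≤ (Dm Φ y).det := by
    have hps : (Dm Φ y).PosSemidef := by
      have h := ((Matrix.posSemidef_diagonal_iff (d := y)).mpr
        (fun i => (hypos i).le)).conjTranspose_mul_mul_same Φ
      rw [Matrix.conjTranspose_eq_transpose_of_trivial] at h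
      exact h
    exact hps.det_nonneg
  have habs := congrArg abs hdWM
  rw [abs_mul, abs_mul, Matrix.det_neg, abs_mul, abs_pow, abs_neg, abs_one, one_pow, one_mul,
    abs_of_pos hSpos, abs_of_nonneg hD] at habs
  have h4 : |W.det| * |M.det| = |W.det| * (Real.sqrt (Uᵀ * U).det * (Dm Φ y).det) := by
    rw [habs, ← mul_assoc, hWabs, Real.mul_self_sqrt hSpos.le]
  exact mul_left_cancel₀ hWpos.ne' h4

end CVDsec

end Pool.LH60
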