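import Pool.Agent.Work.MP_1c7b0d_lh60.Interface

/-! CVI: the change of variables is injective. -/

set_option autoImplicit false

open MeasureTheory Matrix
open scoped BigOperators

namespace Pool.LH60

namespace CVI

theorem term_neg {y y' s s' : ℝ} (hy : 0 < y) (hy' : 0 < y')
    (h : y * Real.exp s = y' * Real.exp s') (hne : y ≠ y') : (y - y') * (s - s') < 0 := by
  rcases lt_or_gt_of_ne hne with hlt | hgt
  · have h1 : Real.exp s' < Real.exp s := by
      by_contra hcon
      push Not at hcon
      have h2 : y * Real.exp s < y' * Real.exp s' :=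
        mul_lt_mul hlt hcon (Real.exp_pos s) hy'.le
      linarith
    have h2 : s' < s := Real.exp_lt_exp.1 h1
    nlinarith
  · have h1 : Real.exp s < Real.exp s' := by
      by_contra hcon
      push Not at hcon
      have h2 : y' * Real.exp s' < y * Real.exp s :=
        mul_lt_mul hgt hcon (Real.exp_pos s') hy.le
      linarith
    have h2 : s < s' := Real.exp_lt_exp.1 h1
    nlinarith

end CVI

theorem CVI_thm : Stmt_CVI := by
  intro d K U Φ b hF z hz z' hz' hT
  obtain ⟨h1, h2, h3⟩ := hF
  set x : Fin d → ℝ := fun a => z (Sum.inl a) with hx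
  set x' : Fin d → ℝ := fun a => z' (Sum.inl a) with hx'
  set f : Fin K → ℝ := fun a => z (Sum.inr a) with hf
  set f' : Fin K → ℝ := fun a => z' (Sum.inr a) with hf'
  have hy : ∀ i, 0 < yv U x i := hz
  have hy' : ∀ i, 0 < yv U x' i := hz'
  have hE : ∀ i, yv U x i * Real.exp (sl Φ b f i) = yv U x' i * Real.exp (sl Φ b f' i) := by
    intro i
    exact congrFun hT i
  have hyd : ∀ i, yv U x i - yv U x' i = -(U *ᵥ (x - x')) i := by
    intro i
    simp only [yv, mulVec, dotProduct, Pi.sub_apply, mul_sub, Finset.sum_sub_distrib]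
    ring
  have hsd : ∀ i, sl Φ b f i - sl Φ b f' i = (Φ *ᵥ (f - f')) i := by
    intro i
    simp only [sl, mulVec, dotProduct, Pi.sub_apply, mul_sub, Finset.sum_sub_distrib]
    ring
  have h4 : Uᵀ * Φ = 0 := by
    have : (Φᵀ * U)ᵀ = 0 := by rw [h2]; rfl
    rwa [transpose_mul, transpose_transpose] at this
  have hsum : ∑ i, (yv U x i - yv U x' i) * (sl Φ b f i - sl Φ b f' i) = 0 := by
    have e1 : ∑ i, (yv U x i - yv U x' i) * (sl Φ b f i - sl Φ b f' i) =
        -((U *ᵥ (x - x')) ⬝ᵥ (Φ *ᵥ (f - f'))) := by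
      rw [dotProduct, ← Finset.sum_neg_distrib]
      refine Finset.sum_congr rfl fun i _ => ?_
      rw [hyd, hsd]; ring
    have e2 : (U *ᵥ (x - x')) ⬝ᵥ (Φ *ᵥ (f - f')) = 0 := by
      rw [dotProduct_comm, dotProduct_mulVec, ← mulVec_transpose, mulVec_mulVec, h4]
      simp
    rw [e1, e2, neg_zero]
  have hterm : ∀ i, (yv U x i - yv U x' i) * (sl Φ b f i - sl Φ b f' i) ≤ 0 := by
    intro i
    by_cases h : yv U x i = yv U x' i
    · rw [h]; simp
    · exact (CVI.term_neg (hy i) (hy' i) (hE i) h).le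
  have hyeq : ∀ i, yv U x i = yv U x' i := by
    intro i
    by_contra h
    have h5 := CVI.term_neg (hy i) (hy' i) (hE i) h
    have h6 : ∑ i, (yv U x i - yv U x' i) * (sl Φ b f i - sl Φ b f' i) < 0 :=
      Finset.sum_neg' (fun j _ => hterm j) ⟨i, Finset.mem_univ _, h5⟩
    linarith
  have hseq : ∀ i, sl Φ b f i = sl Φ b f' i := by
    intro i
    have h5 := hE i
    rw [hyeq i] at h5
    have h6 := mul_left_cancel₀ (hy' i).ne' h5
    exact Real.exp_injective h6
  have hxx : x = x' := by
    have h5 : U *ᵥ (x - x') = 0 := by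
      ext i
      have := hyd i
      rw [hyeq i, sub_self] at this
      simp only [Pi.zero_apply]
      linarith
    have h6 : (Uᵀ * U) *ᵥ (x - x') = 0 := by
      rw [← mulVec_mulVec, h5, mulVec_zero]
    have h7 := eq_zero_of_mulVec_eq_zero h3 h6
    exact sub_eq_zero.1 h7
  have hff : f = f' := by
    have h5 : Φ *ᵥ (f - f') = 0 := by
      ext i
      have := hsd i
      rw [hseq i, sub_self] at this
      simp only [Pi.zero_apply]
      linarith
    have h6 : (Φᵀ * Φ) *ᵥ (f - f') = 0 := by
      rw [← mulVec_mulVec, h5, mulVec_zero]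
    rw [h1, one_mulVec] at h6
    exact sub_eq_zero.1 h6
  ext i
  rcases i with a | a
  · exact congrFun hxx a
  · exact congrFun hff a

end Pool.LH60
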