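import Pool.Agent.Work.MP_1c7b0d_lh60.Interface

/-!
Block CVT (helper15): the integral identity from the change of variables.
-/

open MeasureTheory Matrix
open scoped BigOperators

namespace Pool.LH60

section CVTsec
variable {d K : ℕ}

theorem continuous_yv (U : Matrix (Ix d K) (Fin d) ℝ) (i : Ix d K) :
    Continuous (fun x : Fin d → ℝ => yv U x i) := by
  unfold yv
  fun_prop

theorem continuous_sl (Φ : Matrix (Ix d K) (Fin K) ℝ) (b : Ix d K → ℝ) (i : Ix d K) :
    Continuous (fun f : Fin K → ℝ => sl Φ b f i) := by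
  unfold sl
  fun_prop

theorem isOpen_Pol (U : Matrix (Ix d K) (Fin d) ℝ) : IsOpen (Pol U) := by
  have : Pol U = ⋂ i, {x | 0 < yv U x i} := by
    ext x; simp [Pol]
  rw [this]
  exact isOpen_iInter_of_finite fun i => isOpen_lt continuous_const (continuous_yv U i)

theorem isOpen_Dom (U : Matrix (Ix d K) (Fin d) ℝ) : IsOpen (Dom (K := K) U) := by
  have : Dom (K := K) U = (fun z : Ix d K → ℝ => fun a => z (Sum.inl a)) ⁻¹' (Pol U) := rfl
  rw [this]
  refine (isOpen_Pol U).preimage ?_
  fun_prop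

theorem continuous_Dm (Φ : Matrix (Ix d K) (Fin K) ℝ) :
    Continuous (fun y : Ix d K → ℝ => Dm Φ y) := by
  unfold Dm
  exact (continuous_const.matrix_mul (Continuous.matrix_diagonal continuous_id)).matrix_mul
    continuous_const

theorem lint_exp_one :
    ∫⁻ w in {w : Ix d K → ℝ | ∀ i, 0 < w i}, ENNReal.ofReal (Real.exp (-∑ i, w i)) = 1 := by
  have hset : {w : Ix d K → ℝ | ∀ i, 0 < w i} = Set.univ.pi (fun _ => Set.Ioi (0:ℝ)) := by
    ext w; simp [Set.mem_pi]
  rw [hset, volume_pi, Measure.restrict_pi_pi]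
  have hint : Integrable (fun t : ℝ => Real.exp (-t)) (volume.restrict (Set.Ioi 0)) :=
    integrableOn_exp_neg_Ioi 0
  have hfun : (fun w : Ix d K → ℝ => Real.exp (-∑ i, w i)) = fun w => ∏ i, Real.exp (-(w i)) := by
    funext w
    rw [← Real.exp_sum, Finset.sum_neg_distrib]
  have hI : Integrable (fun w : Ix d K → ℝ => Real.exp (-∑ i, w i))
      (Measure.pi fun _ : Ix d K => (volume : Measure ℝ).restrict (Set.Ioi 0)) := by
    rw [hfun]
    exact Integrable.fintype_prod (fun _ => hint)
  rw [← ofReal_integral_eq_lintegral_ofReal hI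
    (Filter.Eventually.of_forall fun _ => (Real.exp_pos _).le), hfun,
    integral_fintype_prod_eq_prod (fun (_ : Ix d K) (t : ℝ) => Real.exp (-t))]
  rw [Finset.prod_congr rfl (fun _ _ => integral_exp_neg_Ioi_zero), Finset.prod_const_one, ENNReal.ofReal_one]

theorem CVT_thm (hCVI : Stmt_CVI) (hCVS : Stmt_CVS) (hCVD : Stmt_CVD) (hPDY : Stmt_PDY) :
    Stmt_CVT := by
  intro d K U Φ b hF
  have hΦ := hF.1
  choose! L hL hLdet using hCVD d K U Φ b hF
  -- the image
  have himg : Th U Φ b '' (Dom U) = {w : Ix d K → ℝ | ∀ i, 0 < w i} := by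
    ext w
    constructor
    · rintro ⟨z, hz, rfl⟩ i
      exact mul_pos (hz i) (Real.exp_pos _)
    · intro hw
      obtain ⟨z, hz, hzw⟩ := hCVS d K U Φ b hF w hw
      exact ⟨z, hz, hzw⟩
  have hcv := lintegral_image_eq_lintegral_abs_det_fderiv_mul (volume : Measure (Ix d K → ℝ))
    (s := Dom U) (f := Th U Φ b) (f' := L) (isOpen_Dom U).measurableSet
    (fun z hz => (hL z hz).hasFDerivWithinAt) (hCVI d K U Φ b hF)
    (fun w => ENNReal.ofReal (Real.exp (-∑ i, w i)))
  rw [himg, lint_exp_one] at hcv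
  -- the integrand on the product
  set F : (Fin d → ℝ) → (Fin K → ℝ) → ENNReal := fun x f =>
    ENNReal.ofReal (Real.sqrt (Uᵀ * U).det * (Dm Φ (yv U x)).det) *
      ENNReal.ofReal (Real.exp (∑ i, (sl Φ b f i - yv U x i * Real.exp (sl Φ b f i)))) with hFdef
  have hrew : ∫⁻ z in Dom U, ENNReal.ofReal |(L z).det| *
        ENNReal.ofReal (Real.exp (-∑ i, Th U Φ b z i))
      = ∫⁻ z in Dom U, F (fun a => z (Sum.inl a)) (fun a => z (Sum.inr a)) := by
    refine setLIntegral_congr_fun (isOpen_Dom U).measurableSet fun z hz => ?_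
    have hDpos : 0 < (Dm Φ (yv U (fun a => z (Sum.inl a)))).det :=
      (hPDY d K Φ _ hΦ hz).det_pos
    simp only [hFdef]
    rw [hLdet z hz, ← ENNReal.ofReal_mul (by positivity), ← ENNReal.ofReal_mul (by positivity)]
    congr 1
    rw [Finset.sum_sub_distrib, Real.exp_sub]
    have hTh : ∑ i, Th U Φ b z i
        = ∑ i, yv U (fun a => z (Sum.inl a)) i * Real.exp (sl Φ b (fun a => z (Sum.inr a)) i) := rfl
    rw [hTh, Real.exp_neg]
    field_simp
  rw [hrew] at hcv
  -- measurability
  have hmeasF : Measurable (fun p : (Fin d → ℝ) × (Fin K → ℝ) => F p.1 p.2) := by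
    simp only [hFdef]
    have hc1 : Continuous (fun p : (Fin d → ℝ) × (Fin K → ℝ) =>
        Real.sqrt (Uᵀ * U).det * (Dm Φ (yv U p.1)).det) := by
      refine continuous_const.mul (Continuous.matrix_det ?_)
      refine (continuous_Dm Φ).comp ?_
      exact continuous_pi fun i => (continuous_yv U i).comp continuous_fst
    have hc2 : Continuous (fun p : (Fin d → ℝ) × (Fin K → ℝ) =>
        Real.exp (∑ i, (sl Φ b p.2 i - yv U p.1 i * Real.exp (sl Φ b p.2 i)))) := by
      refine Real.continuous_exp.comp (continuous_finsetSum _ fun i _ => ?_)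
      have hs : Continuous (fun p : (Fin d → ℝ) × (Fin K → ℝ) => sl Φ b p.2 i) :=
        (continuous_sl Φ b i).comp continuous_snd
      exact hs.sub (((continuous_yv U i).comp continuous_fst).mul (Real.continuous_exp.comp hs))
    exact (ENNReal.measurable_ofReal.comp hc1.measurable).mul
      (ENNReal.measurable_ofReal.comp hc2.measurable)
  -- transfer to the product space
  have hmp := volume_measurePreserving_sumPiEquivProdPi (fun _ : Ix d K => ℝ)
  have hprod : ∫⁻ z in Dom U, F (fun a => z (Sum.inl a)) (fun a => z (Sum.inr a))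
      = ∫⁻ p in (Pol U) ×ˢ (Set.univ : Set (Fin K → ℝ)), F p.1 p.2
          ∂((volume : Measure (Fin d → ℝ)).prod (volume : Measure (Fin K → ℝ))) := by
    have h := hmp.setLIntegral_comp_preimage (s := (Pol U) ×ˢ (Set.univ : Set (Fin K → ℝ)))
      ((isOpen_Pol U).measurableSet.prod MeasurableSet.univ) hmeasF
    rw [← Measure.volume_eq_prod]
    rw [← h]
    congr 1
    congr 1
    ext z
    simp only [Dom, Set.mem_ofPred_eq, Set.mem_preimage, Set.mem_prod, Set.mem_univ, and_true]
    rfl
  rw [hprod, ← Measure.prod_restrict, Measure.restrict_univ,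
    lintegral_prod _ hmeasF.aemeasurable] at hcv
  rw [hcv]
  refine lintegral_congr fun x => ?_
  simp only [hFdef]
  rw [lintegral_const_mul']
  exact ENNReal.ofReal_ne_top

end CVTsec

end Pool.LH60
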