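import Pool.Agent.Work.MP_1c7b0d_lh60.Interface

/-! Block `DEGEN` (helper62): a polytope whose normals do not span has infinite volume. -/

open MeasureTheory Matrix
open scoped BigOperators

namespace Pool.LH60

lemma degen_yv_continuous {d K : ℕ} (U : Matrix (Ix d K) (Fin d) ℝ) (i : Ix d K) :
    Continuous (fun x : Fin d → ℝ => yv U x i) := by
  unfold yv
  fun_prop

lemma degen_Pol_isOpen {d K : ℕ} (U : Matrix (Ix d K) (Fin d) ℝ) : IsOpen (Pol U) := by
  have : Pol U = ⋂ i, {x : Fin d → ℝ | 0 < yv U x i} := by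
    ext x; simp [Pol]
  rw [this]
  exact isOpen_iInter_of_finite (fun i => isOpen_lt continuous_const (degen_yv_continuous U i))

lemma degen_zero_mem_Pol {d K : ℕ} (U : Matrix (Ix d K) (Fin d) ℝ) : (0 : Fin d → ℝ) ∈ Pol U := by
  intro i; simp [yv]

theorem DEGEN_thm : Stmt_DEGEN := by
  intro d K U hdet
  obtain ⟨v, hv0, hv⟩ := (Matrix.exists_mulVec_eq_zero_iff (M := Uᵀ * U)).2 hdet
  have hUv : U *ᵥ v = 0 := by
    have h1 : (U *ᵥ v) ⬝ᵥ (U *ᵥ v) = 0 := by
      have h2 : (U *ᵥ v) ⬝ᵥ (U *ᵥ v) = v ⬝ᵥ ((Uᵀ * U) *ᵥ v) := by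
        rw [← Matrix.mulVec_mulVec, Matrix.dotProduct_mulVec v, Matrix.vecMul_transpose]
      rw [h2, hv, dotProduct_zero]
    exact dotProduct_self_eq_zero.1 h1
  obtain ⟨r, hr, hball⟩ := Metric.isOpen_iff.1 (degen_Pol_isOpen U) 0 (degen_zero_mem_Pol U)
  have hvn : 0 < ‖v‖ := norm_pos_iff.2 hv0
  set w : Fin d → ℝ := (2 * r / ‖v‖) • v with hw
  have hwn : ‖w‖ = 2 * r := by
    rw [hw, norm_smul, Real.norm_eq_abs, abs_of_pos (by positivity)]
    field_simp
  have hUw : ∀ i, ∑ a, U i a * w a = 0 := by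
    intro i
    have h3 : ∑ a, U i a * v a = 0 := by
      have := congrFun hUv i
      simpa [Matrix.mulVec, dotProduct] using this
    have h4 : ∑ a, U i a * w a = (2 * r / ‖v‖) * ∑ a, U i a * v a := by
      rw [Finset.mul_sum]
      refine Finset.sum_congr rfl (fun a _ => ?_)
      simp only [hw, Pi.smul_apply, smul_eq_mul]; ring
    rw [h4, h3, mul_zero]
  have hsub : (⋃ k : ℕ, Metric.ball ((k : ℝ) • w) r) ⊆ Pol U := by
    intro x hx
    obtain ⟨k, hk⟩ := Set.mem_iUnion.1 hx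
    have h5 : x - (k : ℝ) • w ∈ Pol U := by
      apply hball
      rw [Metric.mem_ball, dist_zero_right]
      rw [Metric.mem_ball, dist_eq_norm] at hk
      exact hk
    intro i
    have h6 := h5 i
    have h7 : yv U (x - (k : ℝ) • w) i = yv U x i := by
      unfold yv
      have h8 : ∑ a, U i a * (x - (k : ℝ) • w) a = ∑ a, U i a * x a - (k : ℝ) * ∑ a, U i a * w a := by
        rw [Finset.mul_sum, ← Finset.sum_sub_distrib]
        refine Finset.sum_congr rfl (fun a _ => ?_)
        simp only [Pi.sub_apply, Pi.smul_apply, smul_eq_mul]; ring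
      rw [h8, hUw i]; ring
    rw [h7] at h6
    exact h6
  have hdisj : Pairwise (Function.onFun Disjoint (fun k : ℕ => Metric.ball ((k : ℝ) • w) r)) := by
    intro k l hkl
    refine Metric.ball_disjoint_ball ?_
    rw [dist_eq_norm, ← sub_smul, norm_smul, hwn, Real.norm_eq_abs]
    have h9 : (1 : ℝ) ≤ |(k : ℝ) - l| := by
      have h10 : ((k : ℤ) - l) ≠ 0 := by omega
      have h11 : (1 : ℤ) ≤ |(k : ℤ) - l| := Int.one_le_abs h10
      have h12 : ((|(k : ℤ) - l| : ℤ) : ℝ) = |(k : ℝ) - l| := by push_cast; rfl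
      rw [← h12]; exact_mod_cast h11
    nlinarith
  have hmeas : volume (⋃ k : ℕ, Metric.ball ((k : ℝ) • w) r) = ⊤ := by
    rw [measure_iUnion hdisj (fun k => Metric.isOpen_ball.measurableSet)]
    have h13 : ∀ k : ℕ, volume (Metric.ball ((k : ℝ) • w) r) = volume (Metric.ball (0 : Fin d → ℝ) r) :=
      fun k => Measure.addHaar_ball_center _ _ _
    simp_rw [h13]
    exact ENNReal.tsum_const_eq_top_of_ne_zero (Metric.measure_ball_pos volume _ hr).ne'
  exact top_le_iff.1 (hmeas ▸ measure_mono hsub)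

end Pool.LH60
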