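import Pool.Agent.Work.MP_1c7b0d_lh60.Interface

open Matrix
open scoped BigOperators

namespace Pool.LH60

theorem DETS_thm : Stmt_DETS := by
  intro d K U hU hdet
  set S : Matrix (Fin d) (Fin d) ℝ := Uᵀ * U with hSdef
  have hpsd : S.PosSemidef := by
    have := Matrix.posSemidef_conjTranspose_mul_self U
    rwa [Matrix.conjTranspose_eq_transpose_of_trivial] at this
  have hH : S.IsHermitian := hpsd.1
  set s := hH.eigenvalues with hs
  set Q : Matrix (Fin d) (Fin d) ℝ := (hH.eigenvectorUnitary : Matrix (Fin d) (Fin d) ℝ) with hQ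
  have hQQ : Qᵀ * Q = 1 := by
    have := Unitary.coe_star_mul_self hH.eigenvectorUnitary
    rwa [Matrix.star_eq_conjTranspose, Matrix.conjTranspose_eq_transpose_of_trivial] at this
  have hQQ' : Q * Qᵀ = 1 := mul_eq_one_comm.mp hQQ
  have hSd : S = Q * Matrix.diagonal s * Qᵀ := by
    have h := hH.spectral_theorem
    rw [Unitary.conjStarAlgAut_apply] at h
    rw [Matrix.star_eq_conjTranspose, Matrix.conjTranspose_eq_transpose_of_trivial] at h
    exact h
  have hdetS : S.det = ∏ k, s k := by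
    have h := hH.det_eq_prod_eigenvalues
    simpa using h
  have hspos : ∀ k, 0 < s k := by
    intro k
    have h0 : 0 ≤ s k := hpsd.eigenvalues_nonneg k
    have hne : s k ≠ 0 := by
      intro h
      apply hdet
      rw [hdetS]
      exact Finset.prod_eq_zero (Finset.mem_univ k) h
    exact lt_of_le_of_ne h0 (Ne.symm hne)
  set B : Matrix (Ix d K) (Fin d) ℝ := U * Q with hB
  have hBB : Bᵀ * B = Matrix.diagonal s := by
    have : Bᵀ * B = Qᵀ * S * Q := by
      rw [hB, Matrix.transpose_mul, hSdef]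
      simp only [Matrix.mul_assoc]
    rw [this, hSd]
    calc Qᵀ * (Q * Matrix.diagonal s * Qᵀ) * Q
        = (Qᵀ * Q) * Matrix.diagonal s * (Qᵀ * Q) := by simp only [Matrix.mul_assoc]
      _ = Matrix.diagonal s := by rw [hQQ]; simp
  have hcol : ∀ k, ∑ i, B i k ^ 2 = s k := by
    intro k
    have h := congrFun (congrFun hBB k) k
    rw [Matrix.mul_apply, Matrix.diagonal_apply_eq] at h
    rw [← h]
    refine Finset.sum_congr rfl fun i _ => ?_
    rw [Matrix.transpose_apply]; ring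
  have hrow : ∀ i, ∑ k, B i k ^ 2 = 1 := by
    intro i
    have h1 : B * Bᵀ = U * Uᵀ := by
      rw [hB, Matrix.transpose_mul]
      calc U * Q * (Qᵀ * Uᵀ) = U * (Q * Qᵀ) * Uᵀ := by simp only [Matrix.mul_assoc]
        _ = U * Uᵀ := by rw [hQQ']; simp
    have h := congrFun (congrFun h1 i) i
    rw [Matrix.mul_apply, Matrix.mul_apply] at h
    have e1 : ∑ k, B i k ^ 2 = ∑ k, B i k * Bᵀ k i := by
      refine Finset.sum_congr rfl fun k _ => ?_
      rw [Matrix.transpose_apply]; ring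
    have e2 : ∑ a, U i a * Uᵀ a i = ∑ a, U i a ^ 2 := by
      refine Finset.sum_congr rfl fun a _ => ?_
      rw [Matrix.transpose_apply]; ring
    rw [e1, h, e2, hU i]
  have hSinv : S⁻¹ = Q * Matrix.diagonal (fun k => (s k)⁻¹) * Qᵀ := by
    apply Matrix.inv_eq_right_inv
    rw [hSd]
    calc Q * Matrix.diagonal s * Qᵀ * (Q * Matrix.diagonal (fun k => (s k)⁻¹) * Qᵀ)
        = Q * (Matrix.diagonal s * (Qᵀ * Q) * Matrix.diagonal (fun k => (s k)⁻¹)) * Qᵀ := by
          simp only [Matrix.mul_assoc]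
      _ = 1 := by
          rw [hQQ, Matrix.mul_one, Matrix.diagonal_mul_diagonal]
          have : (fun i => s i * (s i)⁻¹) = fun _ => (1:ℝ) := by
            funext i; exact mul_inv_cancel₀ (hspos i).ne'
          rw [this, Matrix.diagonal_one, Matrix.mul_one, hQQ']
  have ht : ∀ i, (U * S⁻¹ * Uᵀ) i i = ∑ k, B i k ^ 2 * (s k)⁻¹ := by
    intro i
    have h1 : U * S⁻¹ * Uᵀ = B * Matrix.diagonal (fun k => (s k)⁻¹) * Bᵀ := by
      rw [hSinv, hB, Matrix.transpose_mul]
      simp only [Matrix.mul_assoc]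
    rw [h1, Matrix.mul_apply]
    refine Finset.sum_congr rfl fun k _ => ?_
    rw [Matrix.mul_diagonal, Matrix.transpose_apply]; ring
  have hconv := Real.convexOn_mul_log
  have hi : ∀ i, (U * S⁻¹ * Uᵀ) i i * Real.log ((U * S⁻¹ * Uᵀ) i i)
      ≤ ∑ k, B i k ^ 2 * ((s k)⁻¹ * Real.log ((s k)⁻¹)) := by
    intro i
    rw [ht i]
    have h := hconv.map_sum_le (t := Finset.univ) (w := fun k => B i k ^ 2)
      (p := fun k => (s k)⁻¹) (fun k _ => sq_nonneg _) (hrow i)
      (fun k _ => (inv_pos.mpr (hspos k)).le)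
    simpa only [smul_eq_mul] using h
  calc ∑ i, (U * S⁻¹ * Uᵀ) i i * Real.log ((U * S⁻¹ * Uᵀ) i i)
      ≤ ∑ i, ∑ k, B i k ^ 2 * ((s k)⁻¹ * Real.log ((s k)⁻¹)) := Finset.sum_le_sum fun i _ => hi i
    _ = ∑ k, ∑ i, B i k ^ 2 * ((s k)⁻¹ * Real.log ((s k)⁻¹)) := Finset.sum_comm
    _ = ∑ k, -Real.log (s k) := by
        refine Finset.sum_congr rfl fun k _ => ?_
        rw [← Finset.sum_mul, hcol k, Real.log_inv]
        have := (hspos k).ne'
        field_simp
    _ = -Real.log S.det := by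
        rw [Finset.sum_neg_distrib, hdetS, Real.log_prod (fun k _ => (hspos k).ne')]

end Pool.LH60
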