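import Pool.Agent.Work.MP_1c7b0d_lh60.Interface

/-!
Block FRI (helper45): the two projections of a frame.
-/

open MeasureTheory Matrix
open scoped BigOperators

namespace Pool.LH60

theorem FRI.cn_eq {ι κ : Type*} [Fintype ι] [DecidableEq ι] [Fintype κ] [DecidableEq κ]
    (Φ : Matrix ι κ ℝ) (i : ι) : cn Φ i = (Φ * Φᵀ) i i := by
  rw [cn, Matrix.mul_apply]
  refine Finset.sum_congr rfl fun a _ => ?_
  rw [Matrix.transpose_apply, sq]

theorem FRI_thm : Stmt_FRI := by
  intro d K U Φ hF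
  obtain ⟨h1, h2, h3⟩ := hF
  have hS : IsUnit (Uᵀ * U).det := isUnit_iff_ne_zero.mpr h3
  have h2' : Uᵀ * Φ = 0 := by
    have h := congrArg Matrix.transpose h2
    rwa [Matrix.transpose_mul, Matrix.transpose_transpose, Matrix.transpose_zero] at h
  -- the left inverse of `[U | Φ]`
  have hl : (Matrix.fromRows ((Uᵀ * U)⁻¹ * Uᵀ) Φᵀ : Matrix (Ix d K) (Ix d K) ℝ) *
      Matrix.fromCols U Φ = 1 := by
    rw [Matrix.fromRows_mul_fromCols, Matrix.mul_assoc, Matrix.nonsing_inv_mul _ hS,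
      Matrix.mul_assoc, h2', h2, h1, Matrix.mul_zero, Matrix.fromBlocks_one]
  have hr := mul_eq_one_comm.mp hl
  rw [Matrix.fromCols_mul_fromRows] at hr
  have hX : Φ * Φᵀ + U * (Uᵀ * U)⁻¹ * Uᵀ = 1 := by
    rw [add_comm, Matrix.mul_assoc U, hr]
  have hpsd : (Uᵀ * U).PosSemidef := by
    have h := Matrix.posSemidef_conjTranspose_mul_self U
    rwa [Matrix.conjTranspose_eq_transpose_of_trivial] at h
  have hpd : (Uᵀ * U).PosDef := hpsd.posDef_iff_det_ne_zero.mpr h3
  have hsum : ∑ i, cn Φ i = K := by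
    have h : (Φ * Φᵀ).trace = (Φᵀ * Φ).trace := Matrix.trace_mul_comm _ _
    rw [h1, Matrix.trace_one, Fintype.card_fin] at h
    rw [← h, Matrix.trace]
    exact Finset.sum_congr rfl fun i _ => FRI.cn_eq Φ i
  refine ⟨hX, hpd, hsum, fun i => Finset.sum_nonneg fun a _ => sq_nonneg _, ?_⟩
  intro hU i
  have hi : cn Φ i = 1 - (U * (Uᵀ * U)⁻¹ * Uᵀ) i i := by
    have h := congrFun (congrFun hX i) i
    rw [Matrix.add_apply, Matrix.one_apply_eq] at h
    rw [FRI.cn_eq]
    linarith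
  refine ⟨?_, hi⟩
  have hpos : 0 < (U * (Uᵀ * U)⁻¹ * Uᵀ) i i := by
    have hne : (fun a => U i a) ≠ 0 := by
      intro h0
      have h := hU i
      have h0' : ∀ a, U i a = 0 := fun a => congrFun h0 a
      simp [h0'] at h
    have h := hpd.inv.dotProduct_mulVec_pos hne
    have e : (U * (Uᵀ * U)⁻¹ * Uᵀ) i i =
        star (fun a => U i a) ⬝ᵥ ((Uᵀ * U)⁻¹ *ᵥ (fun a => U i a)) := by
      rw [Matrix.mul_apply]
      simp only [dotProduct, Matrix.mulVec, Matrix.mul_apply, Matrix.transpose_apply,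
        Pi.star_apply, star_trivial, Finset.sum_mul, Finset.mul_sum]
      rw [Finset.sum_comm]
      refine Finset.sum_congr rfl fun a _ => Finset.sum_congr rfl fun b _ => ?_
      ring
    rw [e]
    exact h
  linarith

end Pool.LH60
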