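import Mathlib
import Pool.Agent.Work.MP_1c7b0d_gt.Defs

/-!
Interface of the SHARP LOWER BOUND for L'huilier's problem (row MP_1c7b0d_gt), helper60.
All proofs: `BLUEPRINT.md` in this folder. `d` = dimension, `n = d + K` facets.
Block `X` proves `theorem X : Stmt_X` in `Pool/Agent/Work/MP_1c7b0d_lh60/X.lean`
(dependencies enter as hypotheses, see the blueprint).
-/

open MeasureTheory Matrix
open scoped BigOperators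

namespace Pool.LH60

/-- Binet's function `log Γ(u) - (u-1/2) log u + u - (1/2) log 2π` -/
noncomputable def mu (u : ℝ) : ℝ :=
  Real.log (Real.Gamma u) - (u - 1/2) * Real.log u + u - Real.log (2 * Real.pi) / 2

/-- `g r = r mu(1/r)`, `g 0 = 0` -/
noncomputable def g (r : ℝ) : ℝ := r * mu (1 / r)

section generic
variable {ι κ : Type*} [Fintype ι] [DecidableEq ι] [Fintype κ] [DecidableEq κ]

/-- `|φ_i|²`, `φ_i` = row `i` of `Φ` -/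
def cn (Φ : Matrix ι κ ℝ) (i : ι) : ℝ := ∑ a, Φ i a ^ 2

/-- `D_y = ∑ y_i φ_i φ_iᵀ` -/
def Dm (Φ : Matrix ι κ ℝ) (y : ι → ℝ) : Matrix κ κ ℝ := Φᵀ * Matrix.diagonal y * Φ

/-- `φ_iᵀ A φ_i` -/
def qf (Φ : Matrix ι κ ℝ) (A : Matrix κ κ ℝ) (i : ι) : ℝ := (Φ * A * Φᵀ) i i

/-- `s_i = b_i + ⟨φ_i, f⟩` -/
def sl (Φ : Matrix ι κ ℝ) (b : ι → ℝ) (f : κ → ℝ) (i : ι) : ℝ := b i + ∑ a, Φ i a * f a

/-- the slacks `y_i(x) = 1 - ⟨u_i, x⟩`, `u_i` = row `i` of `U` -/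
def yv (U : Matrix ι κ ℝ) (x : κ → ℝ) (i : ι) : ℝ := 1 - ∑ a, U i a * x a

/-- the open polytope `{y > 0}` -/
def Pol (U : Matrix ι κ ℝ) : Set (κ → ℝ) := {x | ∀ i, 0 < yv U x i}

end generic

/-- index set of the facets, `n = d + K` -/
abbrev Ix (d K : ℕ) := Fin d ⊕ Fin K

/-- `Φ` = orthonormal basis (columns) of the orthogonal complement of the column space of `U`. -/
def IsFrame {d K : ℕ} (U : Matrix (Ix d K) (Fin d) ℝ) (Φ : Matrix (Ix d K) (Fin K) ℝ) : Prop :=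
  Φᵀ * Φ = 1 ∧ Φᵀ * U = 0 ∧ (Uᵀ * U).det ≠ 0

/-- unit rows -/
def UnitRows {d K : ℕ} (U : Matrix (Ix d K) (Fin d) ℝ) : Prop := ∀ i, ∑ a, U i a ^ 2 = 1

/-- the change of variables `(x,f) ↦ (y_i(x) e^{s_i})` -/
noncomputable def Th {d K : ℕ} (U : Matrix (Ix d K) (Fin d) ℝ) (Φ : Matrix (Ix d K) (Fin K) ℝ)
    (b : Ix d K → ℝ) (z : Ix d K → ℝ) : Ix d K → ℝ :=
  fun i => yv U (fun a => z (Sum.inl a)) i * Real.exp (sl Φ b (fun a => z (Sum.inr a)) i)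

/-- its domain -/
def Dom {d K : ℕ} (U : Matrix (Ix d K) (Fin d) ℝ) : Set (Ix d K → ℝ) :=
  {z | (fun a => z (Sum.inl a)) ∈ Pol U}

/-- the constants of the scalar inequality; `p` stands for `mu'(m)` -/
noncomputable def al (m p : ℝ) : ℝ := mu m - 1/2 - m * p
noncomputable def Ac (m p c : ℝ) : ℝ := c / 2 + p + (c - 1/m)^2 / 4

/-- The optimal value: `(d/n)^{d/2} (n/K)^{n-K/2} / Γ(n/K)^K`, `n = d + K`. -/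
noncomputable def Vopt (d K : ℕ) : ℝ :=
  ((d:ℝ) / (d + K)) ^ ((d:ℝ) / 2) * (((d:ℝ) + K) / K) ^ ((d:ℝ) + K / 2)
    / Real.Gamma (((d:ℝ) + K) / K) ^ K

/-! ### Blocks: the Binet function -/

/-- Stirling for real arguments. -/
def Stmt_GLIM : Prop := ∀ u : ℝ, 0 < u →
  Filter.Tendsto (fun N : ℕ => mu (u + N)) Filter.atTop (nhds 0)

/-- bounds -/
def Stmt_GM1 : Prop := ∀ u : ℝ, 0 < u →
  0 ≤ mu u ∧ mu u ≤ 1 / (12 * u) ∧ 2 * mu u ≤ Real.log (1 + 1 / (5 * u))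

/-- `mu` and `1/(12u) - mu` are convex -/
def Stmt_GM2 : Prop := ConvexOn ℝ (Set.Ioi 0) mu ∧
  ConvexOn ℝ (Set.Ioi 0) (fun u => 1 / (12 * u) - mu u)

/-- the tangent of `mu` at `m` -/
def Tang (m p : ℝ) : Prop := p ≤ 0 ∧ -(1 / (12 * m^2)) ≤ p ∧ ∀ u : ℝ, 0 < u →
  0 ≤ mu u - mu m - p * (u - m) ∧
  mu u - mu m - p * (u - m) ≤ (u - m)^2 / (12 * u * m^2)

def Stmt_GM3 : Prop := ∀ m : ℝ, 0 < m → ∃ p : ℝ, Tang m p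

/-- `g r = r mu(1/r)` is convex -/
def Stmt_GCV : Prop := ConvexOn ℝ (Set.Ioi 0) g

/-- the scalar inequality -/
def Stmt_SCA : Prop := ∀ m p : ℝ, 1 ≤ m → Tang m p →
  (∀ c e : ℝ, 0 < c → c ≤ 1 → 0 < e →
    Real.log e / 2 + mu (e / c) ≤ al m p + Ac m p c / c * e) ∧
  (∀ e : ℝ, 0 < e → e ≠ 1 →
    Real.log e / 2 + mu (e * m) < al m p + Ac m p (1/m) * m * e)

/-- `(1-c) log(1-c)` is more convex than `c²/2` -/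
def Stmt_RHO : Prop := ∀ c c' : ℝ, 0 ≤ c → c < 1 → 0 ≤ c' → c' < 1 → c ≠ c' →
  (1 - c') * Real.log (1 - c') - (Real.log (1 - c') + 1) * (c - c') + (c - c')^2 / 2
    < (1 - c) * Real.log (1 - c)

/-- `∫ exp((s-e^s)/r) ds = Γ(1/r) r^{1/r}` -/
def Stmt_ZB : Prop := ∀ r : ℝ, 0 < r →
  Integrable (fun s : ℝ => Real.exp ((s - Real.exp s) / r)) ∧
  ∫ s : ℝ, Real.exp ((s - Real.exp s) / r) = Real.Gamma (1/r) * r ^ (1/r)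

/-- monotone transport on the line -/
def Stmt_MTR : Prop := ∀ f h : ℝ → ℝ, Continuous f → Continuous h → (∀ s, 0 < f s) → (∀ s, 0 < h s) →
  Integrable f → Integrable h → ∫ s, f s = ∫ s, h s →
  ∃ τ : ℝ → ℝ, ∀ s, HasDerivAt τ (f s / h (τ s)) s

/-- monotone transport to the Gaussian of variance `r` -/
def Stmt_TRANS : Prop := ∀ r : ℝ, 0 < r → ∃ τ τ' : ℝ → ℝ,
  (∀ s, HasDerivAt τ (τ' s) s) ∧ (∀ s, 0 < τ' s) ∧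
  ∀ s, Real.exp (s - Real.exp s) = Real.exp (-1 + g r) * (τ' s) ^ r * Real.exp (-(τ s)^2 / 2)

/-! ### Blocks: linear algebra -/

/-- determinant inequality of Ball and Barthe -/
def Stmt_DETI : Prop := ∀ (ι : Type) [Fintype ι] [DecidableEq ι] (K : ℕ)
  (Ψ : Matrix ι (Fin K) ℝ) (y l : ι → ℝ),
  (∀ i, 0 ≤ y i) → (∀ i, 0 < l i) → Dm Ψ y = 1 →
  ∏ i, (l i) ^ (y i * cn Ψ i) ≤ (Dm Ψ (fun i => y i * l i)).det

/-- the spectral step -/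
def Stmt_SPEC : Prop := ∀ (ι : Type) [Fintype ι] [DecidableEq ι] (K : ℕ)
  (Φ : Matrix ι (Fin K) ℝ) (y A : ι → ℝ) (α : ℝ),
  (∀ i, 0 < y i) → (Dm Φ y).PosDef →
  (∀ i, cn Φ i = 0 → 0 ≤ A i) →
  (∀ i, 0 < cn Φ i → ∀ e : ℝ, 0 < e → Real.log e / 2 + mu (e / cn Φ i) ≤ α + A i / cn Φ i * e) →
  Real.log (Dm Φ y).det / 2 + ∑ i, y i * g (qf Φ (Dm Φ y)⁻¹ i) ≤ K * α + ∑ i, A i * y i

/-- strict version -/
def Stmt_SPECS : Prop := ∀ (ι : Type) [Fintype ι] [DecidableEq ι] (K : ℕ)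
  (Φ : Matrix ι (Fin K) ℝ) (y A : ι → ℝ) (α : ℝ),
  (∀ i, 0 < y i) → (Dm Φ y).PosDef → Dm Φ y ≠ 1 →
  (∀ i, 0 < cn Φ i) →
  (∀ i, ∀ e : ℝ, 0 < e → Real.log e / 2 + mu (e / cn Φ i) ≤ α + A i / cn Φ i * e) →
  (∀ i, ∀ e : ℝ, 0 < e → e ≠ 1 → Real.log e / 2 + mu (e / cn Φ i) < α + A i / cn Φ i * e) →
  Real.log (Dm Φ y).det / 2 + ∑ i, y i * g (qf Φ (Dm Φ y)⁻¹ i) < K * α + ∑ i, A i * y i

/-- `b` orthonormal vectors in the orthogonal complement of `a` vectors of `ℝ^{a+b}` -/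
def Stmt_ONC : Prop := ∀ (ι : Type) [Fintype ι] [DecidableEq ι] (a b : ℕ), Fintype.card ι = a + b →
  ∀ (A : Matrix ι (Fin a) ℝ), ∃ B : Matrix ι (Fin b) ℝ, Bᵀ * B = 1 ∧ Bᵀ * A = 0

/-- the projections -/
def Stmt_FRI : Prop := ∀ (d K : ℕ) (U : Matrix (Ix d K) (Fin d) ℝ) (Φ : Matrix (Ix d K) (Fin K) ℝ),
  IsFrame U Φ →
  Φ * Φᵀ + U * (Uᵀ * U)⁻¹ * Uᵀ = 1 ∧ (Uᵀ * U).PosDef ∧
  (∑ i, cn Φ i = K) ∧ (∀ i, 0 ≤ cn Φ i) ∧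
  (UnitRows U → ∀ i, cn Φ i < 1 ∧ cn Φ i = 1 - (U * (Uᵀ * U)⁻¹ * Uᵀ) i i)

/-- determinant of the frame operator -/
def Stmt_DETS : Prop := ∀ (d K : ℕ) (U : Matrix (Ix d K) (Fin d) ℝ), UnitRows U →
  (Uᵀ * U).det ≠ 0 →
  ∑ i, (U * (Uᵀ * U)⁻¹ * Uᵀ) i i * Real.log ((U * (Uᵀ * U)⁻¹ * Uᵀ) i i)
    ≤ -Real.log (Uᵀ * U).det

/-- AM-GM with its equality case -/
def Stmt_AMGM : Prop := ∀ (d K : ℕ) (U : Matrix (Ix d K) (Fin d) ℝ), 1 ≤ d → UnitRows U →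
  (Uᵀ * U).det = (((d:ℝ) + K) / d) ^ d → Uᵀ * U = (((d:ℝ) + K) / d) • (1 : Matrix (Fin d) (Fin d) ℝ)

/-- positive definiteness of `D_y` -/
def Stmt_PDY : Prop := ∀ (d K : ℕ) (Φ : Matrix (Ix d K) (Fin K) ℝ) (y : Ix d K → ℝ),
  Φᵀ * Φ = 1 → (∀ i, 0 < y i) → (Dm Φ y).PosDef

/-- choice of the tilt -/
def Stmt_LINB : Prop := ∀ (d K : ℕ) (U : Matrix (Ix d K) (Fin d) ℝ) (a : Ix d K → ℝ),
  (Uᵀ * U).det ≠ 0 → ∃ b : Ix d K → ℝ,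
  ∀ x : Fin d → ℝ, ∑ i, b i * (yv U x i - 1) = ∑ i, a i * (yv U x i - 1)

/-! ### Blocks: Brascamp-Lieb -/

/-- isotropic -/
def Stmt_BLI : Prop := ∀ (ι : Type) [Fintype ι] [DecidableEq ι] (K : ℕ)
  (Ψ : Matrix ι (Fin K) ℝ) (y b : ι → ℝ),
  (∀ i, 0 < y i) → Dm Ψ y = 1 →
  ∫⁻ f : Fin K → ℝ, ENNReal.ofReal (Real.exp (∑ i, y i * (sl Ψ b f i - Real.exp (sl Ψ b f i))))
    ≤ ENNReal.ofReal (Real.exp ((K:ℝ) / 2 * Real.log (2 * Real.pi)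
        + ∑ i, y i * (-1 + g (cn Ψ i))))

/-- general -/
def Stmt_BLG : Prop := ∀ (ι : Type) [Fintype ι] [DecidableEq ι] (K : ℕ)
  (Φ : Matrix ι (Fin K) ℝ) (y b : ι → ℝ),
  (∀ i, 0 < y i) → (Dm Φ y).PosDef →
  ∫⁻ f : Fin K → ℝ, ENNReal.ofReal (Real.exp (∑ i, y i * (sl Φ b f i - Real.exp (sl Φ b f i))))
    ≤ ENNReal.ofReal (Real.exp ((K:ℝ) / 2 * Real.log (2 * Real.pi)
        - Real.log (Dm Φ y).det / 2
        + ∑ i, y i * (-1 + g (qf Φ (Dm Φ y)⁻¹ i))))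

/-! ### Blocks: change of variables -/

def Stmt_CVI : Prop := ∀ (d K : ℕ) (U : Matrix (Ix d K) (Fin d) ℝ) (Φ : Matrix (Ix d K) (Fin K) ℝ)
  (b : Ix d K → ℝ), IsFrame U Φ → Set.InjOn (Th U Φ b) (Dom U)

def Stmt_CVS : Prop := ∀ (d K : ℕ) (U : Matrix (Ix d K) (Fin d) ℝ) (Φ : Matrix (Ix d K) (Fin K) ℝ)
  (b : Ix d K → ℝ), IsFrame U Φ → ∀ w : Ix d K → ℝ, (∀ i, 0 < w i) → ∃ z ∈ Dom U, Th U Φ b z = w

def Stmt_CVD : Prop := ∀ (d K : ℕ) (U : Matrix (Ix d K) (Fin d) ℝ) (Φ : Matrix (Ix d K) (Fin K) ℝ)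
  (b : Ix d K → ℝ), IsFrame U Φ → ∀ z : Ix d K → ℝ, z ∈ Dom U →
  ∃ L : (Ix d K → ℝ) →L[ℝ] (Ix d K → ℝ), HasFDerivAt (Th U Φ b) L z ∧
    |L.det| = Real.exp (∑ i, sl Φ b (fun a => z (Sum.inr a)) i) * Real.sqrt (Uᵀ * U).det *
      (Dm Φ (yv U (fun a => z (Sum.inl a)))).det

/-- the integral identity -/
def Stmt_CVT : Prop := ∀ (d K : ℕ) (U : Matrix (Ix d K) (Fin d) ℝ) (Φ : Matrix (Ix d K) (Fin K) ℝ)
  (b : Ix d K → ℝ), IsFrame U Φ →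
  (∫⁻ x in Pol U, (ENNReal.ofReal (Real.sqrt (Uᵀ * U).det * (Dm Φ (yv U x)).det) *
    (∫⁻ f : Fin K → ℝ,
      ENNReal.ofReal (Real.exp (∑ i, (sl Φ b f i - yv U x i * Real.exp (sl Φ b f i))))))) = 1

/-! ### Blocks: main bound -/

/-- the exponent of the bound -/
noncomputable def Cex {d K : ℕ} (U : Matrix (Ix d K) (Fin d) ℝ) (Φ : Matrix (Ix d K) (Fin K) ℝ) : ℝ :=
  Real.log (Uᵀ * U).det / 2 + (K:ℝ) / 2 * Real.log (2 * Real.pi) - ((d:ℝ) + K)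
    + K * mu (((d:ℝ) + K) / K) + (∑ i, (cn Φ i - K / ((d:ℝ) + K))^2) / 4

def Stmt_MAIN1 : Prop := ∀ (d K : ℕ) (U : Matrix (Ix d K) (Fin d) ℝ) (Φ : Matrix (Ix d K) (Fin K) ℝ),
  1 ≤ d → 1 ≤ K → IsFrame U Φ → UnitRows U →
  1 ≤ volume (Pol U) * ENNReal.ofReal (Real.exp (Cex U Φ))

def Stmt_MAIN1S : Prop := ∀ (d K : ℕ) (U : Matrix (Ix d K) (Fin d) ℝ) (Φ : Matrix (Ix d K) (Fin K) ℝ),
  1 ≤ d → 1 ≤ K → IsFrame U Φ → UnitRows U →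
  (∀ i, cn Φ i = K / ((d:ℝ) + K)) → (∃ x ∈ Pol U, Dm Φ (yv U x) ≠ 1) →
  1 < volume (Pol U) * ENNReal.ofReal (Real.exp (Cex U Φ))

/-- the value `Vopt` in terms of `mu` -/
def Stmt_VAL : Prop := ∀ d K : ℕ, 1 ≤ d → 1 ≤ K → 0 < Vopt d K ∧
  Real.log (Vopt d K) = ((d:ℝ) + K) - (K:ℝ) / 2 * Real.log (2 * Real.pi)
    - K * mu (((d:ℝ) + K) / K) + (d:ℝ) / 2 * Real.log ((d:ℝ) / ((d:ℝ) + K))

/-- degenerate case -/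
def Stmt_DEGEN : Prop := ∀ (d K : ℕ) (U : Matrix (Ix d K) (Fin d) ℝ),
  (Uᵀ * U).det = 0 → volume (Pol U) = ⊤

/-- two unit vectors of one class have inner product `-K/d`, of different classes `0` -/
def Pat {d K : ℕ} (U : Matrix (Ix d K) (Fin d) ℝ) : Prop :=
  ∃ p : Ix d K → Fin K, (∀ i j, i ≠ j → p i = p j → (U * Uᵀ) i j = -(K:ℝ) / d) ∧
    (∀ i j, p i ≠ p j → (U * Uᵀ) i j = 0)

/-- lower bound and equality -/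
def Stmt_LOWER : Prop := ∀ (d K : ℕ) (U : Matrix (Ix d K) (Fin d) ℝ), 1 ≤ d → 1 ≤ K → UnitRows U →
  ENNReal.ofReal (Vopt d K) ≤ volume (Pol U) ∧
  (volume (Pol U) = ENNReal.ofReal (Vopt d K) → Pat U)

/-- the pattern of an equality case -/
def Stmt_EQP : Prop := ∀ (d K : ℕ) (U : Matrix (Ix d K) (Fin d) ℝ) (Φ : Matrix (Ix d K) (Fin K) ℝ),
  1 ≤ d → 1 ≤ K → IsFrame U Φ → (∀ i, cn Φ i = K / ((d:ℝ) + K)) →
  (∀ x ∈ Pol U, Dm Φ (yv U x) = 1) →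
  ∃ p : Ix d K → Fin K, ∀ i j, (Φ * Φᵀ) i j = if p i = p j then K / ((d:ℝ) + K) else 0

/-- class sizes -/
def Stmt_SIZ : Prop := ∀ (d K : ℕ) (U : Matrix (Ix d K) (Fin d) ℝ) (p : Ix d K → Fin K),
  1 ≤ d → 1 ≤ K → UnitRows U →
  (∀ i j, i ≠ j → p i = p j → (U * Uᵀ) i j = -(K:ℝ) / d) →
  (∀ i j, p i ≠ p j → (U * Uᵀ) i j = 0) →
  ∀ a : Fin K, (((Finset.univ.filter (fun i => p i = a)).card : ℝ)) * K = (d:ℝ) + K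

/-- volume of the product of simplices -/
def Stmt_EXV : Prop := ∀ (d K : ℕ) (U : Matrix (Ix d K) (Fin d) ℝ), 1 ≤ d → 1 ≤ K → UnitRows U →
  Pat U → volume (Pol U) = ENNReal.ofReal (Vopt d K)

/-- existence -/
def Stmt_EXI : Prop := ∀ (d K : ℕ), 1 ≤ d → 1 ≤ K → K ∣ d →
  ∃ U : Matrix (Ix d K) (Fin d) ℝ, UnitRows U ∧ Pat U

/-- the matrix of a family of vectors -/
def matU {d K : ℕ} (u : Fin (d + K) → EuclideanSpace ℝ (Fin d)) : Matrix (Ix d K) (Fin d) ℝ :=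
  fun i a => u (finSumFinEquiv i) a

/-- transfer to Euclidean space -/
def Stmt_TRF : Prop := ∀ (d K : ℕ) (u : Fin (d + K) → EuclideanSpace ℝ (Fin d)), (∀ i, ‖u i‖ = 1) →
  volume (Pool.Agent.Work.MP_1c7b0d_gt.circ u) = volume (Pol (matU u)) ∧ UnitRows (matU u)

/-- uniqueness up to isometry -/
def Stmt_ISO : Prop := ∀ (d K : ℕ) (u u' : Fin (d + K) → EuclideanSpace ℝ (Fin d)),
  1 ≤ d → 1 ≤ K → (∀ i, ‖u i‖ = 1) → (∀ i, ‖u' i‖ = 1) → Pat (matU u) → Pat (matU u') →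
  ∃ φ : EuclideanSpace ℝ (Fin d) ≃ₗᵢ[ℝ] EuclideanSpace ℝ (Fin d),
    φ '' Pool.Agent.Work.MP_1c7b0d_gt.circ u = Pool.Agent.Work.MP_1c7b0d_gt.circ u'

/-- the final theorem -/
def Stmt_TOP : Prop := ∀ (d K : ℕ), 1 ≤ d → 1 ≤ K →
  (∀ u : Fin (d + K) → EuclideanSpace ℝ (Fin d), (∀ i, ‖u i‖ = 1) →
    ENNReal.ofReal (Vopt d K) ≤ volume (Pool.Agent.Work.MP_1c7b0d_gt.circ u) ∧
    (volume (Pool.Agent.Work.MP_1c7b0d_gt.circ u) = ENNReal.ofReal (Vopt d K) ↔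
      ∃ p : Fin (d + K) → Fin K,
        (∀ i j, i ≠ j → p i = p j → inner ℝ (u i) (u j) = -(K:ℝ) / d) ∧
        (∀ i j, p i ≠ p j → inner ℝ (u i) (u j) = 0))) ∧
  (K ∣ d → Vopt d K = Pool.Agent.Work.MP_1c7b0d_gt.sv (d / K) ^ K ∧
    ∃ u : Fin (d + K) → EuclideanSpace ℝ (Fin d), (∀ i, ‖u i‖ = 1) ∧
      volume (Pool.Agent.Work.MP_1c7b0d_gt.circ u) = ENNReal.ofReal (Vopt d K)) ∧
  (∀ u u' : Fin (d + K) → EuclideanSpace ℝ (Fin d), (∀ i, ‖u i‖ = 1) → (∀ i, ‖u' i‖ = 1) →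
    volume (Pool.Agent.Work.MP_1c7b0d_gt.circ u) = ENNReal.ofReal (Vopt d K) →
    volume (Pool.Agent.Work.MP_1c7b0d_gt.circ u') = ENNReal.ofReal (Vopt d K) →
    ∃ φ : EuclideanSpace ℝ (Fin d) ≃ₗᵢ[ℝ] EuclideanSpace ℝ (Fin d),
      φ '' Pool.Agent.Work.MP_1c7b0d_gt.circ u = Pool.Agent.Work.MP_1c7b0d_gt.circ u')

/-- `Vopt` for `d = K q` -/
def Stmt_VDIV : Prop := ∀ (K q : ℕ), 1 ≤ K → 1 ≤ q →
  Vopt (K * q) K = Pool.Agent.Work.MP_1c7b0d_gt.sv q ^ K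

end Pool.LH60
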