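import Mathlib
import Pool.Agent.Work.MP_1c7b0d_lh60.Interface

set_option autoImplicit false

namespace Pool.LH60

theorem GCV_thm (hGM2 : Stmt_GM2) : Stmt_GCV := by
  have hmu := hGM2.1
  refine ⟨convex_Ioi 0, ?_⟩
  intro s hs t ht a b ha hb hab
  have hs' : 0 < s := hs
  have ht' : 0 < t := ht
  simp only [smul_eq_mul]
  have hr : 0 < a * s + b * t := by
    rcases eq_or_lt_of_le ha with h | h
    · have hb1 : b = 1 := by rw [← h] at hab; linarith
      rw [← h, hb1]; linarith
    · have h1 : 0 < a * s := mul_pos h hs'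
      have h2 : 0 ≤ b * t := mul_nonneg hb ht'.le
      linarith
  set r := a * s + b * t with hrdef
  have h := hmu.2 (show (1 / s) ∈ Set.Ioi (0:ℝ) from one_div_pos.mpr hs')
    (show (1 / t) ∈ Set.Ioi (0:ℝ) from one_div_pos.mpr ht')
    (show 0 ≤ a * s / r by positivity) (show 0 ≤ b * t / r by positivity)
    (show a * s / r + b * t / r = 1 by rw [← add_div]; exact div_self hr.ne')
  simp only [smul_eq_mul] at h
  have e : a * s / r * (1 / s) + b * t / r * (1 / t) = 1 / r := by
    have h1 : a * s / r * (1 / s) = a / r := by field_simp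
    have h2 : b * t / r * (1 / t) = b / r := by field_simp
    rw [h1, h2, ← add_div, hab]
  rw [e] at h
  have h3 := mul_le_mul_of_nonneg_left h hr.le
  have e2 : r * (a * s / r * mu (1 / s) + b * t / r * mu (1 / t))
      = a * (s * mu (1 / s)) + b * (t * mu (1 / t)) := by
    field_simp
  rw [e2] at h3
  unfold g
  exact h3

end Pool.LH60
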