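import Pool.Agent.Work.MP_1c7b0d_lh60.Interface

/-! Block GM1 (helper49): bounds for Binet's function. -/

open Filter Topology
open scoped BigOperators

namespace Pool.LH60

namespace GM1

theorem mu_sub (u : ℝ) (hu : 0 < u) :
    mu u - mu (u + 1) = (u + 1 / 2) * Real.log (1 + u⁻¹) - 1 := by
  unfold mu
  rw [Real.Gamma_add_one hu.ne', Real.log_mul hu.ne' (Real.Gamma_pos_of_pos hu).ne']
  have h1 : 1 + u⁻¹ = (u + 1) / u := by field_simp
  rw [h1, Real.log_div (by positivity) hu.ne']
  ring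

theorem nonneg_of_step (F : ℝ → ℝ) (h : ∀ u, 0 < u → F (u + 1) ≤ F u)
    (hl : ∀ u, 0 < u → Tendsto (fun N : ℕ => F (u + N)) atTop (nhds 0)) (u : ℝ) (hu : 0 < u) :
    0 ≤ F u := by
  have h2 : ∀ N : ℕ, F (u + N) ≤ F u := by
    intro N
    induction N with
    | zero => simp
    | succ n ih =>
      have := h (u + n) (by positivity)
      push_cast
      rw [← add_assoc]
      linarith
  exact le_of_tendsto' (hl u hu) h2

/-- lower bound of the series of the logarithm, four terms -/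
theorem log_lower (u : ℝ) (hu : 0 < u) :
    2 * (1 / (2 * u + 1)) + 2 / 3 * (1 / (2 * u + 1)) ^ 3 + 2 / 5 * (1 / (2 * u + 1)) ^ 5
      + 2 / 7 * (1 / (2 * u + 1)) ^ 7 ≤ Real.log (1 + u⁻¹) := by
  have h := Real.hasSum_log_one_add_inv hu
  have h2 := sum_le_hasSum (Finset.range 4) (fun k _ => by positivity) h
  refine le_trans (le_of_eq ?_) h2
  simp only [Finset.sum_range_succ, Finset.sum_range_zero]
  push_cast
  ring

theorem log_upper (u : ℝ) (hu : 0 < u) :
    (u + 1 / 2) * Real.log (1 + u⁻¹) - 1 ≤ 1 / (12 * u * (u + 1)) := by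
  set v : ℝ := 1 / (2 * u + 1) with hv
  have hv0 : 0 < v := by positivity
  have hv1 : v < 1 := by
    rw [hv, div_lt_one (by positivity)]; linarith
  have h := Real.hasSum_log_one_add_inv hu
  have hg : HasSum (fun k : ℕ => 2 / 3 * v * (v ^ 2) ^ k) (2 / 3 * v * (1 - v ^ 2)⁻¹) :=
    (hasSum_geometric_of_lt_one (by positivity) (by nlinarith)).mul_left _
  have hs : HasSum (fun k : ℕ => if k = 0 then 4 / 3 * v else 0) (4 / 3 * v) :=
    hasSum_ite_eq 0 (4 / 3 * v)
  have hle := hasSum_le (fun k => ?_) h (hg.add hs)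
  · have h3 : (u + 1 / 2) * (2 / 3 * v * (1 - v ^ 2)⁻¹ + 4 / 3 * v) = 1 + 1 / (12 * u * (u + 1)) := by
      have h4 : 1 - v ^ 2 = 4 * u * (u + 1) / (2 * u + 1) ^ 2 := by
        rw [hv]; field_simp; ring
      rw [h4, hv]
      field_simp
      ring
    have h5 : (u + 1 / 2) * Real.log (1 + u⁻¹) ≤ (u + 1 / 2) * (2 / 3 * v * (1 - v ^ 2)⁻¹ + 4 / 3 * v) :=
      mul_le_mul_of_nonneg_left hle (by positivity)
    linarith
  · rcases Nat.eq_zero_or_pos k with rfl | hk
    · simp only [hv]; norm_num; apply le_of_eq; ring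
    · have hk1 : (1 : ℝ) ≤ k := by exact_mod_cast hk
      have h6 : (2 : ℝ) * (1 / (2 * k + 1)) ≤ 2 / 3 := by
        rw [mul_one_div, div_le_div_iff₀ (by positivity) (by norm_num)]
        nlinarith
      have h7 : v ^ (2 * k + 1) = v * (v ^ 2) ^ k := by rw [pow_succ, pow_mul]; ring
      have h8 : (0:ℝ) ≤ v ^ (2 * k + 1) := by positivity
      have h9 := mul_le_mul_of_nonneg_right h6 h8
      simp only [hk.ne', if_false, add_zero]
      rw [← hv]
      calc (2 : ℝ) * (1 / (2 * k + 1)) * v ^ (2 * k + 1) ≤ 2 / 3 * v ^ (2 * k + 1) := h9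
        _ = 2 / 3 * v * (v ^ 2) ^ k := by rw [h7]; ring

theorem log_lower1 (u : ℝ) (hu : 0 < u) : 0 ≤ (u + 1 / 2) * Real.log (1 + u⁻¹) - 1 := by
  have h := log_lower u hu
  have h1 : 2 * (1 / (2 * u + 1)) ≤ Real.log (1 + u⁻¹) := by
    refine le_trans ?_ h
    have : 0 < 1 / (2 * u + 1) := by positivity
    nlinarith [pow_pos this 3, pow_pos this 5, pow_pos this 7]
  have h2 : (u + 1 / 2) * (2 * (1 / (2 * u + 1))) = 1 := by field_simp
  nlinarith [mul_le_mul_of_nonneg_left h1 (by positivity : (0:ℝ) ≤ u + 1 / 2)]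

/-- the difference function of the third bound -/
noncomputable def psi (u : ℝ) : ℝ :=
  (Real.log (5 * u + 1) + Real.log (u + 1) - Real.log u - Real.log (5 * u + 6)) / 2
    - ((u + 1 / 2) * (Real.log (u + 1) - Real.log u) - 1)

theorem log_eq (u : ℝ) (hu : 0 < u) : Real.log (1 + u⁻¹) = Real.log (u + 1) - Real.log u := by
  have h1 : 1 + u⁻¹ = (u + 1) / u := by field_simp
  rw [h1, Real.log_div (by positivity) hu.ne']

theorem psi_deriv (u : ℝ) (hu : 0 < u) :
    HasDerivAt psi ((5 / (5 * u + 1) + 1 / (u + 1) - 1 / u - 5 / (5 * u + 6)) / 2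
      - ((Real.log (u + 1) - Real.log u) + (u + 1 / 2) * (1 / (u + 1) - 1 / u))) u := by
  have a1 : HasDerivAt (fun u : ℝ => 5 * u + 1) 5 u := by
    simpa using ((hasDerivAt_id u).const_mul 5).add_const 1
  have a2 : HasDerivAt (fun u : ℝ => u + 1) 1 u := by
    simpa using (hasDerivAt_id u).add_const 1
  have a3 : HasDerivAt (fun u : ℝ => 5 * u + 6) 5 u := by
    simpa using ((hasDerivAt_id u).const_mul 5).add_const 6
  have a4 : HasDerivAt (fun u : ℝ => u + 1 / 2) 1 u := by
    simpa using (hasDerivAt_id u).add_const (1 / 2)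
  have b1 := a1.log (by positivity)
  have b2 := a2.log (by positivity)
  have b3 := a3.log (by positivity)
  have b0 := (hasDerivAt_id u).log hu.ne'
  have c := ((((b1.add b2).sub b0).sub b3).div_const 2).sub ((a4.mul (b2.sub b0)).sub_const 1)
  refine c.congr_deriv ?_
  simp only [id, Pi.sub_apply]
  ring

theorem psi_deriv_nonpos (u : ℝ) (hu : 0 < u) :
    (5 / (5 * u + 1) + 1 / (u + 1) - 1 / u - 5 / (5 * u + 6)) / 2
      - ((Real.log (u + 1) - Real.log u) + (u + 1 / 2) * (1 / (u + 1) - 1 / u)) ≤ 0 := by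
  have h := log_lower u hu
  rw [log_eq u hu] at h
  have key : (5 / (5 * u + 1) + 1 / (u + 1) - 1 / u - 5 / (5 * u + 6)) / 2
      - (u + 1 / 2) * (1 / (u + 1) - 1 / u) ≤ 2 * (1 / (2 * u + 1)) + 2 / 3 * (1 / (2 * u + 1)) ^ 3
        + 2 / 5 * (1 / (2 * u + 1)) ^ 5 + 2 / 7 * (1 / (2 * u + 1)) ^ 7 := by
    rw [← sub_nonneg]
    have e : 2 * (1 / (2 * u + 1)) + 2 / 3 * (1 / (2 * u + 1)) ^ 3
        + 2 / 5 * (1 / (2 * u + 1)) ^ 5 + 2 / 7 * (1 / (2 * u + 1)) ^ 7
        - ((5 / (5 * u + 1) + 1 / (u + 1) - 1 / u - 5 / (5 * u + 6)) / 2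
      - (u + 1 / 2) * (1 / (u + 1) - 1 / u))
      = (113 / 70 + 695 / 42 * u + 5356 / 105 * u ^ 2 + 11488 / 105 * u ^ 3 + 208 * u ^ 4
          + 928 / 3 * u ^ 5 + 832 / 3 * u ^ 6 + 320 / 3 * u ^ 7)
        / ((u + 1) * (5 * u + 1) * (5 * u + 6) * (2 * u + 1) ^ 7) := by
      field_simp
      ring
    rw [e]
    positivity
  linarith

theorem psi_anti {u w : ℝ} (hu : 0 < u) (h : u ≤ w) : psi w ≤ psi u := by
  have : AntitoneOn psi (Set.Ioi 0) := by
    apply antitoneOn_of_deriv_nonpos (convex_Ioi 0)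
    · intro x hx
      exact (psi_deriv x hx).continuousAt.continuousWithinAt
    · intro x hx
      rw [interior_Ioi] at hx
      exact (psi_deriv x hx).differentiableAt.differentiableWithinAt
    · intro x hx
      rw [interior_Ioi] at hx
      rw [(psi_deriv x hx).deriv]
      exact psi_deriv_nonpos x hx
  exact this hu (lt_of_lt_of_le hu h) h

theorem psi_lower (u : ℝ) (hu : 0 < u) : -(1 / (12 * u * (u + 1))) ≤ psi u := by
  have h := log_upper u hu
  rw [log_eq u hu] at h
  have h2 : 0 ≤ Real.log (5 * u + 1) + Real.log (u + 1) - Real.log u - Real.log (5 * u + 6) := by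
    have h3 : Real.log (u * (5 * u + 6)) ≤ Real.log ((5 * u + 1) * (u + 1)) :=
      Real.log_le_log (by positivity) (by nlinarith)
    rw [Real.log_mul (by positivity) (by positivity), Real.log_mul (by positivity) (by positivity)] at h3
    linarith
  unfold psi
  linarith

theorem psi_nonneg (u : ℝ) (hu : 0 < u) : 0 ≤ psi u := by
  have h1 : Tendsto (fun N : ℕ => -(1 / (12 * (u + N) * ((u + N) + 1)))) atTop (nhds 0) := by
    have h2 : Tendsto (fun N : ℕ => (u + (N : ℝ))) atTop atTop :=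
      tendsto_atTop_add_const_left _ _ tendsto_natCast_atTop_atTop
    have h3 : Tendsto (fun N : ℕ => (12 * (u + (N : ℝ)) * ((u + N) + 1))) atTop atTop := by
      apply Tendsto.atTop_mul_atTop₀
      · exact Tendsto.const_mul_atTop (by norm_num) h2
      · exact tendsto_atTop_add_const_right _ _ h2
    simpa using (tendsto_const_nhds.div_atTop h3 (a := (1:ℝ))).neg
  refine le_of_tendsto' h1 (fun N => ?_)
  have hN : 0 < u + (N : ℝ) := by positivity
  exact (psi_lower _ hN).trans (psi_anti hu (by linarith [(Nat.cast_nonneg N : (0:ℝ) ≤ N)]))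

end GM1

open GM1 in
theorem GM1_thm (hG : Stmt_GLIM) : Stmt_GM1 := by
  intro u hu
  have hinv : ∀ u : ℝ, 0 < u → ∀ c : ℝ, 0 < c →
      Tendsto (fun N : ℕ => 1 / (c * (u + N))) atTop (nhds 0) := by
    intro u hu c hc
    have h2 : Tendsto (fun N : ℕ => c * (u + (N : ℝ))) atTop atTop :=
      Tendsto.const_mul_atTop hc
        (tendsto_atTop_add_const_left _ _ tendsto_natCast_atTop_atTop)
    exact tendsto_const_nhds.div_atTop h2
  refine ⟨?_, ?_, ?_⟩
  · refine nonneg_of_step mu (fun u hu => ?_) (fun u hu => hG u hu) u hu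
    have := mu_sub u hu
    have := log_lower1 u hu
    linarith
  · have h := nonneg_of_step (fun u => 1 / (12 * u) - mu u) (fun u hu => ?_) (fun u hu => ?_) u hu
    · linarith
    · have h1 := mu_sub u hu
      have h2 := log_upper u hu
      have h3 : 1 / (12 * u) - 1 / (12 * (u + 1)) = 1 / (12 * u * (u + 1)) := by
        field_simp; ring
      linarith
    · simpa using (hinv u hu 12 (by norm_num)).sub (hG u hu)
  · have h := nonneg_of_step (fun u => Real.log (1 + 1 / (5 * u)) - 2 * mu u)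
      (fun u hu => ?_) (fun u hu => ?_) u hu
    · linarith
    · have h1 := mu_sub u hu
      rw [log_eq u hu] at h1
      have h2 := psi_nonneg u hu
      have h3 : ∀ x : ℝ, 0 < x → Real.log (1 + 1 / (5 * x)) = Real.log (5 * x + 1) - Real.log 5 - Real.log x := by
        intro x hx
        have : 1 + 1 / (5 * x) = (5 * x + 1) / (5 * x) := by field_simp
        rw [this, Real.log_div (by positivity) (by positivity), Real.log_mul (by norm_num) hx.ne']
        ring
      rw [h3 u hu, h3 (u + 1) (by positivity)]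
      have h4 : 5 * (u + 1) + 1 = 5 * u + 6 := by ring
      rw [h4]
      unfold psi at h2
      linarith
    · have h5 : Tendsto (fun N : ℕ => Real.log (1 + 1 / (5 * (u + N)))) atTop (nhds 0) := by
        have h6 : Tendsto (fun N : ℕ => 1 + 1 / (5 * (u + (N : ℝ)))) atTop (nhds (1 + 0)) :=
          (hinv u hu 5 (by norm_num)).const_add 1
        rw [add_zero] at h6
        have h7 := (Real.continuousAt_log (by norm_num : (1:ℝ) ≠ 0)).tendsto.comp h6
        rw [Real.log_one] at h7
        exact h7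
      simpa using h5.sub ((hG u hu).const_mul 2)

end Pool.LH60
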