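import Pool.Agent.Work.MP_1c7b0d_lh60.Interface

/-! Block GM2 (helper84): convexity of `mu` and of `1/(12u) - mu`. -/

open Filter Set

namespace Pool.LH60

/-- `mu u - mu (u+1)` -/
noncomputable def etaGM2 (u : ℝ) : ℝ := (u + 1/2) * (Real.log (u + 1) - Real.log u) - 1

theorem mu_sub_mu_add_one_GM2 (u : ℝ) (hu : 0 < u) : mu u - mu (u + 1) = etaGM2 u := by
  have h1 : Real.Gamma (u + 1) = u * Real.Gamma u := Real.Gamma_add_one hu.ne'
  have h2 : Real.log (Real.Gamma (u + 1)) = Real.log u + Real.log (Real.Gamma u) := by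
    rw [h1, Real.log_mul hu.ne' (Real.Gamma_pos_of_pos hu).ne']
  simp only [mu, etaGM2, h2]
  ring

theorem etaGM2_convexOn : ConvexOn ℝ (Ioi (0:ℝ)) etaGM2 := by
  have hint : interior (Ioi (0:ℝ)) = Ioi 0 := interior_Ioi
  refine convexOn_of_hasDerivWithinAt2_nonneg (convex_Ioi 0)
    (f' := fun u => (Real.log (u + 1) - Real.log u) + (u + 1/2) * (1 / (u + 1) - 1 / u))
    (f'' := fun u => 1 / (2 * u^2 * (u+1)^2)) ?_ ?_ ?_ ?_
  · intro u hu
    have hu' : (0:ℝ) < u := hu
    apply ContinuousAt.continuousWithinAt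
    unfold etaGM2
    have h1 : ContinuousAt Real.log u := Real.continuousAt_log hu'.ne'
    have h2 : ContinuousAt (fun u : ℝ => Real.log (u + 1)) u :=
      ContinuousAt.comp (g := Real.log) (f := fun u : ℝ => u + 1)
        (Real.continuousAt_log (by positivity)) (by fun_prop)
    fun_prop
  · intro u hu
    rw [hint] at hu
    have hu' : (0:ℝ) < u := hu
    apply HasDerivAt.hasDerivWithinAt
    have h1 : HasDerivAt Real.log (u⁻¹) u := Real.hasDerivAt_log hu'.ne'
    have h2 : HasDerivAt (fun u : ℝ => Real.log (u + 1)) (1 / (u + 1)) u :=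
      ((hasDerivAt_id u).add_const 1).log (by simp; positivity)
    have h3 : HasDerivAt (fun u : ℝ => u + 1/2) 1 u := (hasDerivAt_id u).add_const (1/2)
    have h4 := (h3.fun_mul (h2.fun_sub h1)).sub_const 1
    refine h4.congr_deriv ?_
    simp [one_div]
  · intro u hu
    rw [hint] at hu
    have hu' : (0:ℝ) < u := hu
    apply HasDerivAt.hasDerivWithinAt
    have h1 : HasDerivAt Real.log (u⁻¹) u := Real.hasDerivAt_log hu'.ne'
    have h2 : HasDerivAt (fun u : ℝ => Real.log (u + 1)) (1 / (u + 1)) u :=
      ((hasDerivAt_id u).add_const 1).log (by simp; positivity)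
    have h3 : HasDerivAt (fun u : ℝ => u + 1/2) 1 u := (hasDerivAt_id u).add_const (1/2)
    have h5 : HasDerivAt (fun u : ℝ => 1 / (u + 1)) (-1 / (u+1)^2) u := by
      have := ((hasDerivAt_id u).add_const (1:ℝ)).fun_inv (by simp; positivity)
      simpa [one_div] using this
    have h6 : HasDerivAt (fun u : ℝ => 1 / u) (-1 / u^2) u := by
      have := (hasDerivAt_id u).fun_inv hu'.ne'
      simpa [one_div] using this
    have h7 := (h2.fun_sub h1).fun_add (h3.fun_mul (h5.fun_sub h6))
    refine h7.congr_deriv ?_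
    have hne : u ≠ 0 := hu'.ne'
    have hne1 : u + 1 ≠ 0 := by positivity
    field_simp
    ring
  · intro u hu
    rw [hint] at hu
    have hu' : (0:ℝ) < u := hu
    positivity

theorem zetaGM2_convexOn : ConvexOn ℝ (Ioi (0:ℝ))
    (fun u => 1 / (12 * u) - 1 / (12 * (u + 1)) - etaGM2 u) := by
  have hint : interior (Ioi (0:ℝ)) = Ioi 0 := interior_Ioi
  refine convexOn_of_hasDerivWithinAt2_nonneg (convex_Ioi 0)
    (f' := fun u => -1 / (12 * u^2) + 1 / (12 * (u+1)^2) -
      ((Real.log (u + 1) - Real.log u) + (u + 1/2) * (1 / (u + 1) - 1 / u)))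
    (f'' := fun u => 1 / (6 * u^3 * (u+1)^3)) ?_ ?_ ?_ ?_
  · intro u hu
    have hu' : (0:ℝ) < u := hu
    apply ContinuousAt.continuousWithinAt
    unfold etaGM2
    have h1 : ContinuousAt Real.log u := Real.continuousAt_log hu'.ne'
    have h2 : ContinuousAt (fun u : ℝ => Real.log (u + 1)) u :=
      ContinuousAt.comp (g := Real.log) (f := fun u : ℝ => u + 1)
        (Real.continuousAt_log (by positivity)) (by fun_prop)
    have h3 : ContinuousAt (fun u : ℝ => 1 / (12 * u)) u := by
      apply ContinuousAt.div (by fun_prop) (by fun_prop) (by positivity)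
    have h4 : ContinuousAt (fun u : ℝ => 1 / (12 * (u + 1))) u := by
      apply ContinuousAt.div (by fun_prop) (by fun_prop) (by positivity)
    exact (h3.sub h4).sub (((by fun_prop : ContinuousAt (fun u : ℝ => u + 1/2) u).mul
      (h2.sub h1)).sub continuousAt_const)
  · intro u hu
    rw [hint] at hu
    have hu' : (0:ℝ) < u := hu
    apply HasDerivAt.hasDerivWithinAt
    have hne : u ≠ 0 := hu'.ne'
    have hne1 : u + 1 ≠ 0 := by positivity
    have h1 : HasDerivAt Real.log (u⁻¹) u := Real.hasDerivAt_log hu'.ne'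
    have h2 : HasDerivAt (fun u : ℝ => Real.log (u + 1)) (1 / (u + 1)) u :=
      ((hasDerivAt_id u).add_const 1).log (by simp; positivity)
    have h3 : HasDerivAt (fun u : ℝ => u + 1/2) 1 u := (hasDerivAt_id u).add_const (1/2)
    have h5 : HasDerivAt (fun u : ℝ => 1 / (12 * (u + 1))) (-1 / (12 * (u+1)^2)) u := by
      have := (((hasDerivAt_id u).add_const (1:ℝ)).const_mul 12).inv (by simp; positivity)
      refine (this.congr_deriv ?_).congr_of_eventuallyEq ?_
      · simp; field_simp
      · exact Eventually.of_forall (fun x => by simp [one_div])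
    have h6 : HasDerivAt (fun u : ℝ => 1 / (12 * u)) (-1 / (12 * u^2)) u := by
      have := ((hasDerivAt_id u).const_mul 12).inv (by simp; positivity)
      refine (this.congr_deriv ?_).congr_of_eventuallyEq ?_
      · simp; field_simp
      · exact Eventually.of_forall (fun x => by simp [one_div])
    have h4 := (h6.fun_sub h5).fun_sub ((h3.fun_mul (h2.fun_sub h1)).sub_const 1)
    refine h4.congr_deriv ?_
    field_simp
    ring
  · intro u hu
    rw [hint] at hu
    have hu' : (0:ℝ) < u := hu
    apply HasDerivAt.hasDerivWithinAt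
    have hne : u ≠ 0 := hu'.ne'
    have hne1 : u + 1 ≠ 0 := by positivity
    have h1 : HasDerivAt Real.log (u⁻¹) u := Real.hasDerivAt_log hu'.ne'
    have h2 : HasDerivAt (fun u : ℝ => Real.log (u + 1)) (1 / (u + 1)) u :=
      ((hasDerivAt_id u).add_const 1).log (by simp; positivity)
    have h3 : HasDerivAt (fun u : ℝ => u + 1/2) 1 u := (hasDerivAt_id u).add_const (1/2)
    have h5 : HasDerivAt (fun u : ℝ => 1 / (u + 1)) (-1 / (u+1)^2) u := by
      have := ((hasDerivAt_id u).add_const (1:ℝ)).fun_inv (by simp; positivity)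
      simpa [one_div] using this
    have h6 : HasDerivAt (fun u : ℝ => 1 / u) (-1 / u^2) u := by
      have := (hasDerivAt_id u).fun_inv hu'.ne'
      simpa [one_div] using this
    have h8 : HasDerivAt (fun u : ℝ => -1 / (12 * u^2)) (1 / (6 * u^3)) u := by
      have := (((hasDerivAt_id u).pow 2).const_mul 12).inv (by simp; positivity)
      refine (this.neg.congr_deriv ?_).congr_of_eventuallyEq ?_
      · simp; field_simp; norm_num
      · exact Eventually.of_forall (fun x => by simp [neg_div, one_div])
    have h9 : HasDerivAt (fun u : ℝ => 1 / (12 * (u+1)^2)) (-1 / (6 * (u+1)^3)) u := by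
      have := ((((hasDerivAt_id u).add_const (1:ℝ)).pow 2).const_mul 12).inv (by simp; positivity)
      refine (this.congr_deriv ?_).congr_of_eventuallyEq ?_
      · simp; field_simp; norm_num
      · exact Eventually.of_forall (fun x => by simp [one_div])
    have h7 := (h8.fun_add h9).fun_sub ((h2.fun_sub h1).fun_add (h3.fun_mul (h5.fun_sub h6)))
    refine h7.congr_deriv ?_
    field_simp
    ring
  · intro u hu
    rw [hint] at hu
    have hu' : (0:ℝ) < u := hu
    positivity

/-- convexity from the convexity of the difference and the limit -/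
theorem convexOn_of_tail_GM2 (F : ℝ → ℝ)
    (hd : ConvexOn ℝ (Ioi (0:ℝ)) (fun u => F u - F (u + 1)))
    (hl : ∀ u : ℝ, 0 < u → Tendsto (fun N : ℕ => F (u + N)) atTop (nhds 0)) :
    ConvexOn ℝ (Ioi (0:ℝ)) F := by
  refine ⟨convex_Ioi 0, ?_⟩
  intro x hx y hy a b ha hb hab
  have hx' : (0:ℝ) < x := hx
  have hy' : (0:ℝ) < y := hy
  have hz : 0 < a * x + b * y := by
    rcases ha.lt_or_eq with h | h
    · have : 0 ≤ b * y := by positivity
      have : 0 < a * x := by positivity
      linarith
    · have hb1 : b = 1 := by linarith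
      rw [← h, hb1]; linarith
  simp only [smul_eq_mul]
  set δ : ℕ → ℝ := fun N => a * F (x + N) + b * F (y + N) - F (a * x + b * y + N) with hδ
  have hanti : Antitone δ := by
    apply antitone_nat_of_succ_le
    intro N
    have hN : (0:ℝ) ≤ (N:ℝ) := Nat.cast_nonneg N
    have h := hd.2 (show x + N ∈ Ioi (0:ℝ) from by simp only [mem_Ioi]; linarith)
      (show y + N ∈ Ioi (0:ℝ) from by simp only [mem_Ioi]; linarith) ha hb hab
    simp only [smul_eq_mul] at h
    have e1 : a * (x + N) + b * (y + N) = a * x + b * y + N := by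
      have : a * (x + N) + b * (y + N) = a * x + b * y + (a + b) * N := by ring
      rw [this, hab, one_mul]
    rw [e1] at h
    simp only [hδ]
    push_cast
    have e2 : x + (N + 1) = x + N + 1 := by ring
    have e3 : y + (N + 1) = y + N + 1 := by ring
    have e4 : a * x + b * y + (N + 1) = a * x + b * y + N + 1 := by ring
    rw [e2, e3, e4]
    linarith
  have hlim : Tendsto δ atTop (nhds 0) := by
    have := (((hl x hx').const_mul a).add ((hl y hy').const_mul b)).sub (hl _ hz)
    simpa using this
  have := hanti.le_of_tendsto hlim 0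
  simp only [hδ, Nat.cast_zero, add_zero] at this
  linarith

theorem GM2_thm (hGLIM : Stmt_GLIM) : Stmt_GM2 := by
  constructor
  · apply convexOn_of_tail_GM2 mu _ hGLIM
    exact etaGM2_convexOn.congr (fun u hu => (mu_sub_mu_add_one_GM2 u hu).symm)
  · apply convexOn_of_tail_GM2
    · refine zetaGM2_convexOn.congr (fun u hu => ?_)
      have := mu_sub_mu_add_one_GM2 u hu
      simp only
      linarith
    · intro u hu
      have h1 : Tendsto (fun N : ℕ => 1 / (12 * (u + N))) atTop (nhds 0) := by
        have h2 : Tendsto (fun N : ℕ => 12 * (u + (N:ℝ))) atTop atTop :=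
          (tendsto_atTop_add_const_left _ u tendsto_natCast_atTop_atTop).const_mul_atTop (by norm_num)
        exact h2.const_div_atTop 1
      simpa using h1.sub (hGLIM u hu)

end Pool.LH60
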