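import Pool.Agent.Work.MP_1c7b0d_lh60.Interface

/-! Block GM3 (helper84): the tangent of `mu` at `m`. -/

open Filter Set

namespace Pool.LH60

theorem mu_differentiableAt_GM3 (m : ℝ) (hm : 0 < m) : DifferentiableAt ℝ mu m := by
  have h1 : DifferentiableAt ℝ Real.Gamma m := by
    apply Real.differentiableAt_Gamma
    intro k hk
    have : (0:ℝ) ≤ (k:ℝ) := Nat.cast_nonneg k
    linarith
  have h2 : DifferentiableAt ℝ (fun u => Real.log (Real.Gamma u)) m :=
    h1.log (Real.Gamma_pos_of_pos hm).ne'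
  have h3 : DifferentiableAt ℝ Real.log m := Real.differentiableAt_log hm.ne'
  unfold mu
  fun_prop

/-- a convex function on `(0,∞)` lies above its tangent -/
theorem tangent_le_GM3 (f : ℝ → ℝ) (hf : ConvexOn ℝ (Ioi (0:ℝ)) f) (m p : ℝ) (hm : 0 < m)
    (hp : HasDerivAt f p m) (u : ℝ) (hu : 0 < u) : 0 ≤ f u - f m - p * (u - m) := by
  rcases lt_trichotomy u m with h | h | h
  · have h1 := hf.slope_le_of_hasDerivAt (show u ∈ Ioi (0:ℝ) from hu) (show m ∈ Ioi (0:ℝ) from hm)
      h hp
    rw [slope_def_field, div_le_iff₀ (by linarith)] at h1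
    linarith
  · subst h; simp
  · have h1 := hf.le_slope_of_hasDerivAt (show m ∈ Ioi (0:ℝ) from hm) (show u ∈ Ioi (0:ℝ) from hu)
      h hp
    rw [slope_def_field, le_div_iff₀ (by linarith)] at h1
    linarith

/-- a tangent from above of a function between `0` and `1/(12u)` has slope `≤ 0` -/
theorem slope_nonpos_GM3 (f : ℝ → ℝ) (m p : ℝ) (hm : 0 < m)
    (h0 : ∀ u : ℝ, 0 < u → 0 ≤ f u) (h1 : ∀ u : ℝ, 0 < u → f u ≤ 1 / (12 * u))
    (ht : ∀ u : ℝ, 0 < u → 0 ≤ f u - f m - p * (u - m)) : p ≤ 0 := by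
  by_contra hp
  push Not at hp
  set u := m + (1 / (12 * m) + 1) / p with hu
  have hpos : 0 < (1 / (12 * m) + 1) / p := by positivity
  have hum : m < u := by linarith
  have hu0 : 0 < u := hm.trans hum
  have h2 := ht u hu0
  have h3 : p * (u - m) = 1 / (12 * m) + 1 := by
    rw [hu]; field_simp; ring
  have h4 := h0 m hm
  have h5 := h1 u hu0
  have h6 : 1 / (12 * u) ≤ 1 / (12 * m) := by
    apply one_div_le_one_div_of_le (by positivity)
    linarith
  linarith

theorem GM3_thm (hGM1 : Stmt_GM1) (hGM2 : Stmt_GM2) : Stmt_GM3 := by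
  intro m hm
  obtain ⟨hc1, hc2⟩ := hGM2
  have hd := (mu_differentiableAt_GM3 m hm).hasDerivAt
  set p := deriv mu m with hp
  have hchi : HasDerivAt (fun u => 1 / (12 * u) - mu u) (-(1 / (12 * m^2)) - p) m := by
    have h6 : HasDerivAt (fun u : ℝ => 1 / (12 * u)) (-(1 / (12 * m^2))) m := by
      have := ((hasDerivAt_id m).const_mul 12).inv (by simp; positivity)
      refine (this.congr_deriv ?_).congr_of_eventuallyEq ?_
      · simp; field_simp
      · exact Eventually.of_forall (fun x => by simp [one_div])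
    exact h6.fun_sub hd
  have ht1 := tangent_le_GM3 mu hc1 m p hm hd
  have ht2 := tangent_le_GM3 _ hc2 m _ hm hchi
  refine ⟨p, ?_, ?_, ?_⟩
  · exact slope_nonpos_GM3 mu m p hm (fun u hu => (hGM1 u hu).1) (fun u hu => (hGM1 u hu).2.1) ht1
  · have := slope_nonpos_GM3 (fun u => 1 / (12 * u) - mu u) m _ hm
      (fun u hu => by have := (hGM1 u hu).2.1; linarith)
      (fun u hu => by have := (hGM1 u hu).1; linarith) ht2
    linarith
  · intro u hu
    refine ⟨ht1 u hu, ?_⟩
    have h1 := ht2 u hu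

    have h2 : (u - m)^2 / (12 * u * m^2) = 1 / (12 * u) - 1 / (12 * m) + (u - m) / (12 * m^2) := by
      field_simp
      ring
    have h3 : (-(1 / (12 * m^2)) - p) * (u - m) = -((u - m) / (12 * m^2)) - p * (u - m) := by
      ring
    rw [h3] at h1
    rw [h2]
    linarith

end Pool.LH60
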