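import Pool.Agent.Work.MP_1c7b0d_lh60.Interface

namespace Pool.LH60

theorem LINB_thm : Stmt_LINB := by
  intro d K U a _
  exact ⟨a, fun x => rfl⟩

end Pool.LH60
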