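import Pool.Agent.Work.MP_1c7b0d_lh60.Interface

/-! Block ONC: orthonormal vectors in the complement of given vectors. -/

open MeasureTheory Matrix
open scoped BigOperators

namespace Pool.LH60

theorem ONC_thm : Stmt_ONC := by
  intro ι _ _ a b hcard A
  classical
  let c : Fin a → EuclideanSpace ℝ ι := fun l => WithLp.toLp 2 (fun i => A i l)
  let V : Submodule ℝ (EuclideanSpace ℝ ι) := Submodule.span ℝ (Set.range c)
  have hV : Module.finrank ℝ V ≤ a := by
    have := finrank_range_le_card (R := ℝ) c
    simpa [Set.finrank] using this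
  have hsum : Module.finrank ℝ V + Module.finrank ℝ Vᗮ = a + b := by
    rw [Submodule.finrank_add_finrank_orthogonal, finrank_euclideanSpace, hcard]
  have hb : b ≤ Module.finrank ℝ Vᗮ := by omega
  let e := stdOrthonormalBasis ℝ Vᗮ
  let B : Matrix ι (Fin b) ℝ := fun i k => (e (Fin.castLE hb k) : EuclideanSpace ℝ ι) i
  refine ⟨B, ?_, ?_⟩
  · ext k l
    have h1 : (Bᵀ * B) k l = inner ℝ (e (Fin.castLE hb k) : EuclideanSpace ℝ ι)
        (e (Fin.castLE hb l) : EuclideanSpace ℝ ι) := by
      rw [Matrix.mul_apply, PiLp.inner_apply]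
      refine Finset.sum_congr rfl fun i _ => ?_
      have h2 : (Bᵀ) k i = B i k := rfl
      rw [h2]
      simp [B, mul_comm]
    rw [h1, ← Submodule.coe_inner, orthonormal_iff_ite.mp e.orthonormal, Matrix.one_apply]
    by_cases hkl : k = l
    · simp [hkl]
    · have : Fin.castLE hb k ≠ Fin.castLE hb l := fun h => hkl (Fin.castLE_injective hb h)
      simp [hkl]
  · ext k l
    have h1 : (Bᵀ * A) k l = inner ℝ (c l) (e (Fin.castLE hb k) : EuclideanSpace ℝ ι) := by
      rw [Matrix.mul_apply, PiLp.inner_apply]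
      refine Finset.sum_congr rfl fun i _ => ?_
      have h2 : (Bᵀ) k i = B i k := rfl
      rw [h2]
      simp [B, c]
    rw [h1]
    have hmem : c l ∈ V := Submodule.subset_span ⟨l, rfl⟩
    exact (Submodule.mem_orthogonal V _).mp (e (Fin.castLE hb k)).2 _ hmem

end Pool.LH60
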