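import Pool.Agent.Work.MP_1c7b0d_lh60.Interface

open Matrix

namespace Pool.LH60

theorem PDY_thm : Stmt_PDY := by
  intro d K Φ y hΦ hy
  have h1 : (Matrix.diagonal y).PosDef := by
    rw [Matrix.posDef_diagonal_iff]
    exact hy
  have hinj : Function.Injective Φ.mulVec := by
    intro v w hvw
    have h2 : Φᵀ *ᵥ (Φ *ᵥ v) = Φᵀ *ᵥ (Φ *ᵥ w) := by rw [hvw]
    rw [Matrix.mulVec_mulVec, Matrix.mulVec_mulVec, hΦ, Matrix.one_mulVec, Matrix.one_mulVec] at h2
    exact h2
  have h3 := h1.conjTranspose_mul_mul_same hinj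
  rw [Matrix.conjTranspose_eq_transpose_of_trivial] at h3
  exact h3

end Pool.LH60
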