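import Pool.Agent.Work.MP_1c7b0d_lh60.Interface

namespace Pool.LH60

theorem rho_aux_hd (x' t : ℝ) (ht : 0 < t) :
    HasDerivAt (fun x : ℝ => x * Real.log x - (Real.log x' + 1) * (x - x') - (x - x') * (x - x') / 2)
      (Real.log t - Real.log x' - (t - x')) t := by
  have h0 : HasDerivAt (fun x : ℝ => x - x') 1 t := (hasDerivAt_id t).sub_const x'
  have h1 : HasDerivAt (fun x : ℝ => x * Real.log x) (Real.log t + 1) t :=
    Real.hasDerivAt_mul_log ht.ne'
  have h2 : HasDerivAt (fun x : ℝ => (Real.log x' + 1) * (x - x')) ((Real.log x' + 1) * 1) t :=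
    h0.const_mul (Real.log x' + 1)
  have h3 : HasDerivAt (fun x : ℝ => (x - x') * (x - x') / 2) ((1 * (t - x') + (t - x') * 1) / 2) t :=
    (h0.mul h0).div_const 2
  have h4 := (h1.sub h2).sub h3
  refine h4.congr_deriv ?_
  ring

theorem rho_aux_log {a b : ℝ} (ha : 0 < a) (hab : a < b) (hb : b ≤ 1) :
    b - a < Real.log b - Real.log a := by
  have hb0 : 0 < b := ha.trans hab
  have h1 : Real.log (a / b) < a / b - 1 := by
    apply Real.log_lt_sub_one_of_pos (by positivity)
    rw [Ne, div_eq_one_iff_eq hb0.ne']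
    exact hab.ne
  rw [Real.log_div ha.ne' hb0.ne'] at h1
  have h2 : b - a ≤ (b - a) / b := by
    rw [le_div_iff₀ hb0]
    nlinarith [sub_pos.mpr hab]
  have h3 : (b - a) / b = 1 - a / b := by
    field_simp
  linarith

theorem rho_aux {x x' : ℝ} (hx : 0 < x) (hx1 : x ≤ 1) (hx' : 0 < x') (hx1' : x' ≤ 1) (hne : x ≠ x') :
    x' * Real.log x' + (Real.log x' + 1) * (x - x') + (x - x')^2 / 2 < x * Real.log x := by
  rcases lt_or_gt_of_ne hne with h | h
  · obtain ⟨c, hc, hc2⟩ := exists_hasDerivAt_eq_slope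
      (fun x : ℝ => x * Real.log x - (Real.log x' + 1) * (x - x') - (x - x') * (x - x') / 2)
      (fun t => Real.log t - Real.log x' - (t - x')) h
      (fun t ht => (rho_aux_hd x' t (hx.trans_le ht.1)).continuousAt.continuousWithinAt)
      (fun t ht => rho_aux_hd x' t (hx.trans ht.1))
    have h4 := rho_aux_log (hx.trans hc.1) hc.2 hx1'
    rw [eq_div_iff (sub_pos.mpr h).ne'] at hc2
    nlinarith [mul_pos (sub_pos.mpr h) (sub_pos.mpr h4)]
  · obtain ⟨c, hc, hc2⟩ := exists_hasDerivAt_eq_slope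
      (fun x : ℝ => x * Real.log x - (Real.log x' + 1) * (x - x') - (x - x') * (x - x') / 2)
      (fun t => Real.log t - Real.log x' - (t - x')) h
      (fun t ht => (rho_aux_hd x' t (hx'.trans_le ht.1)).continuousAt.continuousWithinAt)
      (fun t ht => rho_aux_hd x' t (hx'.trans ht.1))
    have h4 := rho_aux_log hx' hc.1 (hc.2.le.trans hx1)
    rw [eq_div_iff (sub_pos.mpr h).ne'] at hc2
    nlinarith [mul_pos (sub_pos.mpr h) (sub_pos.mpr h4)]

theorem RHO_thm : Stmt_RHO := by
  intro c c' hc hc1 hc' hc1' hne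
  have h := rho_aux (x := 1 - c) (x' := 1 - c') (by linarith) (by linarith) (by linarith)
    (by linarith) (by intro h; apply hne; linarith)
  have e1 : (1 - c) - (1 - c') = -(c - c') := by ring
  rw [e1] at h
  nlinarith [h]

end Pool.LH60
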