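import Pool.Agent.Work.MP_1c7b0d_lh60.Interface

/-!
# MP_1c7b0d_gt, blocks SPEC and SPECS (helper79): the spectral step
-/

open MeasureTheory Matrix
open scoped BigOperators

namespace Pool.LH60

namespace SPEC

theorem g_zero : g 0 = 0 := by
  unfold g
  rw [zero_mul]

section core
variable {ι : Type} [Fintype ι] {K : ℕ} {a : ι → Fin K → ℝ} {e : Fin K → ℝ} {y c A : ι → ℝ} {α : ℝ}

/-- left side -/
noncomputable def TT (a : ι → Fin K → ℝ) (e : Fin K → ℝ) (y c : ι → ℝ) (i : ι) (k : Fin K) : ℝ :=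
  y i * a i k / e k * (Real.log (e k) / 2 + mu (e k / c i))

/-- right side -/
noncomputable def RR (a : ι → Fin K → ℝ) (e : Fin K → ℝ) (y c A : ι → ℝ) (α : ℝ) (i : ι)
    (k : Fin K) : ℝ :=
  y i * a i k / e k * (α + A i / c i * e k)

omit [Fintype ι] in
theorem a_zero (ha : ∀ i k, 0 ≤ a i k) (hsum : ∀ i, ∑ k, a i k = c i) {i : ι} (hc : c i = 0)
    (k : Fin K) : a i k = 0 := by
  have h1 := hsum i
  rw [hc, Finset.sum_eq_zero_iff_of_nonneg (fun k _ => ha i k)] at h1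
  exact h1 k (Finset.mem_univ k)

omit [Fintype ι] in
theorem c_nonneg (ha : ∀ i k, 0 ≤ a i k) (hsum : ∀ i, ∑ k, a i k = c i) (i : ι) : 0 ≤ c i := by
  rw [← hsum i]
  exact Finset.sum_nonneg fun k _ => ha i k

/-- convexity -/
theorem g_le (hg : ConvexOn ℝ (Set.Ioi 0) g) (he : ∀ k, 0 < e k) (ha : ∀ i k, 0 ≤ a i k)
    (hsum : ∀ i, ∑ k, a i k = c i) (i : ι) :
    g (∑ k, a i k / e k) ≤ ∑ k, a i k / e k * mu (e k / c i) := by
  rcases (c_nonneg ha hsum i).eq_or_lt' with hc | hc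
  · have h1 := a_zero ha hsum hc
    have h2 : ∑ k, a i k / e k = 0 := by
      refine Finset.sum_eq_zero fun k _ => ?_
      rw [h1 k, zero_div]
    have h3 : ∑ k, a i k / e k * mu (e k / c i) = 0 := by
      refine Finset.sum_eq_zero fun k _ => ?_
      rw [h1 k, zero_div, zero_mul]
    rw [h2, h3, g_zero]
  · have h1 := hg.map_sum_le (t := Finset.univ) (w := fun k => a i k / c i)
      (p := fun k => c i / e k) (fun k _ => div_nonneg (ha i k) hc.le)
      (by rw [← Finset.sum_div, hsum i, div_self hc.ne'])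
      (fun k _ => div_pos hc (he k))
    have h2 : ∑ k, (a i k / c i) • (c i / e k) = ∑ k, a i k / e k := by
      refine Finset.sum_congr rfl fun k _ => ?_
      rw [smul_eq_mul]
      have := (he k).ne'
      have := hc.ne'
      field_simp
    rw [h2] at h1
    refine h1.trans (le_of_eq ?_)
    refine Finset.sum_congr rfl fun k _ => ?_
    rw [smul_eq_mul]
    unfold g
    have h3 : 1 / (c i / e k) = e k / c i := by rw [one_div_div]
    rw [h3]
    have := (he k).ne'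
    have := hc.ne'
    field_simp

theorem lhs_le (hg : ConvexOn ℝ (Set.Ioi 0) g) (hy : ∀ i, 0 < y i) (he : ∀ k, 0 < e k)
    (ha : ∀ i k, 0 ≤ a i k) (hsum : ∀ i, ∑ k, a i k = c i) (hes : ∀ k, ∑ i, y i * a i k = e k) :
    (∑ k, Real.log (e k)) / 2 + ∑ i, y i * g (∑ k, a i k / e k) ≤
      ∑ i, ∑ k, TT a e y c i k := by
  have h1 : (∑ k, Real.log (e k)) / 2 = ∑ i, ∑ k, y i * a i k / e k * (Real.log (e k) / 2) := by
    rw [Finset.sum_comm, Finset.sum_div]
    refine Finset.sum_congr rfl fun k _ => ?_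
    rw [← Finset.sum_mul, ← Finset.sum_div, hes k, div_self (he k).ne', one_mul]
  have h2 : ∑ i, y i * g (∑ k, a i k / e k) ≤
      ∑ i, ∑ k, y i * a i k / e k * mu (e k / c i) := by
    refine Finset.sum_le_sum fun i _ => ?_
    have h3 := mul_le_mul_of_nonneg_left (g_le hg he ha hsum i) (hy i).le
    refine h3.trans (le_of_eq ?_)
    rw [Finset.mul_sum]
    refine Finset.sum_congr rfl fun k _ => ?_
    ring
  rw [h1]
  refine (add_le_add_right h2 _).trans (le_of_eq ?_)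
  rw [← Finset.sum_add_distrib]
  refine Finset.sum_congr rfl fun i _ => ?_
  rw [← Finset.sum_add_distrib]
  refine Finset.sum_congr rfl fun k _ => ?_
  unfold TT
  ring

theorem term_le (hy : ∀ i, 0 < y i) (he : ∀ k, 0 < e k)
    (ha : ∀ i k, 0 ≤ a i k) (hsum : ∀ i, ∑ k, a i k = c i)
    (hsc : ∀ i, 0 < c i → ∀ t : ℝ, 0 < t → Real.log t / 2 + mu (t / c i) ≤ α + A i / c i * t)
    (i : ι) (k : Fin K) : TT a e y c i k ≤ RR a e y c A α i k := by
  unfold TT RR
  rcases (c_nonneg ha hsum i).eq_or_lt' with hc | hc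
  · rw [a_zero ha hsum hc k]
    simp
  · exact mul_le_mul_of_nonneg_left (hsc i hc _ (he k))
      (div_nonneg (mul_nonneg (hy i).le (ha i k)) (he k).le)

theorem rhs_le (hy : ∀ i, 0 < y i) (he : ∀ k, 0 < e k)
    (ha : ∀ i k, 0 ≤ a i k) (hsum : ∀ i, ∑ k, a i k = c i) (hes : ∀ k, ∑ i, y i * a i k = e k)
    (hA : ∀ i, c i = 0 → 0 ≤ A i) :
    ∑ i, ∑ k, RR a e y c A α i k ≤ K * α + ∑ i, A i * y i := by
  have h1 : ∑ i, ∑ k, RR a e y c A α i k =
      ∑ i, ∑ k, y i * a i k / e k * α + ∑ i, ∑ k, y i * a i k * (A i / c i) := by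
    rw [← Finset.sum_add_distrib]
    refine Finset.sum_congr rfl fun i _ => ?_
    rw [← Finset.sum_add_distrib]
    refine Finset.sum_congr rfl fun k _ => ?_
    unfold RR
    have := (he k).ne'
    rw [mul_add]
    refine congrArg _ ?_
    rw [div_mul_eq_mul_div, div_eq_iff this]
    ring
  have h2 : ∑ i, ∑ k, y i * a i k / e k * α = K * α := by
    rw [Finset.sum_comm]
    have h3 : ∀ k, ∑ i, y i * a i k / e k * α = α := by
      intro k
      rw [← Finset.sum_mul, ← Finset.sum_div, hes k, div_self (he k).ne', one_mul]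
    rw [Finset.sum_congr rfl fun k _ => h3 k, Finset.sum_const, Finset.card_univ,
      Fintype.card_fin, nsmul_eq_mul]
  rw [h1, h2]
  refine add_le_add_right ?_ _
  refine Finset.sum_le_sum fun i _ => ?_
  rw [← Finset.sum_mul, ← Finset.mul_sum, hsum i]
  rcases (c_nonneg ha hsum i).eq_or_lt' with hc | hc
  · rw [hc, mul_zero, zero_mul]
    exact mul_nonneg (hA i hc) (hy i).le
  · refine le_of_eq ?_
    have := hc.ne'
    field_simp

theorem core (hg : ConvexOn ℝ (Set.Ioi 0) g) (hy : ∀ i, 0 < y i) (he : ∀ k, 0 < e k)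
    (ha : ∀ i k, 0 ≤ a i k) (hsum : ∀ i, ∑ k, a i k = c i) (hes : ∀ k, ∑ i, y i * a i k = e k)
    (hA : ∀ i, c i = 0 → 0 ≤ A i)
    (hsc : ∀ i, 0 < c i → ∀ t : ℝ, 0 < t → Real.log t / 2 + mu (t / c i) ≤ α + A i / c i * t) :
    (∑ k, Real.log (e k)) / 2 + ∑ i, y i * g (∑ k, a i k / e k) ≤ K * α + ∑ i, A i * y i :=
  (lhs_le hg hy he ha hsum hes).trans
    ((Finset.sum_le_sum fun i _ => Finset.sum_le_sum fun k _ =>
      term_le hy he ha hsum hsc i k).trans (rhs_le hy he ha hsum hes hA))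

theorem core_strict (hg : ConvexOn ℝ (Set.Ioi 0) g) (hy : ∀ i, 0 < y i) (he : ∀ k, 0 < e k)
    (ha : ∀ i k, 0 ≤ a i k) (hsum : ∀ i, ∑ k, a i k = c i) (hes : ∀ k, ∑ i, y i * a i k = e k)
    (hc : ∀ i, 0 < c i)
    (hsc : ∀ i, ∀ t : ℝ, 0 < t → Real.log t / 2 + mu (t / c i) ≤ α + A i / c i * t)
    (hst : ∀ i, ∀ t : ℝ, 0 < t → t ≠ 1 → Real.log t / 2 + mu (t / c i) < α + A i / c i * t)
    (k₀ : Fin K) (hk : e k₀ ≠ 1) :
    (∑ k, Real.log (e k)) / 2 + ∑ i, y i * g (∑ k, a i k / e k) < K * α + ∑ i, A i * y i := by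
  have hA : ∀ i, c i = 0 → 0 ≤ A i := fun i h => absurd h (hc i).ne'
  -- a pair with positive weight
  have hex : ∃ i, 0 < a i k₀ := by
    by_contra hno
    have h1 : ∑ i, y i * a i k₀ = 0 := by
      refine Finset.sum_eq_zero fun i _ => ?_
      have h2 : a i k₀ = 0 := le_antisymm (not_lt.1 fun h => hno ⟨i, h⟩) (ha i k₀)
      rw [h2, mul_zero]
    rw [hes k₀] at h1
    exact (he k₀).ne' h1
  obtain ⟨i₀, hi₀⟩ := hex
  have hle : ∀ i k, TT a e y c i k ≤ RR a e y c A α i k :=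
    term_le hy he ha hsum (fun i _ => hsc i)
  have hlt : TT a e y c i₀ k₀ < RR a e y c A α i₀ k₀ := by
    unfold TT RR
    exact mul_lt_mul_of_pos_left (hst i₀ _ (he k₀) hk)
      (div_pos (mul_pos (hy i₀) hi₀) (he k₀))
  have h1 : ∑ i, ∑ k, TT a e y c i k < ∑ i, ∑ k, RR a e y c A α i k := by
    refine Finset.sum_lt_sum (fun i _ => Finset.sum_le_sum fun k _ => hle i k)
      ⟨i₀, Finset.mem_univ _, ?_⟩
    exact Finset.sum_lt_sum (fun k _ => hle i₀ k) ⟨k₀, Finset.mem_univ _, hlt⟩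
  exact (lhs_le hg hy he ha hsum hes).trans_lt (h1.trans_le (rhs_le hy he ha hsum hes hA))

end core

/-! ### the spectral theorem -/

theorem spectral {K : ℕ} (D : Matrix (Fin K) (Fin K) ℝ) (hD : D.PosDef) :
    ∃ (Q : Matrix (Fin K) (Fin K) ℝ) (e : Fin K → ℝ), Qᵀ * Q = 1 ∧ Q * Qᵀ = 1 ∧ (∀ k, 0 < e k) ∧
      D = Q * diagonal e * Qᵀ := by
  have hH := hD.isHermitian
  refine ⟨(hH.eigenvectorUnitary : Matrix (Fin K) (Fin K) ℝ), hH.eigenvalues, ?_, ?_,
    fun k => hD.eigenvalues_pos k, ?_⟩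
  · have h1 := Unitary.coe_star_mul_self hH.eigenvectorUnitary
    rw [← h1]
    rfl
  · have h1 := Unitary.coe_mul_star_self hH.eigenvectorUnitary
    rw [← h1]
    rfl
  · have h1 := hH.spectral_theorem
    rw [Unitary.conjStarAlgAut_apply] at h1
    exact h1

section mat
variable {ι : Type} [Fintype ι] [DecidableEq ι] {K : ℕ}

omit [Fintype ι] [DecidableEq ι] in
theorem diag_form (Ψ : Matrix ι (Fin K) ℝ) (d : Fin K → ℝ) (i : ι) :
    (Ψ * diagonal d * Ψᵀ) i i = ∑ k, (Ψ i k) ^ 2 * d k := by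
  rw [Matrix.mul_apply]
  refine Finset.sum_congr rfl fun k _ => ?_
  rw [Matrix.mul_diagonal, Matrix.transpose_apply]
  ring

theorem diag_form' (Ψ : Matrix ι (Fin K) ℝ) (d : ι → ℝ) (k : Fin K) :
    (Ψᵀ * diagonal d * Ψ) k k = ∑ i, d i * (Ψ i k) ^ 2 := by
  rw [Matrix.mul_apply]
  refine Finset.sum_congr rfl fun i _ => ?_
  rw [Matrix.mul_diagonal, Matrix.transpose_apply]
  ring

/-- the data of the core inequality -/
theorem data (Φ : Matrix ι (Fin K) ℝ) (y : ι → ℝ) (hD : (Dm Φ y).PosDef) :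
    ∃ (a : ι → Fin K → ℝ) (e : Fin K → ℝ), (∀ k, 0 < e k) ∧ (∀ i k, 0 ≤ a i k) ∧
      (∀ i, ∑ k, a i k = cn Φ i) ∧ (∀ k, ∑ i, y i * a i k = e k) ∧
      Real.log (Dm Φ y).det = ∑ k, Real.log (e k) ∧
      (∀ i, qf Φ (Dm Φ y)⁻¹ i = ∑ k, a i k / e k) ∧ (Dm Φ y ≠ 1 → ∃ k, e k ≠ 1) := by
  obtain ⟨Q, e, hQ1, hQ2, he, hDe⟩ := spectral (Dm Φ y) hD
  have hdet : (diagonal e * diagonal (fun k => 1 / e k) : Matrix (Fin K) (Fin K) ℝ) = 1 := by
    rw [diagonal_mul_diagonal, ← diagonal_one]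
    refine congrArg diagonal ?_
    funext k
    rw [mul_one_div, div_self (he k).ne']
  have hinv : (Dm Φ y)⁻¹ = Q * diagonal (fun k => 1 / e k) * Qᵀ := by
    refine Matrix.inv_eq_right_inv ?_
    rw [hDe]
    calc Q * diagonal e * Qᵀ * (Q * diagonal (fun k => 1 / e k) * Qᵀ)
        = Q * diagonal e * (Qᵀ * Q) * diagonal (fun k => 1 / e k) * Qᵀ := by
          simp only [Matrix.mul_assoc]
      _ = Q * (diagonal e * diagonal (fun k => 1 / e k)) * Qᵀ := by
          rw [hQ1, Matrix.mul_one, Matrix.mul_assoc Q]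
      _ = 1 := by rw [hdet, Matrix.mul_one, hQ2]
  refine ⟨fun i k => ((Φ * Q) i k) ^ 2, e, he, fun i k => sq_nonneg _, ?_, ?_, ?_, ?_, ?_⟩
  · intro i
    have h1 : ((Φ * Q) * (Φ * Q)ᵀ) i i = ∑ k, ((Φ * Q) i k) ^ 2 := by
      rw [Matrix.mul_apply]
      refine Finset.sum_congr rfl fun k _ => ?_
      rw [Matrix.transpose_apply]
      ring
    rw [← h1]
    have h2 : (Φ * Q) * (Φ * Q)ᵀ = Φ * Φᵀ := by
      rw [Matrix.transpose_mul]
      calc Φ * Q * (Qᵀ * Φᵀ) = Φ * (Q * Qᵀ) * Φᵀ := by simp only [Matrix.mul_assoc]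
        _ = Φ * Φᵀ := by rw [hQ2, Matrix.mul_one]
    rw [h2, Matrix.mul_apply]
    unfold cn
    refine Finset.sum_congr rfl fun k _ => ?_
    rw [Matrix.transpose_apply]
    ring
  · intro k
    have h1 := diag_form' (Φ * Q) y k
    rw [← h1]
    have h2 : (Φ * Q)ᵀ * diagonal y * (Φ * Q) = diagonal e := by
      rw [Matrix.transpose_mul]
      calc Qᵀ * Φᵀ * diagonal y * (Φ * Q) = Qᵀ * (Φᵀ * diagonal y * Φ) * Q := by
            simp only [Matrix.mul_assoc]
        _ = Qᵀ * (Q * diagonal e * Qᵀ) * Q := by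
            rw [← hDe]
            rfl
        _ = (Qᵀ * Q) * diagonal e * (Qᵀ * Q) := by simp only [Matrix.mul_assoc]
        _ = diagonal e := by rw [hQ1, Matrix.one_mul, Matrix.mul_one]
    rw [h2, diagonal_apply_eq]
  · have h1 : (Dm Φ y).det = ∏ k, e k := by
      have hQd : Q.det * Q.det = 1 := by
        have h2 : (Q * Qᵀ).det = 1 := by rw [hQ2, det_one]
        rwa [det_mul, det_transpose] at h2
      rw [hDe, det_mul, det_mul, det_transpose, det_diagonal]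
      calc Q.det * (∏ k, e k) * Q.det = Q.det * Q.det * ∏ k, e k := by ring
        _ = ∏ k, e k := by rw [hQd, one_mul]
    rw [h1, Real.log_prod]
    intro k _
    exact (he k).ne'
  · intro i
    unfold qf
    rw [hinv]
    have h2 : Φ * (Q * diagonal (fun k => 1 / e k) * Qᵀ) * Φᵀ =
        (Φ * Q) * diagonal (fun k => 1 / e k) * (Φ * Q)ᵀ := by
      rw [Matrix.transpose_mul]
      simp only [Matrix.mul_assoc]
    rw [h2, diag_form]
    refine Finset.sum_congr rfl fun k _ => ?_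
    rw [mul_one_div]
  · intro hne
    by_contra hno
    apply hne
    have h1 : e = fun _ => 1 := by
      funext k
      by_contra hk
      exact hno ⟨k, hk⟩
    rw [hDe, h1, diagonal_one, Matrix.mul_one, hQ2]

end mat

end SPEC

open SPEC in
theorem SPEC_thm (hGCV : Stmt_GCV) : Stmt_SPEC := by
  intro ι _ _ K Φ y A α hy hD hA hsc
  obtain ⟨a, e, he, ha, hsum, hes, hdet, hqf, -⟩ := data Φ y hD
  have h1 := core hGCV hy he ha hsum hes hA hsc
  rw [hdet]
  have h2 : ∑ i, y i * g (qf Φ (Dm Φ y)⁻¹ i) = ∑ i, y i * g (∑ k, a i k / e k) := by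
    refine Finset.sum_congr rfl fun i _ => ?_
    rw [hqf i]
  rw [h2]
  exact h1

open SPEC in
theorem SPECS_thm (hGCV : Stmt_GCV) : Stmt_SPECS := by
  intro ι _ _ K Φ y A α hy hD hne hc hsc hst
  obtain ⟨a, e, he, ha, hsum, hes, hdet, hqf, hex⟩ := data Φ y hD
  obtain ⟨k, hk⟩ := hex hne
  have h1 := core_strict hGCV hy he ha hsum hes hc hsc hst k hk
  rw [hdet]
  have h2 : ∑ i, y i * g (qf Φ (Dm Φ y)⁻¹ i) = ∑ i, y i * g (∑ k, a i k / e k) := by
    refine Finset.sum_congr rfl fun i _ => ?_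
    rw [hqf i]
  rw [h2]
  exact h1

end Pool.LH60
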