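import Pool.Agent.Work.MP_1c7b0d_lh60.Interface

/-!
Block ZB: the integral of `exp((s - e^s)/r)` over the line.
-/

open MeasureTheory Set

namespace Pool.LH60

theorem ZB_aux (r : ℝ) (s : ℝ) :
    Real.exp ((s - Real.exp s) / r) =
      |Real.exp s| • (Real.exp s ^ (1 / r - 1) * Real.exp (-((1 / r) * Real.exp s))) := by
  rw [abs_of_pos (Real.exp_pos s), smul_eq_mul, ← Real.exp_mul, ← Real.exp_add, ← Real.exp_add]
  congr 1
  ring

theorem ZB_image : Real.exp '' (univ : Set ℝ) = Ioi 0 := by
  rw [image_univ, Real.range_exp]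

theorem ZB_thm : Stmt_ZB := by
  intro r hr
  have h1 : (0:ℝ) < 1 / r := by positivity
  have hint : IntegrableOn (fun z : ℝ => z ^ (1 / r - 1) * Real.exp (-((1 / r) * z))) (Ioi 0) := by
    have h := integrableOn_rpow_mul_exp_neg_mul_rpow (p := 1) (s := 1 / r - 1) (b := 1 / r)
      (by linarith) one_pos h1
    refine h.congr_fun (fun z _ => ?_) measurableSet_Ioi
    simp only [Real.rpow_one, neg_mul]
  have hd : ∀ x ∈ (univ : Set ℝ), HasDerivWithinAt Real.exp (Real.exp x) univ x :=
    fun x _ => (Real.hasDerivAt_exp x).hasDerivWithinAt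
  have hinj : InjOn Real.exp (univ : Set ℝ) := Real.exp_injective.injOn
  refine ⟨?_, ?_⟩
  · have h := (integrableOn_image_iff_integrableOn_abs_deriv_smul MeasurableSet.univ hd hinj
      (fun z : ℝ => z ^ (1 / r - 1) * Real.exp (-((1 / r) * z)))).1 (by rw [ZB_image]; exact hint)
    rw [integrableOn_univ] at h
    refine h.congr (Filter.Eventually.of_forall fun s => ?_)
    exact (ZB_aux r s).symm
  · have h := integral_image_eq_integral_abs_deriv_smul MeasurableSet.univ hd hinj
      (fun z : ℝ => z ^ (1 / r - 1) * Real.exp (-((1 / r) * z)))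
    rw [ZB_image, Real.integral_rpow_mul_exp_neg_mul_Ioi h1 h1, Measure.restrict_univ] at h
    have h2 : (∫ s : ℝ, Real.exp ((s - Real.exp s) / r)) =
        ∫ s : ℝ, |Real.exp s| • (Real.exp s ^ (1 / r - 1) * Real.exp (-((1 / r) * Real.exp s))) :=
      integral_congr_ae (Filter.Eventually.of_forall fun s => ZB_aux r s)
    rw [h2, ← h, one_div_one_div, mul_comm]

end Pool.LH60
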