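import Pool.Agent.Work.MP_1c7b0d_lh60.Interface

/-!
Block LOWER of `lhz_blocks` (row MP_1c7b0d_gt), helper70: the sharp lower bound and the pattern of
the equality case, from the main bound and the linear algebra blocks.
-/

open MeasureTheory Matrix
open scoped BigOperators

namespace Pool.LH60

namespace LOWER

variable {d K : ℕ}

/-- The determinant bound with the quadratic gain. -/
theorem logdet_le (hRHO : Stmt_RHO) (hDETS : Stmt_DETS) (hFRI : Stmt_FRI)
    (U : Matrix (Ix d K) (Fin d) ℝ) (Φ : Matrix (Ix d K) (Fin K) ℝ)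
    (hd : 1 ≤ d) (hK : 1 ≤ K) (hU : UnitRows U) (hF : IsFrame U Φ) :
    Real.log (Uᵀ * U).det ≤ -((d:ℝ) * Real.log ((d:ℝ) / ((d:ℝ) + K)))
      - (∑ i, (cn Φ i - K / ((d:ℝ) + K))^2) / 2 ∧
    ((∃ i, cn Φ i ≠ K / ((d:ℝ) + K)) →
      Real.log (Uᵀ * U).det < -((d:ℝ) * Real.log ((d:ℝ) / ((d:ℝ) + K)))
      - (∑ i, (cn Φ i - K / ((d:ℝ) + K))^2) / 2) := by
  obtain ⟨_, hpd, hsum, hnn, hrow⟩ := hFRI d K U Φ hF
  have hrow := hrow hU
  have hd0 : (0:ℝ) < d := by exact_mod_cast hd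
  have hK0 : (0:ℝ) < K := by exact_mod_cast hK
  have hn : (0:ℝ) < (d:ℝ) + K := by positivity
  set q : ℝ := K / ((d:ℝ) + K) with hq
  have hq0 : 0 ≤ q := by positivity
  have hq1 : q < 1 := by rw [hq, div_lt_one hn]; linarith
  have h1q : 1 - q = (d:ℝ) / ((d:ℝ) + K) := by rw [hq]; field_simp; ring
  set L : ℝ := Real.log ((d:ℝ) / ((d:ℝ) + K)) with hL
  have hdets := hDETS d K U hU hF.2.2
  have ht : ∀ i, (U * (Uᵀ * U)⁻¹ * Uᵀ) i i = 1 - cn Φ i := fun i => by
    have := (hrow i).2; linarith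
  simp only [ht] at hdets
  -- pointwise
  have hpt : ∀ i, (1 - q) * L - (L + 1) * (cn Φ i - q) + (cn Φ i - q)^2 / 2
      ≤ (1 - cn Φ i) * Real.log (1 - cn Φ i) := by
    intro i
    by_cases h : cn Φ i = q
    · rw [h, h1q, ← hL]; simp
    · have := hRHO (cn Φ i) q (hnn i) (hrow i).1 hq0 hq1 h
      rw [h1q] at this ⊢
      exact this.le
  have hpts : ∀ i, cn Φ i ≠ q → (1 - q) * L - (L + 1) * (cn Φ i - q) + (cn Φ i - q)^2 / 2
      < (1 - cn Φ i) * Real.log (1 - cn Φ i) := by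
    intro i h
    have := hRHO (cn Φ i) q (hnn i) (hrow i).1 hq0 hq1 h
    rw [h1q] at this ⊢
    exact this
  have hcard : ((Finset.univ : Finset (Ix d K)).card : ℝ) = (d:ℝ) + K := by
    simp [Finset.card_univ, Fintype.card_sum]
  have hS : ∑ i : Ix d K, ((1 - q) * L - (L + 1) * (cn Φ i - q) + (cn Φ i - q)^2 / 2)
      = (d:ℝ) * L + (∑ i, (cn Φ i - q)^2) / 2 := by
    have e1 : ∑ i : Ix d K, (cn Φ i - q) = 0 := by
      rw [Finset.sum_sub_distrib, hsum, Finset.sum_const, nsmul_eq_mul, hcard, hq]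
      field_simp
      ring
    rw [Finset.sum_add_distrib, Finset.sum_sub_distrib, ← Finset.mul_sum Finset.univ _ (L + 1), e1,
      Finset.sum_const, nsmul_eq_mul, hcard, Finset.sum_div, h1q]
    field_simp
    ring
  refine ⟨?_, ?_⟩
  · have := Finset.sum_le_sum (fun i (_ : i ∈ (Finset.univ : Finset (Ix d K))) => hpt i)
    rw [hS] at this
    linarith
  · rintro ⟨i, hi⟩
    have := Finset.sum_lt_sum (fun i (_ : i ∈ (Finset.univ : Finset (Ix d K))) => hpt i)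
      ⟨i, Finset.mem_univ i, hpts i hi⟩
    rw [hS] at this
    linarith

end LOWER

open LOWER in
theorem LOWER_thm (hMAIN1 : Stmt_MAIN1) (hMAIN1S : Stmt_MAIN1S) (hVAL : Stmt_VAL)
    (hDEGEN : Stmt_DEGEN) (hDETS : Stmt_DETS) (hRHO : Stmt_RHO) (hAMGM : Stmt_AMGM)
    (hFRI : Stmt_FRI) (hONC : Stmt_ONC) (hEQP : Stmt_EQP) : Stmt_LOWER := by
  intro d K U hd hK hU
  by_cases hdet : (Uᵀ * U).det = 0
  · have hv := hDEGEN d K U hdet
    refine ⟨by rw [hv]; exact le_top, fun h => ?_⟩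
    rw [hv] at h
    exact absurd h.symm ENNReal.ofReal_ne_top
  obtain ⟨Φ, hΦ1, hΦ2⟩ := hONC (Ix d K) d K (by simp [Fintype.card_sum]) U
  have hF : IsFrame U Φ := ⟨hΦ1, hΦ2, hdet⟩
  obtain ⟨hid, hpd, hsum, hnn, hrow⟩ := hFRI d K U Φ hF
  have hd0 : (0:ℝ) < d := by exact_mod_cast hd
  have hK0 : (0:ℝ) < K := by exact_mod_cast hK
  have hn : (0:ℝ) < (d:ℝ) + K := by positivity
  obtain ⟨hV0, hVl⟩ := hVAL d K hd hK
  obtain ⟨hle, hlt⟩ := logdet_le hRHO hDETS hFRI U Φ hd hK hU hF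
  have hC : Cex U Φ ≤ -Real.log (Vopt d K) := by
    unfold Cex; rw [hVl]; linarith
  have hm := hMAIN1 d K U Φ hd hK hF hU
  have hexp : Real.exp (-Real.log (Vopt d K)) = (Vopt d K)⁻¹ := by
    rw [Real.exp_neg, Real.exp_log hV0]
  have hbound : ENNReal.ofReal (Vopt d K) ≤ volume (Pol U) := by
    have h1 : 1 ≤ volume (Pol U) * (ENNReal.ofReal (Vopt d K))⁻¹ := by
      refine hm.trans ?_
      rw [← ENNReal.ofReal_inv_of_pos hV0, ← hexp]
      gcongr
    have hne : ENNReal.ofReal (Vopt d K) ≠ 0 := by simpa using hV0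
    have h2 := mul_le_mul_left h1 (ENNReal.ofReal (Vopt d K))
    calc ENNReal.ofReal (Vopt d K) = 1 * ENNReal.ofReal (Vopt d K) := by simp
      _ ≤ volume (Pol U) * (ENNReal.ofReal (Vopt d K))⁻¹ * ENNReal.ofReal (Vopt d K) := by
          gcongr
      _ = volume (Pol U) := by
          rw [mul_assoc, ENNReal.inv_mul_cancel hne ENNReal.ofReal_ne_top, mul_one]
  refine ⟨hbound, fun hvol => ?_⟩
  -- equality case
  have hprod : volume (Pol U) * ENNReal.ofReal (Real.exp (Cex U Φ))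
      = ENNReal.ofReal (Vopt d K * Real.exp (Cex U Φ)) := by
    rw [hvol, ← ENNReal.ofReal_mul hV0.le]
  have hge : -Real.log (Vopt d K) ≤ Cex U Φ := by
    rw [hprod] at hm
    have h1 : 1 ≤ Vopt d K * Real.exp (Cex U Φ) := by
      rw [← ENNReal.ofReal_one] at hm
      exact (ENNReal.ofReal_le_ofReal_iff (by positivity)).1 hm
    have h2 : 0 ≤ Real.log (Vopt d K * Real.exp (Cex U Φ)) := Real.log_nonneg h1
    rw [Real.log_mul hV0.ne' (Real.exp_ne_zero _), Real.log_exp] at h2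
    linarith
  have hCeq : Cex U Φ = -Real.log (Vopt d K) := le_antisymm hC hge
  have hc : ∀ i, cn Φ i = K / ((d:ℝ) + K) := by
    by_contra hcon
    push Not at hcon
    have := hlt hcon
    have h3 : Cex U Φ < -Real.log (Vopt d K) := by
      unfold Cex; rw [hVl]; linarith
    linarith
  have hz : (∑ i, (cn Φ i - K / ((d:ℝ) + K))^2) = 0 := by
    apply Finset.sum_eq_zero; intro i _; rw [hc i]; ring
  have hlogdet : Real.log (Uᵀ * U).det = -((d:ℝ) * Real.log ((d:ℝ) / ((d:ℝ) + K))) := by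
    have h4 : Cex U Φ = -Real.log (Vopt d K) := hCeq
    unfold Cex at h4
    rw [hVl, hz] at h4
    linarith
  have hdpos : 0 < (Uᵀ * U).det := hpd.det_pos
  have hdeteq : (Uᵀ * U).det = (((d:ℝ) + K) / d) ^ d := by
    have h5 : Real.log (Uᵀ * U).det = Real.log ((((d:ℝ) + K) / d) ^ d) := by
      rw [hlogdet, Real.log_pow, ← mul_neg, ← Real.log_inv, inv_div]
    exact Real.log_injOn_pos (Set.mem_Ioi.2 hdpos) (Set.mem_Ioi.2 (by positivity)) h5
  have hS := hAMGM d K U hd hU hdeteq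
  have hDm : ∀ x ∈ Pol U, Dm Φ (yv U x) = 1 := by
    by_contra hcon
    push Not at hcon
    have h6 := hMAIN1S d K U Φ hd hK hF hU hc hcon
    rw [hprod, hCeq, hexp, mul_inv_cancel₀ hV0.ne'] at h6
    simp at h6
  obtain ⟨p, hp⟩ := hEQP d K U Φ hd hK hF hc hDm
  have hdn : ((d:ℝ) + K) / d ≠ 0 := by positivity
  have hinv : (Uᵀ * U)⁻¹ = ((d:ℝ) / ((d:ℝ) + K)) • (1 : Matrix (Fin d) (Fin d) ℝ) := by
    apply Matrix.inv_eq_left_inv
    rw [hS, Matrix.smul_mul, Matrix.one_mul, smul_smul]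
    rw [div_mul_div_cancel₀ hn.ne', div_self hd0.ne', one_smul]
  have hUU : ∀ i j, (U * Uᵀ) i j = (((d:ℝ) + K) / d) *
      ((1 : Matrix (Ix d K) (Ix d K) ℝ) i j - (Φ * Φᵀ) i j) := by
    intro i j
    have h7 := congrFun (congrFun hid i) j
    rw [hinv, Matrix.mul_smul, Matrix.mul_one, Matrix.smul_mul, Matrix.add_apply,
      Matrix.smul_apply, smul_eq_mul] at h7
    rw [← h7]
    field_simp
    ring
  refine ⟨p, ?_, ?_⟩
  · intro i j hij hpij
    rw [hUU, hp, if_pos hpij, Matrix.one_apply_ne hij]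
    field_simp
    ring
  · intro i j hpij
    have hij : i ≠ j := fun h => hpij (by rw [h])
    rw [hUU, hp, if_neg hpij, Matrix.one_apply_ne hij]
    ring

end Pool.LH60
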