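import Pool.Agent.Work.MP_1c7b0d_lh60.Interface

/-!
Block ISO (helper48): two configurations with the pattern `Pat` give congruent polytopes.
-/

open MeasureTheory Matrix
open scoped BigOperators

namespace Pool.LH60

section frame
variable {d : ℕ} {ι : Type*} [Fintype ι]

/-- tight frames with the same Gram matrix are congruent -/
lemma iso_frame {v v' : ι → EuclideanSpace ℝ (Fin d)} {c : ℝ} (hc : c ≠ 0)
    (hfr : ∀ x y : EuclideanSpace ℝ (Fin d),
      ∑ i, inner ℝ (v i) x * inner ℝ (v i) y = c * inner ℝ x y)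
    (hG : ∀ i j, inner ℝ (v i) (v j) = inner ℝ (v' i) (v' j)) :
    ∃ φ : EuclideanSpace ℝ (Fin d) ≃ₗᵢ[ℝ] EuclideanSpace ℝ (Fin d),
      ∀ j x, inner ℝ (v' j) (φ x) = inner ℝ (v j) x := by
  set f : EuclideanSpace ℝ (Fin d) →ₗ[ℝ] EuclideanSpace ℝ (Fin d) :=
    { toFun := fun x => ∑ i, (c⁻¹ * inner ℝ (v i) x) • v' i
      map_add' := fun x y => by
        rw [← Finset.sum_add_distrib]
        refine Finset.sum_congr rfl (fun i _ => ?_)
        rw [inner_add_right, mul_add, add_smul]
      map_smul' := fun t x => by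
        rw [RingHom.id_apply, Finset.smul_sum]
        refine Finset.sum_congr rfl (fun i _ => ?_)
        rw [inner_smul_right, smul_smul]
        congr 1
        ring } with hf
  have hfx : ∀ x, f x = ∑ i, (c⁻¹ * inner ℝ (v i) x) • v' i := fun x => rfl
  have h1 : ∀ j x, inner ℝ (v' j) (f x) = inner ℝ (v j) x := by
    intro j x
    rw [hfx, inner_sum]
    have h2 : ∀ i, inner ℝ (v' j) ((c⁻¹ * inner ℝ (v i) x) • v' i)
        = c⁻¹ * (inner ℝ (v i) x * inner ℝ (v i) (v j)) := by
      intro i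
      rw [inner_smul_right, real_inner_comm (v' i) (v' j), ← hG i j]
      ring
    simp only [h2]
    rw [← Finset.mul_sum, hfr, real_inner_comm, inv_mul_cancel_left₀ hc]
  have h2 : ∀ x y, inner ℝ (f x) (f y) = inner ℝ x y := by
    intro x y
    nth_rewrite 1 [hfx x]
    rw [sum_inner]
    have h3 : ∀ i, inner ℝ ((c⁻¹ * inner ℝ (v i) x) • v' i) (f y)
        = c⁻¹ * (inner ℝ (v i) x * inner ℝ (v i) y) := by
      intro i
      rw [inner_smul_left, h1]
      simp only [conj_trivial]
      ring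
    simp only [h3]
    rw [← Finset.mul_sum, hfr, inv_mul_cancel_left₀ hc]
  exact ⟨(f.isometryOfInner h2).toLinearIsometryEquiv rfl, h1⟩

/-- the frame identity from the Frobenius norm of the Gram matrix -/
lemma iso_tight {v : ι → EuclideanSpace ℝ (Fin d)} {c : ℝ} (hv : ∀ i, ‖v i‖ = 1)
    (hc : c * d = Fintype.card ι)
    (hF : ∑ i, ∑ j, (inner ℝ (v i) (v j) : ℝ) ^ 2 = c * Fintype.card ι) :
    ∀ x y : EuclideanSpace ℝ (Fin d),
      ∑ i, inner ℝ (v i) x * inner ℝ (v i) y = c * inner ℝ x y := by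
  classical
  have hin : ∀ x y : EuclideanSpace ℝ (Fin d), inner ℝ x y = ∑ a, x a * y a := by
    intro x y
    rw [PiLp.inner_apply]
    exact Finset.sum_congr rfl (fun i _ => by simp [mul_comm])
  have hone : ∀ i, ∑ a, v i a * v i a = 1 := by
    intro i
    rw [← hin, real_inner_self_eq_norm_sq, hv]; norm_num
  set S : Fin d → Fin d → ℝ := fun a b => ∑ i, v i a * v i b with hS
  have hSS : ∑ a, ∑ b, S a b * S a b = c * Fintype.card ι := by
    rw [← hF]
    have e1 : ∀ a b, S a b * S a b = ∑ i, ∑ j, (v i a * v j a) * (v i b * v j b) := by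
      intro a b
      rw [hS]
      simp only [Finset.sum_mul_sum]
      refine Finset.sum_congr rfl (fun i _ => Finset.sum_congr rfl (fun j _ => ?_))
      ring
    have e2 : ∀ i j, (inner ℝ (v i) (v j) : ℝ) ^ 2
        = ∑ a, ∑ b, (v i a * v j a) * (v i b * v j b) := by
      intro i j
      rw [hin, sq, Finset.sum_mul_sum]
    simp only [e1, e2]
    calc ∑ a, ∑ b, ∑ i, ∑ j, (v i a * v j a) * (v i b * v j b)
        = ∑ a, ∑ i, ∑ b, ∑ j, (v i a * v j a) * (v i b * v j b) :=
          Finset.sum_congr rfl (fun a _ => Finset.sum_comm)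
      _ = ∑ i, ∑ a, ∑ b, ∑ j, (v i a * v j a) * (v i b * v j b) := Finset.sum_comm
      _ = ∑ i, ∑ a, ∑ j, ∑ b, (v i a * v j a) * (v i b * v j b) :=
          Finset.sum_congr rfl (fun i _ => Finset.sum_congr rfl (fun a _ => Finset.sum_comm))
      _ = ∑ i, ∑ j, ∑ a, ∑ b, (v i a * v j a) * (v i b * v j b) :=
          Finset.sum_congr rfl (fun i _ => Finset.sum_comm)
  have hSt : ∑ a, S a a = Fintype.card ι := by
    rw [hS]
    simp only
    rw [Finset.sum_comm]
    simp only [hone]
    simp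
  have hz : ∑ a, ∑ b, (S a b - (if a = b then c else 0)) ^ 2 = 0 := by
    have e1 : ∀ a b, (S a b - (if a = b then c else 0)) ^ 2
        = S a b * S a b - (if a = b then 2 * c * S a a - c ^ 2 else 0) := by
      intro a b
      by_cases h : a = b
      · subst h; simp only [if_true]; ring
      · simp only [if_neg h]; ring
    simp only [e1, Finset.sum_sub_distrib, Finset.sum_ite_eq, Finset.mem_univ, if_true, hSS]
    rw [← Finset.mul_sum, hSt]
    simp only [Finset.sum_const, Finset.card_univ, Fintype.card_fin, nsmul_eq_mul]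
    rw [← hc]
    ring
  have hSab : ∀ a b, S a b = if a = b then c else 0 := by
    intro a b
    have h1 := (Finset.sum_eq_zero_iff_of_nonneg
      (fun a _ => Finset.sum_nonneg (fun b _ => sq_nonneg _))).1 hz a (Finset.mem_univ _)
    have h2 := (Finset.sum_eq_zero_iff_of_nonneg (fun b _ => sq_nonneg _)).1 h1 b (Finset.mem_univ _)
    have h3 := pow_eq_zero_iff (two_ne_zero) |>.1 h2
    linarith
  intro x y
  have e1 : ∀ i, inner ℝ (v i) x * inner ℝ (v i) y
      = ∑ a, ∑ b, (v i a * v i b) * (x a * y b) := by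
    intro i
    rw [hin, hin, Finset.sum_mul_sum]
    refine Finset.sum_congr rfl (fun i _ => Finset.sum_congr rfl (fun j _ => ?_))
    ring
  simp only [e1]
  calc ∑ i, ∑ a, ∑ b, (v i a * v i b) * (x a * y b)
      = ∑ a, ∑ i, ∑ b, (v i a * v i b) * (x a * y b) := Finset.sum_comm
    _ = ∑ a, ∑ b, ∑ i, (v i a * v i b) * (x a * y b) :=
        Finset.sum_congr rfl (fun a _ => Finset.sum_comm)
    _ = ∑ a, ∑ b, S a b * (x a * y b) := by
        refine Finset.sum_congr rfl (fun a _ => Finset.sum_congr rfl (fun b _ => ?_))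
        rw [hS, ← Finset.sum_mul]
    _ = ∑ a, c * (x a * y a) := by
        refine Finset.sum_congr rfl (fun a _ => ?_)
        simp only [hSab, ite_mul, zero_mul, Finset.sum_ite_eq, Finset.mem_univ, if_true]
    _ = c * inner ℝ x y := by rw [hin, Finset.mul_sum]

end frame

/-- rows of `matU` -/
lemma matU_gram {d K : ℕ} (u : Fin (d + K) → EuclideanSpace ℝ (Fin d)) (i j : Ix d K) :
    (matU u * (matU u)ᵀ) i j = inner ℝ (u (finSumFinEquiv i)) (u (finSumFinEquiv j)) := by
  rw [Matrix.mul_apply, PiLp.inner_apply]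
  exact Finset.sum_congr rfl (fun a _ => by simp [matU, mul_comm])

lemma matU_unit {d K : ℕ} (u : Fin (d + K) → EuclideanSpace ℝ (Fin d)) (hu : ∀ i, ‖u i‖ = 1) :
    UnitRows (matU u) := by
  intro i
  have h := matU_gram u i i
  rw [real_inner_self_eq_norm_sq, hu, Matrix.mul_apply] at h
  simp only [Matrix.transpose_apply] at h
  rw [one_pow] at h
  rw [← h]
  exact Finset.sum_congr rfl (fun a _ => by ring)

theorem ISO_thm (hSIZ : Stmt_SIZ) : Stmt_ISO := by
  classical
  intro d K u u' hd hK hu hu' hP hP'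
  have hd0 : (0:ℝ) < d := by exact_mod_cast hd
  have hK0 : (0:ℝ) < K := by exact_mod_cast hK
  obtain ⟨p, hp1, hp2⟩ := hP
  obtain ⟨p', hp1', hp2'⟩ := hP'
  have hs := hSIZ d K (matU u) p hd hK (matU_unit u hu) hp1 hp2
  have hs' := hSIZ d K (matU u') p' hd hK (matU_unit u' hu') hp1' hp2'
  -- the permutation
  have hcard : ∀ a : Fin K, Fintype.card {i // p i = a} = Fintype.card {i // p' i = a} := by
    intro a
    have h1 := hs a
    have h2 := hs' a
    rw [← h2] at h1
    have h3 := mul_right_cancel₀ hK0.ne' h1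
    rw [Fintype.card_subtype, Fintype.card_subtype]
    exact_mod_cast h3
  set σ : Ix d K ≃ Ix d K := Equiv.ofFiberEquiv (fun a => Fintype.equivOfCardEq (hcard a)) with hσ
  have hσp : ∀ i, p' (σ i) = p i := fun i => Equiv.ofFiberEquiv_map _ i
  -- Gram matrices
  have hG : ∀ i j : Ix d K, inner ℝ (u (finSumFinEquiv i)) (u (finSumFinEquiv j))
      = inner ℝ (u' (finSumFinEquiv (σ i))) (u' (finSumFinEquiv (σ j))) := by
    intro i j
    by_cases hij : i = j
    · subst hij
      rw [real_inner_self_eq_norm_sq, real_inner_self_eq_norm_sq, hu, hu']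
    · have hij' : σ i ≠ σ j := fun h => hij (σ.injective h)
      rw [← matU_gram, ← matU_gram]
      by_cases hpp : p i = p j
      · rw [hp1 i j hij hpp, hp1' (σ i) (σ j) hij' (by rw [hσp, hσp, hpp])]
      · rw [hp2 i j hpp, hp2' (σ i) (σ j) (by rw [hσp, hσp]; exact hpp)]
  -- Frobenius norm
  have hcI : (Fintype.card (Ix d K) : ℝ) = (d:ℝ) + K := by
    rw [Fintype.card_sum, Fintype.card_fin, Fintype.card_fin]; push_cast; ring
  have hrow : ∀ i : Ix d K, ∑ j : Ix d K,
      (inner ℝ (u (finSumFinEquiv i)) (u (finSumFinEquiv j)) : ℝ) ^ 2 = ((d:ℝ) + K) / d := by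
    intro i
    have e1 : ∀ j : Ix d K, (inner ℝ (u (finSumFinEquiv i)) (u (finSumFinEquiv j)) : ℝ) ^ 2
        = (if p j = p i then ((K:ℝ) / d) ^ 2 else 0) + (if j = i then 1 - ((K:ℝ) / d) ^ 2 else 0) := by
      intro j
      by_cases hij : j = i
      · subst hij
        rw [real_inner_self_eq_norm_sq, hu]; simp
      · rw [← matU_gram, if_neg hij]
        by_cases hpp : p j = p i
        · rw [hp1 i j (fun h => hij h.symm) hpp.symm, if_pos hpp]; ring
        · rw [hp2 i j (fun h => hpp h.symm), if_neg hpp]; ring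
    simp only [e1, Finset.sum_add_distrib, Finset.sum_ite_eq', Finset.mem_univ, if_true]
    rw [← Finset.sum_filter, Finset.sum_const, nsmul_eq_mul]
    have h2 := hs (p i)
    have h3 : (((Finset.univ.filter (fun j => p j = p i)).card : ℝ)) = ((d:ℝ) + K) / K := by
      rw [eq_div_iff hK0.ne']; exact h2
    rw [h3]
    field_simp
    ring
  have hF : ∑ i : Ix d K, ∑ j : Ix d K,
      (inner ℝ (u (finSumFinEquiv i)) (u (finSumFinEquiv j)) : ℝ) ^ 2
        = (((d:ℝ) + K) / d) * Fintype.card (Ix d K) := by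
    simp only [hrow, Finset.sum_const, Finset.card_univ, nsmul_eq_mul]
    ring
  have hfr := iso_tight (v := fun i : Ix d K => u (finSumFinEquiv i)) (c := ((d:ℝ) + K) / d)
    (fun i => hu _) (by rw [hcI]; field_simp) hF
  obtain ⟨φ, hφ⟩ := iso_frame (v := fun i : Ix d K => u (finSumFinEquiv i))
    (v' := fun i : Ix d K => u' (finSumFinEquiv (σ i))) (c := ((d:ℝ) + K) / d)
    (by positivity) hfr hG
  refine ⟨φ, ?_⟩
  have key : ∀ x, φ x ∈ Pool.Agent.Work.MP_1c7b0d_gt.circ u' ↔
      x ∈ Pool.Agent.Work.MP_1c7b0d_gt.circ u := by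
    intro x
    constructor
    · intro h i
      have h1 := hφ (finSumFinEquiv.symm i) x
      simp only [Equiv.apply_symm_apply] at h1
      rw [← h1]
      exact h _
    · intro h i
      have h1 := hφ (σ.symm (finSumFinEquiv.symm i)) x
      simp only [Equiv.apply_symm_apply] at h1
      rw [h1]
      exact h _
  ext y
  constructor
  · rintro ⟨x, hx, rfl⟩
    exact (key x).2 hx
  · intro hy
    refine ⟨φ.symm y, ?_, φ.apply_symm_apply y⟩
    rw [← key, φ.apply_symm_apply]
    exact hy

end Pool.LH60
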