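import Pool.Agent.Work.MP_1c7b0d_lh60.Interface

open MeasureTheory Matrix
open scoped BigOperators

namespace Pool.LH60

/-- the integrand of `Stmt_CVT` -/
noncomputable def Itg {d K : ℕ} (U : Matrix (Ix d K) (Fin d) ℝ) (Φ : Matrix (Ix d K) (Fin K) ℝ)
    (b : Ix d K → ℝ) (x : Fin d → ℝ) : ENNReal :=
  ENNReal.ofReal (Real.sqrt (Uᵀ * U).det * (Dm Φ (yv U x)).det) *
    (∫⁻ f : Fin K → ℝ,
      ENNReal.ofReal (Real.exp (∑ i, (sl Φ b f i - yv U x i * Real.exp (sl Φ b f i)))))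

/-- the exponent of the pointwise bound before the spectral step -/
noncomputable def Ex {d K : ℕ} (U : Matrix (Ix d K) (Fin d) ℝ) (Φ : Matrix (Ix d K) (Fin K) ℝ)
    (A : Ix d K → ℝ) (y : Ix d K → ℝ) : ℝ :=
  Real.log (Uᵀ * U).det / 2 + (K:ℝ) / 2 * Real.log (2 * Real.pi)
    + (Real.log (Dm Φ y).det / 2 + ∑ i, y i * g (qf Φ (Dm Φ y)⁻¹ i)) - ∑ i, A i * y i
    + (∑ i, A i - ((d:ℝ) + K))

lemma main_perp {d K : ℕ} (U : Matrix (Ix d K) (Fin d) ℝ) (Φ : Matrix (Ix d K) (Fin K) ℝ)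
    (hF : IsFrame U Φ) (x : Fin d → ℝ) (f : Fin K → ℝ) :
    ∑ i, (yv U x i - 1) * ∑ a, Φ i a * f a = 0 := by
  have h : Φᵀ * U = 0 := hF.2.1
  have h1 : ∀ i, (yv U x i - 1) * ∑ a, Φ i a * f a
      = - ∑ a, ∑ c, (Φᵀ a i * U i c) * (f a * x c) := by
    intro i
    have e1 : yv U x i - 1 = - ∑ c, U i c * x c := by unfold yv; ring
    rw [e1, Finset.sum_comm, neg_mul, Finset.sum_mul_sum]
    congr 1
    refine Finset.sum_congr rfl fun c _ => Finset.sum_congr rfl fun a _ => ?_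
    simp only [Matrix.transpose_apply]; ring
  simp_rw [h1]
  rw [Finset.sum_neg_distrib, Finset.sum_comm]
  have h2 : ∀ a, ∑ i, ∑ c, (Φᵀ a i * U i c) * (f a * x c) = 0 := by
    intro a
    rw [Finset.sum_comm]
    refine Finset.sum_eq_zero fun c _ => ?_
    rw [← Finset.sum_mul]
    have := congrFun (congrFun h a) c
    rw [Matrix.mul_apply] at this
    rw [this]; simp
  rw [Finset.sum_eq_zero (fun a _ => h2 a), neg_zero]

lemma main_expo {d K : ℕ} (U : Matrix (Ix d K) (Fin d) ℝ) (Φ : Matrix (Ix d K) (Fin K) ℝ)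
    (hF : IsFrame U Φ) (A b : Ix d K → ℝ)
    (hb : ∀ x : Fin d → ℝ, ∑ i, b i * (yv U x i - 1) = ∑ i, (A i - 1) * (yv U x i - 1))
    (x : Fin d → ℝ) (f : Fin K → ℝ) :
    ∑ i, (sl Φ b f i - yv U x i * Real.exp (sl Φ b f i))
      = - ∑ i, (A i - 1) * (yv U x i - 1)
        + ∑ i, yv U x i * (sl Φ b f i - Real.exp (sl Φ b f i)) := by
  have h1 := main_perp U Φ hF x f
  have h2 : ∑ i, (yv U x i - 1) * sl Φ b f i = ∑ i, (A i - 1) * (yv U x i - 1) := by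
    have : ∀ i, (yv U x i - 1) * sl Φ b f i
        = b i * (yv U x i - 1) + (yv U x i - 1) * ∑ a, Φ i a * f a := by
      intro i; unfold sl; ring
    simp_rw [this]
    rw [Finset.sum_add_distrib, h1, hb x, add_zero]
  rw [← h2, ← Finset.sum_neg_distrib, ← Finset.sum_add_distrib]
  refine Finset.sum_congr rfl fun i _ => ?_
  ring

/-- pointwise bound before the spectral step (to be used for `MAIN1` and `MAIN1S`) -/
lemma main_ptw0 (hBLG : Stmt_BLG) (hPDY : Stmt_PDY) {d K : ℕ} (U : Matrix (Ix d K) (Fin d) ℝ)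
    (Φ : Matrix (Ix d K) (Fin K) ℝ) (hF : IsFrame U Φ) (hS : 0 < (Uᵀ * U).det) (A b : Ix d K → ℝ)
    (hb : ∀ x : Fin d → ℝ, ∑ i, b i * (yv U x i - 1) = ∑ i, (A i - 1) * (yv U x i - 1))
    (x : Fin d → ℝ) (hx : x ∈ Pol U) :
    Itg U Φ b x ≤ ENNReal.ofReal (Real.exp (Ex U Φ A (yv U x))) := by
  have hy : ∀ i, 0 < yv U x i := hx
  have hD : (Dm Φ (yv U x)).PosDef := hPDY d K Φ _ hF.1 hy
  have hD0 : 0 < (Dm Φ (yv U x)).det := hD.det_pos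
  have hB := hBLG (Ix d K) K Φ (yv U x) b hy hD
  unfold Itg
  simp_rw [main_expo U Φ hF A b hb x, Real.exp_add]
  have e1 : ∀ f : Fin K → ℝ, ENNReal.ofReal (Real.exp (-∑ i, (A i - 1) * (yv U x i - 1)) *
      Real.exp (∑ i, yv U x i * (sl Φ b f i - Real.exp (sl Φ b f i))))
      = ENNReal.ofReal (Real.exp (-∑ i, (A i - 1) * (yv U x i - 1))) *
        ENNReal.ofReal (Real.exp (∑ i, yv U x i * (sl Φ b f i - Real.exp (sl Φ b f i)))) := by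
    intro f; rw [ENNReal.ofReal_mul (Real.exp_pos _).le]
  simp_rw [e1]
  rw [lintegral_const_mul' _ _ ENNReal.ofReal_ne_top, ← mul_assoc,
    ← ENNReal.ofReal_mul (by positivity)]
  refine (mul_le_mul_right hB _).trans ?_
  rw [← ENNReal.ofReal_mul (by positivity)]
  refine ENNReal.ofReal_le_ofReal ?_
  have e2 : Real.sqrt (Uᵀ * U).det * (Dm Φ (yv U x)).det
      = Real.exp (Real.log (Uᵀ * U).det / 2 + Real.log (Dm Φ (yv U x)).det) := by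
    rw [Real.exp_add, Real.exp_log hD0]
    congr 1
    rw [Real.sqrt_eq_rpow, Real.rpow_def_of_pos hS]
    congr 1; ring
  rw [e2, ← Real.exp_add, ← Real.exp_add]
  refine Real.exp_le_exp.mpr (le_of_eq ?_)
  unfold Ex
  have e3 : ∑ i, yv U x i * (-1 + g (qf Φ (Dm Φ (yv U x))⁻¹ i))
      = - ∑ i, yv U x i + ∑ i, yv U x i * g (qf Φ (Dm Φ (yv U x))⁻¹ i) := by
    rw [← Finset.sum_neg_distrib, ← Finset.sum_add_distrib]
    refine Finset.sum_congr rfl fun i _ => ?_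
    ring
  have e4 : ∑ i, (A i - 1) * (yv U x i - 1)
      = ∑ i, A i * yv U x i - ∑ i, yv U x i - ∑ i, A i + ((d:ℝ) + K) := by
    have : ((d:ℝ) + K) = ∑ i : Ix d K, (1:ℝ) := by
      simp [Ix, Fintype.card_sum]
    rw [this, ← Finset.sum_sub_distrib, ← Finset.sum_sub_distrib, ← Finset.sum_add_distrib]
    refine Finset.sum_congr rfl fun i _ => ?_
    ring
  rw [e3, e4]
  ring

/-- the value of the exponent -/
lemma main_sumA {d K : ℕ} (hd : 1 ≤ d) (hK : 1 ≤ K) (U : Matrix (Ix d K) (Fin d) ℝ)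
    (Φ : Matrix (Ix d K) (Fin K) ℝ) (hc : ∑ i, cn Φ i = K) (p : ℝ) :
    Real.log (Uᵀ * U).det / 2 + (K:ℝ) / 2 * Real.log (2 * Real.pi)
      + K * al (((d:ℝ) + K) / K) p
      + (∑ i, Ac (((d:ℝ) + K) / K) p (cn Φ i) - ((d:ℝ) + K)) = Cex U Φ := by
  have hK' : (0:ℝ) < K := by exact_mod_cast hK
  have hn : (0:ℝ) < (d:ℝ) + K := by positivity
  have h1 : (1:ℝ) / (((d:ℝ) + K) / K) = K / ((d:ℝ) + K) := by field_simp
  have h2 : ∑ i, Ac (((d:ℝ) + K) / K) p (cn Φ i)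
      = (K:ℝ) / 2 + ((d:ℝ) + K) * p + (∑ i, (cn Φ i - K / ((d:ℝ) + K))^2) / 4 := by
    have hcard : ((d:ℝ) + K) = ∑ i : Ix d K, (1:ℝ) := by
      simp [Ix, Fintype.card_sum]
    have e : ∀ i : Ix d K, Ac (((d:ℝ) + K) / K) p (cn Φ i)
        = cn Φ i / 2 + 1 * p + (cn Φ i - K / ((d:ℝ) + K))^2 / 4 := by
      intro i; unfold Ac; rw [h1]; ring
    simp_rw [e]
    rw [Finset.sum_add_distrib, Finset.sum_add_distrib, ← Finset.sum_div, hc, ← Finset.sum_mul,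
      ← hcard, ← Finset.sum_div]
  rw [h2]
  unfold Cex al
  have h3 : (K:ℝ) * (((d:ℝ) + K) / K * p) = ((d:ℝ) + K) * p := by field_simp
  linear_combination (-1 : ℝ) * h3

/-- the choice of the tilt and the coefficients -/
lemma main_choice (hGM3 : Stmt_GM3) (hLINB : Stmt_LINB) {d K : ℕ} (hd : 1 ≤ d) (hK : 1 ≤ K)
    (U : Matrix (Ix d K) (Fin d) ℝ) (Φ : Matrix (Ix d K) (Fin K) ℝ) (hF : IsFrame U Φ) :
    ∃ (p : ℝ) (b : Ix d K → ℝ), Tang (((d:ℝ) + K) / K) p ∧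
      ∀ x : Fin d → ℝ, ∑ i, b i * (yv U x i - 1)
        = ∑ i, (Ac (((d:ℝ) + K) / K) p (cn Φ i) - 1) * (yv U x i - 1) := by
  have hK' : (0:ℝ) < K := by exact_mod_cast hK
  obtain ⟨p, hp⟩ := hGM3 (((d:ℝ) + K) / K) (by positivity)
  obtain ⟨b, hb⟩ := hLINB d K U (fun i => Ac (((d:ℝ) + K) / K) p (cn Φ i) - 1) hF.2.2
  exact ⟨p, b, hp, hb⟩

/-- the spectral step -/
lemma main_spec (hSCA : Stmt_SCA) (hSPEC : Stmt_SPEC) (hFRI : Stmt_FRI) (hPDY : Stmt_PDY)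
    {d K : ℕ} (hd : 1 ≤ d) (hK : 1 ≤ K)
    (U : Matrix (Ix d K) (Fin d) ℝ) (Φ : Matrix (Ix d K) (Fin K) ℝ) (hF : IsFrame U Φ)
    (hU : UnitRows U) (p : ℝ) (hp : Tang (((d:ℝ) + K) / K) p) (y : Ix d K → ℝ) (hy : ∀ i, 0 < y i) :
    Real.log (Dm Φ y).det / 2 + ∑ i, y i * g (qf Φ (Dm Φ y)⁻¹ i)
      ≤ K * al (((d:ℝ) + K) / K) p + ∑ i, Ac (((d:ℝ) + K) / K) p (cn Φ i) * y i := by
  have hK' : (0:ℝ) < K := by exact_mod_cast hK
  have hm : (1:ℝ) ≤ ((d:ℝ) + K) / K := by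
    rw [le_div_iff₀ hK']; have : (0:ℝ) ≤ d := Nat.cast_nonneg d; linarith
  obtain ⟨_, _, hcK, hc0, hc1⟩ := hFRI d K U Φ hF
  refine hSPEC (Ix d K) K Φ y (fun i => Ac (((d:ℝ) + K) / K) p (cn Φ i)) _ hy
    (hPDY d K Φ y hF.1 hy) ?_ ?_
  · intro i hi
    show 0 ≤ Ac (((d:ℝ) + K) / K) p (cn Φ i)
    unfold Ac
    rw [hi]
    have h1 := hp.2.1
    have h2 : (0 - 1 / (((d:ℝ) + K) / K))^2 / 4 = 3 * (1 / (12 * (((d:ℝ) + K) / K)^2)) := by
      have : (0:ℝ) < ((d:ℝ) + K) / K := by positivity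
      field_simp
      ring
    rw [h2]
    have h3 : (0:ℝ) ≤ 1 / (12 * (((d:ℝ) + K) / K)^2) := by positivity
    linarith
  · intro i hi e he
    exact (hSCA _ p hm hp).1 (cn Φ i) e hi (hc1 hU i).1.le he

/-- the pointwise bound -/
theorem main_ptw (hSCA : Stmt_SCA) (hSPEC : Stmt_SPEC) (hBLG : Stmt_BLG)
    (hFRI : Stmt_FRI) (hPDY : Stmt_PDY) {d K : ℕ} (hd : 1 ≤ d) (hK : 1 ≤ K)
    (U : Matrix (Ix d K) (Fin d) ℝ) (Φ : Matrix (Ix d K) (Fin K) ℝ) (hF : IsFrame U Φ)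
    (hU : UnitRows U) (p : ℝ) (b : Ix d K → ℝ) (hp : Tang (((d:ℝ) + K) / K) p)
    (hb : ∀ x : Fin d → ℝ, ∑ i, b i * (yv U x i - 1)
        = ∑ i, (Ac (((d:ℝ) + K) / K) p (cn Φ i) - 1) * (yv U x i - 1))
    (x : Fin d → ℝ) (hx : x ∈ Pol U) :
    Itg U Φ b x ≤ ENNReal.ofReal (Real.exp (Cex U Φ)) := by
  obtain ⟨_, hPD, hcK, hc0, hc1⟩ := hFRI d K U Φ hF
  refine (main_ptw0 hBLG hPDY U Φ hF hPD.det_pos _ b hb x hx).trans ?_
  refine ENNReal.ofReal_le_ofReal (Real.exp_le_exp.mpr ?_)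
  have h1 := main_spec hSCA hSPEC hFRI hPDY hd hK U Φ hF hU p hp (yv U x) hx
  rw [← main_sumA hd hK U Φ hcK p]
  unfold Ex
  linarith

theorem MAIN1_thm (hGM3 : Stmt_GM3) (hSCA : Stmt_SCA) (hSPEC : Stmt_SPEC) (hBLG : Stmt_BLG)
    (hCVT : Stmt_CVT) (hFRI : Stmt_FRI) (hPDY : Stmt_PDY) (hLINB : Stmt_LINB) : Stmt_MAIN1 := by
  intro d K U Φ hd hK hF hU
  obtain ⟨p, b, hp, hb⟩ := main_choice hGM3 hLINB hd hK U Φ hF
  have h1 : ∫⁻ x in Pol U, Itg U Φ b x = 1 := hCVT d K U Φ b hF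
  rw [← h1]
  refine (setLIntegral_mono measurable_const
    (fun x hx => main_ptw hSCA hSPEC hBLG hFRI hPDY hd hK U Φ hF hU p b hp hb x hx)).trans ?_
  rw [setLIntegral_const, mul_comm]

end Pool.LH60
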