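import Pool.Agent.Work.MP_1c7b0d_lh60.Interface

/-!
Block AMGM (helper45): the equality case of the inequality of the means for the eigenvalues of `UᵀU`.
-/

open MeasureTheory Matrix
open scoped BigOperators

namespace Pool.LH60

theorem AMGM_thm : Stmt_AMGM := by
  intro d K U hd hU hdet
  have hd' : (0 : ℝ) < d := by exact_mod_cast hd
  have hn : (0 : ℝ) < (d : ℝ) + K := by positivity
  have hc : (0 : ℝ) < ((d : ℝ) + K) / d := div_pos hn hd'
  have hpsd : (Uᵀ * U).PosSemidef := by
    have h := Matrix.posSemidef_conjTranspose_mul_self U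
    rwa [Matrix.conjTranspose_eq_transpose_of_trivial] at h
  have hH := hpsd.isHermitian
  have htr : ∑ k, hH.eigenvalues k = (d : ℝ) + K := by
    have h := hH.trace_eq_sum_eigenvalues
    have h1 : (Uᵀ * U).trace = ∑ i, ∑ a, U i a ^ 2 := by
      rw [Matrix.trace_mul_comm, Matrix.trace]
      refine Finset.sum_congr rfl fun i _ => ?_
      rw [Matrix.diag_apply, Matrix.mul_apply]
      exact Finset.sum_congr rfl fun a _ => by rw [Matrix.transpose_apply, sq]
    have h2 : ∑ i, ∑ a, U i a ^ 2 = (d : ℝ) + K := by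
      rw [Finset.sum_congr rfl fun i _ => hU i]
      simp
    rw [h1, h2] at h
    simpa using h.symm
  have hprod : ∏ k, hH.eigenvalues k = (((d : ℝ) + K) / d) ^ d := by
    have h := hH.det_eq_prod_eigenvalues
    rw [hdet] at h
    simpa using h.symm
  have hnn : ∀ k, 0 ≤ hH.eigenvalues k := fun k => hpsd.eigenvalues_nonneg k
  have hpos : ∀ k, 0 < hH.eigenvalues k := by
    intro k
    refine lt_of_le_of_ne (hnn k) fun h0 => ?_
    have : ∏ k, hH.eigenvalues k = 0 := Finset.prod_eq_zero (Finset.mem_univ k) h0.symm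
    rw [hprod] at this
    exact (pow_pos hc d).ne' this
  -- the normalised eigenvalues
  have hlog : ∑ k, Real.log (hH.eigenvalues k / (((d : ℝ) + K) / d)) = 0 := by
    rw [← Real.log_prod fun k _ => (div_pos (hpos k) hc).ne', Finset.prod_div_distrib, hprod,
      Finset.prod_const, Finset.card_univ, Fintype.card_fin, div_self (pow_pos hc d).ne',
      Real.log_one]
  have hlin : ∑ k, (hH.eigenvalues k / (((d : ℝ) + K) / d) - 1) = 0 := by
    rw [Finset.sum_sub_distrib, ← Finset.sum_div, htr]
    simp only [Finset.sum_const, Finset.card_univ, Fintype.card_fin, nsmul_eq_mul, mul_one]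
    field_simp
    ring
  have hall : ∀ k, hH.eigenvalues k = ((d : ℝ) + K) / d := by
    intro k
    by_contra hne
    have hlt : ∑ k, Real.log (hH.eigenvalues k / (((d : ℝ) + K) / d)) <
        ∑ k, (hH.eigenvalues k / (((d : ℝ) + K) / d) - 1) := by
      refine Finset.sum_lt_sum (fun j _ => Real.log_le_sub_one_of_pos (div_pos (hpos j) hc))
        ⟨k, Finset.mem_univ _, Real.log_lt_sub_one_of_pos (div_pos (hpos k) hc) ?_⟩
      intro h
      rw [div_eq_one_iff_eq hc.ne'] at h
      exact hne h
    rw [hlog, hlin] at hlt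
    exact lt_irrefl _ hlt
  have hsp := hH.spectral_theorem
  have he : (RCLike.ofReal ∘ hH.eigenvalues : Fin d → ℝ) = fun _ => ((d : ℝ) + K) / d := by
    funext k
    simpa using hall k
  rw [he] at hsp
  have hdiag : Matrix.diagonal (fun _ : Fin d => ((d : ℝ) + K) / d) =
      (((d : ℝ) + K) / d) • (1 : Matrix (Fin d) (Fin d) ℝ) := by
    rw [Matrix.smul_one_eq_diagonal]
  rw [hdiag, map_smul, map_one] at hsp
  exact hsp

end Pool.LH60
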