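import Pool.Agent.Work.MP_1c7b0d_lh60.Interface
import Pool.Agent.Work.MP_1c7b0d_gt_helper74.Binet3

/-! Adapters: the Binet part of the Interface (helper74). -/

open Real Set Filter Topology

namespace Pool.LH60.H74

lemma h74_mu_eq : mu = LH.Binet.mu := by
  funext u
  rfl

theorem GLIM_thm : Stmt_GLIM := by
  intro u hu
  rw [h74_mu_eq]
  have hpos : ∀ N : ℕ, 0 < u + (N : ℝ) := fun N => LH.Binet.pos_add hu N
  have h3 : Tendsto (fun n : ℕ => u + (n : ℝ)) atTop atTop :=
    tendsto_atTop_add_const_left _ _ tendsto_natCast_atTop_atTop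
  have h4 : Tendsto (fun N : ℕ => 1 / (u + (N : ℝ)) / 12) atTop (𝓝 0) := by
    have h5 := (tendsto_inv_atTop_zero.comp h3).div_const 12
    have h6 : (fun N : ℕ => 1 / (u + (N : ℝ)) / 12)
        = fun N : ℕ => ((fun r : ℝ => r⁻¹) ∘ fun n : ℕ => u + (n : ℝ)) N / 12 := by
      funext N; simp [one_div]
    rw [h6]
    simpa using h5
  exact squeeze_zero (fun N => LH.Binet.mu_nonneg (hpos N)) (fun N => LH.Binet.mu_le (hpos N)) h4

theorem GM2_thm : Stmt_GM2 := by
  unfold Stmt_GM2
  rw [h74_mu_eq]
  refine ⟨LH.Binet.strictConvexOn_mu.convexOn, ?_⟩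
  refine LH.Binet.strictConvexOn_Wmu.convexOn.congr ?_
  intro x _
  show 1 / x / 12 - LH.Binet.mu x = 1 / (12 * x) - LH.Binet.mu x
  rw [div_div, mul_comm x 12]

/-- tangent line inequality for a convex function with a derivative -/
lemma h74_tangent {f : ℝ → ℝ} (hf : ConvexOn ℝ (Ioi 0) f) {m u f' : ℝ} (hm : 0 < m) (hu : 0 < u)
    (hd : HasDerivAt f f' m) : f m + f' * (u - m) ≤ f u := by
  rcases lt_trichotomy u m with h1 | h1 | h1
  · have := hf.slope_le_of_hasDerivAt hu hm h1 hd
    rw [slope_def_field, div_le_iff₀ (by linarith)] at this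
    linarith
  · subst h1; simp
  · have := hf.le_slope_of_hasDerivAt hm hu h1 hd
    rw [slope_def_field, le_div_iff₀ (by linarith)] at this
    linarith

lemma h74_tang_deriv {m : ℝ} (hm : 0 < m) : Tang m (deriv LH.Binet.mu m) := by
  refine ⟨LH.Binet.deriv_mu_nonpos hm, ?_, ?_⟩
  · by_contra hcon
    push Not at hcon
    set W : ℝ → ℝ := fun x => 1 / x / 12 - LH.Binet.mu x with hW
    have hd : HasDerivAt W (-1 / m ^ 2 / 12 - deriv LH.Binet.mu m) m :=
      ((LH.Binet.d_inv hm.ne').div_const 12).sub (LH.Binet.differentiableAt_mu hm).hasDerivAt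
    set w : ℝ := -1 / m ^ 2 / 12 - deriv LH.Binet.mu m with hw
    have hwpos : 0 < w := by
      rw [hw]
      have : -1 / m ^ 2 / 12 = -(1 / (12 * m ^ 2)) := by
        field_simp
      rw [this]
      linarith
    have hWm : 0 ≤ W m := by
      rw [hW]
      have := LH.Binet.mu_le hm
      simp only
      linarith
    set u : ℝ := m + (1 / m / 12 + 1) / w with hu
    have hmu : 0 < 1 / m / 12 := by positivity
    have humpos : 0 < (1 / m / 12 + 1) / w := by positivity
    have hupos : 0 < u := by rw [hu]; linarith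
    have h1 := h74_tangent LH.Binet.strictConvexOn_Wmu.convexOn hm hupos hd
    have h2 : w * (u - m) = 1 / m / 12 + 1 := by
      rw [hu]
      field_simp
      ring
    have h3 : W u ≤ 1 / u / 12 := by
      rw [hW]
      have := LH.Binet.mu_nonneg hupos
      simp only
      linarith
    have h4 : 1 / u / 12 ≤ 1 / m / 12 := by
      have : 1 / u ≤ 1 / m := one_div_le_one_div_of_le hm (by rw [hu]; linarith)
      linarith
    have h5 : W m + w * (u - m) ≤ W u := h1
    rw [h2] at h5
    linarith
  · intro u hu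
    rw [h74_mu_eq]
    constructor
    · have h1 := h74_tangent LH.Binet.strictConvexOn_mu.convexOn hm hu
        (LH.Binet.differentiableAt_mu hm).hasDerivAt
      linarith
    · have h1 := LH.Binet.bregman hm hu
      have e : (u / m - 1) ^ 2 / (12 * u) = (u - m) ^ 2 / (12 * u * m ^ 2) := by
        field_simp
      rw [e] at h1
      exact h1

theorem GM3_thm : Stmt_GM3 := fun _ hm => ⟨_, h74_tang_deriv hm⟩

theorem GCV_thm : Stmt_GCV := by
  unfold Stmt_GCV
  refine ⟨convex_Ioi 0, ?_⟩
  intro s hs t ht a b ha hb hab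
  have hs0 : 0 < s := hs
  have ht0 : 0 < t := ht
  simp only [smul_eq_mul, g]
  rw [h74_mu_eq]
  have hr : 0 < a * s + b * t := by
    rcases eq_or_lt_of_le ha with h | h
    · have hb1 : b = 1 := by linarith
      subst h; subst hb1; simpa using ht0
    · have : 0 ≤ b * t := by positivity
      have : 0 < a * s := by positivity
      linarith
  have h1 := LH.Binet.strictConvexOn_mu.convexOn.2 (show 1 / s ∈ Ioi (0 : ℝ) from by
    show (0 : ℝ) < 1 / s; positivity) (show 1 / t ∈ Ioi (0 : ℝ) from by
    show (0 : ℝ) < 1 / t; positivity)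
    (show 0 ≤ a * s / (a * s + b * t) by positivity)
    (show 0 ≤ b * t / (a * s + b * t) by positivity) (by field_simp)
  simp only [smul_eq_mul] at h1
  have e1 : a * s / (a * s + b * t) * (1 / s) + b * t / (a * s + b * t) * (1 / t)
      = 1 / (a * s + b * t) := by
    have : a * s / (a * s + b * t) * (1 / s) + b * t / (a * s + b * t) * (1 / t)
      = (a + b) / (a * s + b * t) := by
      field_simp
    rw [this, hab]
  rw [e1] at h1
  have h2 := mul_le_mul_of_nonneg_left h1 hr.le
  refine h2.trans (le_of_eq ?_)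
  field_simp

lemma h74_tang_unique {m p : ℝ} (hm : 0 < m) (h : Tang m p) : deriv LH.Binet.mu m = p := by
  have hd : HasDerivAt (fun u => LH.Binet.mu u - LH.Binet.mu m - p * (u - m))
      (deriv LH.Binet.mu m - p * 1) m := by
    have h1 := (LH.Binet.differentiableAt_mu hm).hasDerivAt
    have h2 : HasDerivAt (fun u : ℝ => p * (u - m)) (p * 1) m :=
      ((hasDerivAt_id m).sub_const m).const_mul p
    exact (h1.sub_const _).sub h2
  have hmin : IsLocalMin (fun u => LH.Binet.mu u - LH.Binet.mu m - p * (u - m)) m := by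
    filter_upwards [lt_mem_nhds hm] with u hu
    have := (h.2.2 u hu).1
    rw [h74_mu_eq] at this
    simpa using this
  have := hmin.hasDerivAt_eq_zero hd
  linarith

theorem SCA_thm : Stmt_SCA := by
  intro m p hm hT
  have hm0 : 0 < m := by linarith
  have hp := h74_tang_unique hm0 hT
  refine ⟨?_, ?_⟩
  · intro c e hc0 hc1 he
    have hu : 0 < e / c := by positivity
    have h := LH.Binet.scalar hm hc0 hc1 hu
    have hcu : c * (e / c) = e := by field_simp
    rw [hcu, hp] at h
    unfold al Ac
    rw [h74_mu_eq]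
    have e1 : (c / 2 + p + (c - 1 / m) ^ 2 / 4) / c * e
        = (c / 2 + p + (c - 1 / m) ^ 2 / 4) * (e / c) := by ring
    rw [e1]
    have e2 : c / 2 * (e / c) = e / 2 := by field_simp
    nlinarith
  · intro e he hne
    have hu : 0 < e * m := by positivity
    have hc0 : 0 < 1 / m := by positivity
    have hc1 : 1 / m ≤ 1 := by
      rw [div_le_one hm0]; exact hm
    have hcu : 1 / m * (e * m) = e := by field_simp
    have h := LH.Binet.scalar_lt hm hc0 hc1 hu (by
      rintro ⟨_, h2⟩
      rw [hcu] at h2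
      exact hne h2)
    rw [hcu, hp] at h
    unfold al Ac
    rw [h74_mu_eq]
    have e1 : (1 / m / 2 + p + (1 / m - 1 / m) ^ 2 / 4) * m * e = e / 2 + p * (e * m) := by
      field_simp
      ring
    rw [e1]
    have e2 : e * m / 4 * (1 / m - 1 / m) ^ 2 = 0 := by ring
    rw [e2] at h
    nlinarith

end Pool.LH60.H74
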