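import Pool.Agent.Work.MP_1c7b0d_lh60.Interface

/-!
Block CVS: the change of variables `(x,f) ↦ (y_i(x) e^{s_i})` is onto the open orthant
(helper93).
-/

open MeasureTheory Matrix
open scoped BigOperators

namespace Pool.LH60

namespace CVS

/-- one term of the coercive function -/
lemma term_ge (v t : ℝ) (hv : 0 < v) : |t| - 2 / v ≤ v * Real.exp (-t) + t := by
  have hv2 : 0 < 2 / v := by positivity
  rcases le_or_gt 0 t with ht | ht
  · rw [abs_of_nonneg ht]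
    have : 0 < v * Real.exp (-t) := by positivity
    linarith
  · rw [abs_of_neg ht]
    have h1 : (-t) ^ 2 / 2 ≤ Real.exp (-t) := by
      have := Real.quadratic_le_exp_of_nonneg (x := -t) (by linarith)
      nlinarith
    have h2 : v * ((-t) ^ 2 / 2) ≤ v * Real.exp (-t) := mul_le_mul_of_nonneg_left h1 hv.le
    have h3 : 0 ≤ v / 2 * (-t - 2 / v) ^ 2 := by positivity
    have h4 : v / 2 * (-t - 2 / v) ^ 2 = v * ((-t) ^ 2 / 2) - 2 * (-t) + 2 / v := by
      field_simp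
      ring
    linarith

variable {d K : ℕ}

/-- the coercive function -/
noncomputable def F (Φ : Matrix (Ix d K) (Fin K) ℝ) (v : Ix d K → ℝ) (f : Fin K → ℝ) : ℝ :=
  ∑ i, (v i * Real.exp (-(∑ a, Φ i a * f a)) + ∑ a, Φ i a * f a)

lemma continuous_F (Φ : Matrix (Ix d K) (Fin K) ℝ) (v : Ix d K → ℝ) : Continuous (F Φ v) := by
  unfold F
  fun_prop

lemma abs_le_one (Φ : Matrix (Ix d K) (Fin K) ℝ) (hΦ : Φᵀ * Φ = 1) (i : Ix d K) (a : Fin K) :
    |Φ i a| ≤ 1 := by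
  have h := congrFun (congrFun hΦ a) a
  rw [Matrix.mul_apply, Matrix.one_apply_eq] at h
  have h2 : Φ i a ^ 2 ≤ 1 := by
    calc Φ i a ^ 2 = Φᵀ a i * Φ i a := by rw [Matrix.transpose_apply]; ring
      _ ≤ ∑ j, Φᵀ a j * Φ j a := by
          refine Finset.single_le_sum (f := fun j => Φᵀ a j * Φ j a) (fun j _ => ?_)
            (Finset.mem_univ i)
          rw [Matrix.transpose_apply]
          exact mul_self_nonneg _
      _ = 1 := h
  exact abs_le_one_iff_mul_self_le_one.mpr (by nlinarith)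

lemma coord (Φ : Matrix (Ix d K) (Fin K) ℝ) (hΦ : Φᵀ * Φ = 1) (f : Fin K → ℝ) (a : Fin K) :
    f a = ∑ i, Φ i a * ∑ b, Φ i b * f b := by
  have h : (Φᵀ * Φ).mulVec f = f := by rw [hΦ, Matrix.one_mulVec]
  have h2 := congrFun h a
  rw [← Matrix.mulVec_mulVec] at h2
  rw [← h2]
  simp only [Matrix.mulVec, dotProduct, Matrix.transpose_apply]

lemma norm_le (Φ : Matrix (Ix d K) (Fin K) ℝ) (hΦ : Φᵀ * Φ = 1) (f : Fin K → ℝ) :
    ‖f‖ ≤ ∑ i, |∑ b, Φ i b * f b| := by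
  rw [pi_norm_le_iff_of_nonneg (Finset.sum_nonneg fun i _ => abs_nonneg _)]
  intro a
  rw [Real.norm_eq_abs]
  conv_lhs => rw [coord Φ hΦ f a]
  refine (Finset.abs_sum_le_sum_abs _ _).trans (Finset.sum_le_sum fun i _ => ?_)
  rw [abs_mul]
  calc |Φ i a| * |∑ b, Φ i b * f b| ≤ 1 * |∑ b, Φ i b * f b| :=
        mul_le_mul_of_nonneg_right (abs_le_one Φ hΦ i a) (abs_nonneg _)
    _ = _ := one_mul _

lemma F_ge (Φ : Matrix (Ix d K) (Fin K) ℝ) (hΦ : Φᵀ * Φ = 1) (v : Ix d K → ℝ)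
    (hv : ∀ i, 0 < v i) (f : Fin K → ℝ) : ‖f‖ + (-∑ i, 2 / v i) ≤ F Φ v f := by
  have h1 := norm_le Φ hΦ f
  have h2 : ∑ i, (|∑ b, Φ i b * f b| - 2 / v i) ≤ F Φ v f := by
    unfold F
    exact Finset.sum_le_sum fun i _ => term_ge (v i) _ (hv i)
  rw [Finset.sum_sub_distrib] at h2
  linarith

lemma exists_min (Φ : Matrix (Ix d K) (Fin K) ℝ) (hΦ : Φᵀ * Φ = 1) (v : Ix d K → ℝ)
    (hv : ∀ i, 0 < v i) : ∃ f0 : Fin K → ℝ, ∀ f, F Φ v f0 ≤ F Φ v f := by
  refine (continuous_F Φ v).exists_forall_le ?_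
  refine Filter.tendsto_atTop_mono (F_ge Φ hΦ v hv) ?_
  exact Filter.tendsto_atTop_add_const_right _ _ (tendsto_norm_cocompact_atTop)

lemma crit (Φ : Matrix (Ix d K) (Fin K) ℝ) (v : Ix d K → ℝ) (f0 : Fin K → ℝ)
    (hmin : ∀ f, F Φ v f0 ≤ F Φ v f) (a : Fin K) :
    ∑ i, (v i * Real.exp (-(∑ b, Φ i b * f0 b)) - 1) * Φ i a = 0 := by
  classical
  have hl : ∀ (i : Ix d K) (t : ℝ), ∑ b, Φ i b * (f0 + t • (Pi.single a (1:ℝ) : Fin K → ℝ)) b
      = (∑ b, Φ i b * f0 b) + t * Φ i a := by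
    intro i t
    simp only [Pi.add_apply, Pi.smul_apply, smul_eq_mul, mul_add, Finset.sum_add_distrib]
    congr 1
    rw [Finset.sum_eq_single a]
    · simp [mul_comm]
    · intro b _ hb
      simp [Pi.single_eq_of_ne hb]
    · simp
  have hd : HasDerivAt (fun t : ℝ => F Φ v (f0 + t • (Pi.single a (1:ℝ) : Fin K → ℝ)))
      (∑ i, (v i * (Real.exp (-((∑ b, Φ i b * f0 b) + 0 * Φ i a)) * (-(1 * Φ i a)))
        + 1 * Φ i a)) 0 := by
    have : (fun t : ℝ => F Φ v (f0 + t • (Pi.single a (1:ℝ) : Fin K → ℝ)))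
        = fun t : ℝ => ∑ i, (v i * Real.exp (-((∑ b, Φ i b * f0 b) + t * Φ i a))
          + ((∑ b, Φ i b * f0 b) + t * Φ i a)) := by
      funext t
      unfold F
      refine Finset.sum_congr rfl fun i _ => ?_
      rw [hl i t]
    rw [this]
    refine HasDerivAt.fun_sum fun i _ => ?_
    have h1 : HasDerivAt (fun t : ℝ => (∑ b, Φ i b * f0 b) + t * Φ i a) (1 * Φ i a) 0 :=
      ((hasDerivAt_id (0:ℝ)).mul_const (Φ i a)).const_add _
    exact ((h1.neg.exp).const_mul (v i)).add h1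
  have hm : IsLocalMin (fun t : ℝ => F Φ v (f0 + t • (Pi.single a (1:ℝ) : Fin K → ℝ))) 0 := by
    refine Filter.Eventually.of_forall fun t => ?_
    simp only [zero_smul, add_zero]
    exact hmin _
  have h0 := hm.hasDerivAt_eq_zero hd
  have h1 : ∑ i, (v i * Real.exp (-(∑ b, Φ i b * f0 b)) - 1) * Φ i a
      = -∑ i, (v i * (Real.exp (-((∑ b, Φ i b * f0 b) + 0 * Φ i a)) * (-(1 * Φ i a)))
        + 1 * Φ i a) := by
    rw [← Finset.sum_neg_distrib]
    refine Finset.sum_congr rfl fun i _ => ?_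
    rw [zero_mul, add_zero]
    ring
  rw [h1, h0, neg_zero]

end CVS

open CVS in
theorem CVS_thm (hFRI : Stmt_FRI) : Stmt_CVS := by
  intro d K U Φ b hF w hw
  obtain ⟨hproj, -⟩ := hFRI d K U Φ hF
  obtain ⟨hΦ, -, -⟩ := hF
  set v : Ix d K → ℝ := fun i => w i * Real.exp (-b i) with hv
  have hv0 : ∀ i, 0 < v i := fun i => mul_pos (hw i) (Real.exp_pos _)
  obtain ⟨f0, hf0⟩ := exists_min Φ hΦ v hv0
  set y : Ix d K → ℝ := fun i => v i * Real.exp (-(∑ b, Φ i b * f0 b)) with hy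
  have hy0 : ∀ i, 0 < y i := fun i => mul_pos (hv0 i) (Real.exp_pos _)
  have hc : Φᵀ.mulVec (fun i => y i - 1) = 0 := by
    funext a
    have := crit Φ v f0 hf0 a
    simp only [Matrix.mulVec, dotProduct, Matrix.transpose_apply, Pi.zero_apply]
    rw [← this]
    exact Finset.sum_congr rfl fun i _ => by rw [hy]; ring
  set x : Fin d → ℝ := fun a => -(((Uᵀ * U)⁻¹ * Uᵀ).mulVec (fun i => y i - 1)) a with hx
  have hyx : ∀ i, yv U x i = y i := by
    intro i
    have h1 : (Φ * Φᵀ + U * (Uᵀ * U)⁻¹ * Uᵀ).mulVec (fun i => y i - 1) = fun i => y i - 1 := by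
      rw [hproj, Matrix.one_mulVec]
    rw [Matrix.add_mulVec, ← Matrix.mulVec_mulVec, hc, Matrix.mulVec_zero, zero_add,
      Matrix.mul_assoc, ← Matrix.mulVec_mulVec] at h1
    have h2 := congrFun h1 i
    unfold yv
    have h3 : ∑ a, U i a * x a = -(U.mulVec (((Uᵀ * U)⁻¹ * Uᵀ).mulVec (fun i => y i - 1))) i := by
      rw [hx]
      simp only [Matrix.mulVec, dotProduct, mul_neg, Finset.sum_neg_distrib]
    rw [h3, h2]
    ring
  refine ⟨Sum.elim x f0, ?_, ?_⟩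
  · show (fun a => Sum.elim x f0 (Sum.inl a)) ∈ Pol U
    simp only [Sum.elim_inl]
    intro i
    rw [show (fun a => x a) = x from rfl, hyx i]
    exact hy0 i
  · funext i
    unfold Th
    simp only [Sum.elim_inl, Sum.elim_inr]
    rw [show (fun a => x a) = x from rfl, show (fun a => f0 a) = f0 from rfl, hyx i, hy]
    simp only [hv, sl]
    rw [mul_assoc, mul_assoc, ← Real.exp_add, ← Real.exp_add,
      show -b i + (-(∑ b, Φ i b * f0 b) + (b i + ∑ a, Φ i a * f0 a)) = 0 by ring, Real.exp_zero,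
      mul_one]

end Pool.LH60
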