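import Pool.Agent.Work.MP_1c7b0d_lh60.Interface

/-!
Block DETI (helper45): the determinant inequality of Ball and Barthe.
-/

open MeasureTheory Matrix
open scoped BigOperators

namespace Pool.LH60

/-- orthogonal diagonalisation of a real symmetric matrix -/
theorem DETI.diag {n : Type*} [Fintype n] [DecidableEq n] {A : Matrix n n ℝ}
    (hA : A.IsHermitian) : ∃ (Q : Matrix n n ℝ) (e : n → ℝ), Qᵀ * Q = 1 ∧ Q * Qᵀ = 1 ∧
      Qᵀ * A * Q = Matrix.diagonal e ∧ A.det = ∏ i, e i := by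
  have hst : star (hA.eigenvectorUnitary : Matrix n n ℝ) =
      (hA.eigenvectorUnitary : Matrix n n ℝ)ᵀ := by
    rw [Matrix.star_eq_conjTranspose, Matrix.conjTranspose_eq_transpose_of_trivial]
  refine ⟨(hA.eigenvectorUnitary : Matrix n n ℝ), hA.eigenvalues, ?_, ?_, ?_, ?_⟩
  · rw [← hst]
    exact Unitary.coe_star_mul_self hA.eigenvectorUnitary
  · rw [← hst]
    exact Unitary.coe_mul_star_self hA.eigenvectorUnitary
  · have h := hA.conjStarAlgAut_star_eigenvectorUnitary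
    rw [Unitary.conjStarAlgAut_star_apply] at h
    rw [← hst]
    exact h
  · have h := hA.det_eq_prod_eigenvalues
    simpa using h

/-- the diagonal entries of `Bᵀ diag(w) B` -/
theorem DETI.entry {ι κ : Type*} [Fintype ι] [DecidableEq ι] [Fintype κ]
    (B : Matrix ι κ ℝ) (w : ι → ℝ) (k : κ) :
    (Bᵀ * Matrix.diagonal w * B) k k = ∑ i, w i * B i k ^ 2 := by
  rw [Matrix.mul_apply]
  refine Finset.sum_congr rfl fun i _ => ?_
  rw [Matrix.mul_diagonal, Matrix.transpose_apply]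
  ring

theorem DETI_thm : Stmt_DETI := by
  intro ι _ _ K Ψ y l hy hl h1
  have hM : (Dm Ψ (fun i => y i * l i)).IsHermitian := by
    rw [Matrix.IsHermitian, Matrix.conjTranspose_eq_transpose_of_trivial, Dm,
      Matrix.transpose_mul, Matrix.transpose_mul, Matrix.transpose_transpose,
      Matrix.diagonal_transpose, Matrix.mul_assoc]
  obtain ⟨Q, e, hQ1, hQ2, hQ3, hdet⟩ := DETI.diag hM
  -- the coefficients
  have hsum1 : ∀ k, ∑ i, y i * (Ψ * Q) i k ^ 2 = 1 := by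
    intro k
    rw [← DETI.entry]
    have : (Ψ * Q)ᵀ * Matrix.diagonal y * (Ψ * Q) = 1 := by
      have h2 : (Ψ * Q)ᵀ * Matrix.diagonal y * (Ψ * Q) = Qᵀ * Dm Ψ y * Q := by
        rw [Dm, Matrix.transpose_mul]
        simp only [Matrix.mul_assoc]
      rw [h2, h1, Matrix.mul_one, hQ1]
    rw [this, Matrix.one_apply_eq]
  have hsum2 : ∀ k, ∑ i, (y i * l i) * (Ψ * Q) i k ^ 2 = e k := by
    intro k
    rw [← DETI.entry]
    have : (Ψ * Q)ᵀ * Matrix.diagonal (fun i => y i * l i) * (Ψ * Q) = Matrix.diagonal e := by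
      rw [← hQ3, Dm, Matrix.transpose_mul]
      simp only [Matrix.mul_assoc]
    rw [this, Matrix.diagonal_apply_eq]
  have hsum3 : ∀ i, ∑ k, (Ψ * Q) i k ^ 2 = cn Ψ i := by
    intro i
    have h2 : (Ψ * Q) * (Ψ * Q)ᵀ = Ψ * Ψᵀ := by
      rw [Matrix.transpose_mul, Matrix.mul_assoc, ← Matrix.mul_assoc Q, hQ2, Matrix.one_mul]
    have h3 := congrFun (congrFun h2 i) i
    rw [Matrix.mul_apply, Matrix.mul_apply] at h3
    simp only [Matrix.transpose_apply] at h3
    rw [cn]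
    calc ∑ k, (Ψ * Q) i k ^ 2 = ∑ k, (Ψ * Q) i k * (Ψ * Q) i k :=
          Finset.sum_congr rfl fun _ _ => sq _
      _ = ∑ k, Ψ i k * Ψ i k := h3
      _ = _ := Finset.sum_congr rfl fun _ _ => (sq _).symm
  have hlog : ∀ k, ∑ i, (y i * (Ψ * Q) i k ^ 2) * Real.log (l i) ≤ Real.log (e k) ∧ 0 < e k := by
    intro k
    have hw0 : ∀ i ∈ (Finset.univ : Finset ι), 0 ≤ y i * (Ψ * Q) i k ^ 2 := fun i _ =>
      mul_nonneg (hy i) (sq_nonneg _)
    have hj := strictConcaveOn_log_Ioi.concaveOn.le_map_sum (t := Finset.univ)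
      (w := fun i => y i * (Ψ * Q) i k ^ 2) (p := l) hw0 (hsum1 k) (fun i _ => hl i)
    simp only [smul_eq_mul] at hj
    have he : ∑ i, y i * (Ψ * Q) i k ^ 2 * l i = e k := by
      rw [← hsum2 k]
      exact Finset.sum_congr rfl fun i _ => by ring
    rw [he] at hj
    refine ⟨hj, ?_⟩
    rw [← he]
    obtain ⟨i, hi⟩ : ∃ i, 0 < y i * (Ψ * Q) i k ^ 2 := by
      by_contra hcon
      push Not at hcon
      have h5 : ∑ i, y i * (Ψ * Q) i k ^ 2 ≤ 0 := Finset.sum_nonpos fun i _ => hcon i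
      rw [hsum1 k] at h5
      linarith
    exact Finset.sum_pos' (fun j hj => mul_nonneg (hw0 j hj) (hl j).le)
      ⟨i, Finset.mem_univ _, mul_pos hi (hl i)⟩
  rw [hdet]
  have hpos : 0 < ∏ k, e k := Finset.prod_pos fun k _ => (hlog k).2
  have hl' : ∏ i, (l i) ^ (y i * cn Ψ i) = Real.exp (∑ i, (y i * cn Ψ i) * Real.log (l i)) := by
    rw [Real.exp_sum]
    refine Finset.prod_congr rfl fun i _ => ?_
    rw [Real.rpow_def_of_pos (hl i), mul_comm]
  rw [hl', ← Real.exp_log hpos, Real.exp_le_exp, Real.log_prod fun k _ => (hlog k).2.ne']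
  calc ∑ i, (y i * cn Ψ i) * Real.log (l i)
      = ∑ i, ∑ k, (y i * (Ψ * Q) i k ^ 2) * Real.log (l i) := by
        refine Finset.sum_congr rfl fun i _ => ?_
        rw [← hsum3 i, Finset.mul_sum, Finset.sum_mul]
    _ = ∑ k, ∑ i, (y i * (Ψ * Q) i k ^ 2) * Real.log (l i) := Finset.sum_comm
    _ ≤ ∑ k, Real.log (e k) := Finset.sum_le_sum fun k _ => (hlog k).1

end Pool.LH60
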