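import Pool.Agent.Work.MP_1c7b0d_lh60.Interface

open MeasureTheory Matrix
open scoped BigOperators

namespace Pool.LH60

theorem EQP_thm (hFRI : Stmt_FRI) : Stmt_EQP := by
  intro d K U Φ hd hK hF hc hD
  obtain ⟨hid, -, -, -, -⟩ := hFRI d K U Φ hF
  have hΦ : Φᵀ * Φ = 1 := hF.1
  have hd0 : (0:ℝ) < d := by exact_mod_cast hd
  have hK0 : (0:ℝ) < K := by exact_mod_cast hK
  set q : ℝ := K / ((d:ℝ) + K) with hq
  have hq0 : 0 < q := by positivity
  -- step 1: the trilinear form vanishes
  have h1 : ∀ (a : Fin d) (b c : Fin K), ∑ i, U i a * (Φ i b * Φ i c) = 0 := by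
    intro a b c
    set T : ℝ := 1 + ∑ i, |U i a| with hT
    have hT0 : 0 < T := by positivity
    have hx : (fun a' => if a' = a then 1 / T else 0 : Fin d → ℝ) ∈ Pol U := by
      intro i
      have e1 : ∑ a', U i a' * (if a' = a then 1 / T else 0) = U i a * (1 / T) := by
        simp
      rw [yv, e1]
      have e2 : U i a ≤ ∑ i, |U i a| :=
        le_trans (le_abs_self _) (Finset.single_le_sum (f := fun i => |U i a|)
          (fun j _ => abs_nonneg _) (Finset.mem_univ i))
      have e3 : U i a * (1 / T) < 1 := by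
        rw [mul_one_div, div_lt_one hT0]; linarith
      linarith
    have h := congrFun (congrFun (hD _ hx) b) c
    have h' := congrFun (congrFun hΦ b) c
    rw [Dm, Matrix.mul_apply] at h
    rw [Matrix.mul_apply] at h'
    have e4 : ∀ i, (Φᵀ * diagonal (yv U (fun a' => if a' = a then 1 / T else 0))) b i * Φ i c
        = Φᵀ b i * Φ i c - (1/T) * (U i a * (Φ i b * Φ i c)) := by
      intro i
      have e1 : ∑ a', U i a' * (if a' = a then 1 / T else 0) = U i a * (1 / T) := by
        simp
      rw [Matrix.mul_diagonal, yv, e1, Matrix.transpose_apply]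
      ring
    rw [Finset.sum_congr rfl (fun i _ => e4 i), Finset.sum_sub_distrib, ← Finset.mul_sum, h'] at h
    have e5 : (1/T) * ∑ i, U i a * (Φ i b * Φ i c) = 0 := by linarith
    rcases mul_eq_zero.mp e5 with h0 | h0
    · exact absurd h0 (by positivity)
    · exact h0
  -- step 2
  have h2 : ∀ (i : Ix d K) (b c : Fin K), Φ i b * Φ i c
      = ∑ j, (Φ * Φᵀ) i j * (Φ j b * Φ j c) := by
    intro i b c
    have hv := congrArg (fun M => M.mulVec (fun j => Φ j b * Φ j c)) hid
    simp only [Matrix.add_mulVec, Matrix.one_mulVec] at hv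
    have hU0 : Uᵀ.mulVec (fun j => Φ j b * Φ j c) = 0 := by
      funext a
      simp only [Matrix.mulVec, dotProduct, Matrix.transpose_apply, Pi.zero_apply]
      exact h1 a b c
    have hzero : (U * (Uᵀ * U)⁻¹ * Uᵀ).mulVec (fun j => Φ j b * Φ j c) = 0 := by
      rw [← Matrix.mulVec_mulVec, hU0, Matrix.mulVec_zero]
    rw [hzero, add_zero] at hv
    have := congrFun hv i
    simp only [Matrix.mulVec, dotProduct] at this
    exact this.symm
  have hsym : ∀ i j, (Φ * Φᵀ) i j = (Φ * Φᵀ) j i := by
    intro i j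
    simp only [Matrix.mul_apply, Matrix.transpose_apply]
    exact Finset.sum_congr rfl fun a _ => mul_comm _ _
  -- step 3
  have h3 : ∀ i k b, (Φ * Φᵀ) i k * Φ i b = (Φ * Φᵀ) i k * Φ k b := by
    have key : ∀ i k b, (Φ * Φᵀ) i k * Φ i b = ∑ j, (Φ * Φᵀ) i j * (Φ * Φᵀ) j k * Φ j b := by
      intro i k b
      have e1 : (Φ * Φᵀ) i k * Φ i b = ∑ c, (Φ i b * Φ i c) * Φ k c := by
        rw [Matrix.mul_apply, Finset.sum_mul]
        refine Finset.sum_congr rfl fun c _ => ?_
        rw [Matrix.transpose_apply]; ring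
      rw [e1]
      have e2 : ∀ c, (Φ i b * Φ i c) * Φ k c = ∑ j, (Φ * Φᵀ) i j * (Φ j b * Φ j c) * Φ k c := by
        intro c
        rw [h2 i b c, Finset.sum_mul]
      rw [Finset.sum_congr rfl (fun c _ => e2 c), Finset.sum_comm]
      refine Finset.sum_congr rfl fun j _ => ?_
      have e3 : (Φ * Φᵀ) j k = ∑ c, Φ j c * Φ k c := by
        rw [Matrix.mul_apply]; rfl
      rw [e3, Finset.mul_sum, Finset.sum_mul]
      refine Finset.sum_congr rfl fun c _ => ?_
      ring
    intro i k b
    rw [key i k b, hsym i k, key k i b]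
    refine Finset.sum_congr rfl fun j _ => ?_
    rw [hsym i j, hsym j k]; ring
  have hdiag : ∀ i, (Φ * Φᵀ) i i = q := by
    intro i
    rw [← hc i, cn, Matrix.mul_apply]
    refine Finset.sum_congr rfl fun a _ => ?_
    rw [Matrix.transpose_apply, sq]
  -- step 4
  have h4 : ∀ i k, (Φ * Φᵀ) i k ≠ 0 → Φ i = Φ k := by
    intro i k h
    funext b
    exact mul_left_cancel₀ h (h3 i k b)
  have h5 : ∀ i k, Φ i = Φ k → (Φ * Φᵀ) i k = q := by
    intro i k h
    rw [← hdiag i, Matrix.mul_apply, Matrix.mul_apply]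
    refine Finset.sum_congr rfl fun a _ => ?_
    rw [Matrix.transpose_apply, Matrix.transpose_apply, h]
  -- step 5: class sizes
  classical
  have h6 : ∀ i, ((Finset.univ.filter (fun j => Φ j = Φ i)).card : ℝ) * q = 1 := by
    intro i
    have e1 : (Φ * Φᵀ) * (Φ * Φᵀ) = Φ * Φᵀ := by
      calc (Φ * Φᵀ) * (Φ * Φᵀ) = Φ * (Φᵀ * Φ) * Φᵀ := by simp only [Matrix.mul_assoc]
        _ = Φ * Φᵀ := by rw [hΦ, Matrix.mul_one]
    have e2 := congrFun (congrFun e1 i) i
    rw [Matrix.mul_apply, hdiag] at e2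
    have e3 : ∀ j, (Φ * Φᵀ) i j * (Φ * Φᵀ) j i = if Φ j = Φ i then q * q else 0 := by
      intro j
      by_cases h : Φ j = Φ i
      · rw [if_pos h, h5 i j h.symm, h5 j i h]
      · rw [if_neg h]
        have : (Φ * Φᵀ) i j = 0 := by
          by_contra h'
          exact h (h4 i j h').symm
        rw [this, zero_mul]
    rw [Finset.sum_congr rfl (fun j _ => e3 j), ← Finset.sum_filter, Finset.sum_const,
      nsmul_eq_mul] at e2
    have : q * (((Finset.univ.filter (fun j => Φ j = Φ i)).card : ℝ) * q - 1) = 0 := by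
      linarith
    rcases mul_eq_zero.mp this with h | h
    · exact absurd h hq0.ne'
    · linarith
  set R : Finset (Fin K → ℝ) := Finset.univ.image (fun i => Φ i) with hR
  have h7 : (R.card : ℝ) = K := by
    have e1 : (R.card : ℝ) = ∑ r ∈ R, ∑ i ∈ Finset.univ.filter (fun i => Φ i = r), q := by
      rw [Finset.card_eq_sum_ones]
      push_cast
      refine Finset.sum_congr rfl fun r hr => ?_
      obtain ⟨i, -, rfl⟩ := Finset.mem_image.mp hr
      rw [Finset.sum_const, nsmul_eq_mul, h6 i]
    rw [e1, Finset.sum_fiberwise_of_maps_to (s := Finset.univ) (t := R) (g := fun i => Φ i)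
      (fun i _ => Finset.mem_image_of_mem _ (Finset.mem_univ i)) (fun _ => q),
      Finset.sum_const, nsmul_eq_mul, Finset.card_univ, Fintype.card_sum, Fintype.card_fin,
      Fintype.card_fin]
    push_cast
    rw [hq]
    field_simp
  have h8 : R.card = K := by exact_mod_cast h7
  have e : R ≃ Fin K := Finset.equivFinOfCardEq h8
  refine ⟨fun i => e ⟨Φ i, Finset.mem_image_of_mem _ (Finset.mem_univ i)⟩, ?_⟩
  intro i j
  by_cases h : Φ i = Φ j
  · rw [if_pos (by simp only [h]), h5 i j h]
  · rw [if_neg]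
    · by_contra h'
      exact h (h4 i j h')
    · intro h'
      have := e.injective h'
      exact h (by simpa using congrArg Subtype.val this)

end Pool.LH60
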