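import Pool.Agent.Work.MP_1c7b0d_lh60.Interface

/-! EXI: existence of the product of congruent regular simplices. -/

set_option autoImplicit false

open MeasureTheory Matrix
open scoped BigOperators

namespace Pool.LH60

namespace EXI

/-- the columns of `[B|Φ]` are an orthonormal basis -/
theorem complete {d K : ℕ} (B : Matrix (Ix d K) (Fin d) ℝ) (Φ : Matrix (Ix d K) (Fin K) ℝ)
    (h1 : Bᵀ * B = 1) (h2 : Bᵀ * Φ = 0) (h3 : Φᵀ * Φ = 1) : B * Bᵀ + Φ * Φᵀ = 1 := by
  have h4 : Φᵀ * B = 0 := by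
    have : (Bᵀ * Φ)ᵀ = 0 := by rw [h2]; rfl
    rwa [transpose_mul, transpose_transpose] at this
  have h5 : (fromCols B Φ)ᵀ * fromCols B Φ = 1 := by
    rw [transpose_fromCols, fromRows_mul_fromCols, h1, h2, h3, h4, fromBlocks_one]
  have h6 : fromCols B Φ * (fromCols B Φ)ᵀ = 1 := mul_eq_one_comm.1 h5
  rwa [transpose_fromCols, fromCols_mul_fromRows] at h6

end EXI

theorem EXI_thm (hONC : Stmt_ONC) : Stmt_EXI := by
  intro d K hd hK hdvd
  obtain ⟨q, rfl⟩ := hdvd
  have hq : 1 ≤ q := by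
    rcases Nat.eq_zero_or_pos q with h | h
    · subst h; simp at hd
    · exact h
  have hcard : K * q + K = K * (q + 1) := by ring
  let e : Ix (K * q) K ≃ Fin K × Fin (q + 1) :=
    finSumFinEquiv.trans ((finCongr hcard).trans finProdFinEquiv.symm)
  have hm : (0 : ℝ) < (q : ℝ) + 1 := by positivity
  set s : ℝ := 1 / Real.sqrt ((q : ℝ) + 1) with hs
  have hss : s * s = 1 / ((q : ℝ) + 1) := by
    rw [hs, div_mul_div_comm, Real.mul_self_sqrt hm.le, one_mul]
  obtain ⟨Φ, hΦ⟩ : ∃ Φ : Matrix (Ix (K * q) K) (Fin K) ℝ,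
      ∀ i a, Φ i a = if (e i).1 = a then s else 0 :=
    ⟨Matrix.of fun i a => if (e i).1 = a then s else 0, fun _ _ => rfl⟩
  have hΦ1 : Φᵀ * Φ = 1 := by
    ext a b
    rw [mul_apply]
    simp only [transpose_apply, hΦ]
    rw [← e.symm.sum_comp, Fintype.sum_prod_type]
    simp only [Equiv.apply_symm_apply]
    rw [Finset.sum_comm]
    simp only [one_apply]
    by_cases hab : a = b
    · subst hab
      simp [hss]
      field_simp
    · rw [if_neg hab]
      refine Finset.sum_eq_zero fun j _ => Finset.sum_eq_zero fun c _ => ?_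
      by_cases h1 : c = a
      · have h2 : c ≠ b := fun h => hab (h1.symm.trans h)
        rw [if_neg h2, mul_zero]
      · rw [if_neg h1, zero_mul]
  have hΦ2 : ∀ i j, (Φ * Φᵀ) i j = if (e i).1 = (e j).1 then 1 / ((q : ℝ) + 1) else 0 := by
    intro i j
    rw [mul_apply]
    simp only [transpose_apply, hΦ]
    by_cases h : (e i).1 = (e j).1
    · rw [if_pos h, h]
      simp [hss]
    · rw [if_neg h]
      refine Finset.sum_eq_zero fun c _ => ?_
      by_cases h1 : (e i).1 = c
      · have h2 : ¬ (e j).1 = c := fun h' => h (h1.trans h'.symm)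
        rw [if_neg h2, mul_zero]
      · rw [if_neg h1, zero_mul]
  obtain ⟨B, hB1, hB2⟩ := hONC (Ix (K * q) K) K (K * q) (by simp; ring) Φ
  have hW := EXI.complete B Φ hB1 hB2 hΦ1
  have hBB : ∀ i j, (B * Bᵀ) i j = (1 : Matrix (Ix (K * q) K) (Ix (K * q) K) ℝ) i j -
      (Φ * Φᵀ) i j := by
    intro i j
    have := congrFun (congrFun hW i) j
    rw [Matrix.add_apply] at this
    linarith
  have hK0 : (0 : ℝ) < K := by exact_mod_cast hK
  have hq0 : (0 : ℝ) < q := by exact_mod_cast hq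
  set r : ℝ := Real.sqrt (((q : ℝ) + 1) / q) with hr
  have hrr : r * r = ((q : ℝ) + 1) / q := Real.mul_self_sqrt (by positivity)
  have hUU : ∀ i j, ((r • B) * (r • B)ᵀ) i j = ((q : ℝ) + 1) / q * (B * Bᵀ) i j := by
    intro i j
    rw [transpose_smul, smul_mul, Matrix.mul_smul, smul_smul, hrr, Matrix.smul_apply, smul_eq_mul]
  refine ⟨r • B, ?_, fun i => (e i).1, ?_, ?_⟩
  · intro i
    have h1 := hUU i i
    rw [hBB, hΦ2, if_pos rfl, one_apply_eq] at h1
    have h2 : ((r • B) * (r • B)ᵀ) i i = ∑ a, (r • B) i a ^ 2 := by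
      rw [mul_apply]
      refine Finset.sum_congr rfl fun a _ => ?_
      rw [transpose_apply, sq]
    rw [← h2, h1]
    field_simp
    ring
  · intro i j hij hp
    have hp' : (e i).1 = (e j).1 := hp
    rw [hUU, hBB, hΦ2, if_pos hp', one_apply_ne hij]
    push_cast
    field_simp
    ring
  · intro i j hp
    have hp' : ¬ (e i).1 = (e j).1 := hp
    have hij : i ≠ j := fun h => hp' (by rw [h])
    rw [hUU, hBB, hΦ2, if_neg hp', one_apply_ne hij]
    ring

end Pool.LH60
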