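import Pool.Agent.Work.MP_1c7b0d_lh60.Interface

open MeasureTheory Matrix
open scoped BigOperators

namespace Pool.LH60

namespace EXV

variable {d K : ℕ}

/-- the one dimensional integral -/
theorem one_dim (hZB : Stmt_ZB) (m s : ℝ) (hm : 0 < m) (hs : 0 < s) :
    Integrable (fun t : ℝ => Real.exp (m * (s * t - Real.exp (s * t)))) ∧
    ∫ t : ℝ, Real.exp (m * (s * t - Real.exp (s * t))) = s⁻¹ * (Real.Gamma m * (1/m) ^ m) := by
  obtain ⟨h1, h2⟩ := hZB (1/m) (by positivity)
  have e : (fun t : ℝ => Real.exp ((t - Real.exp t) / (1/m))) = fun t => Real.exp (m * (t - Real.exp t)) := by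
    funext t
    congr 1
    field_simp
  rw [e] at h1 h2
  have e1 : (1:ℝ) / (1/m) = m := by field_simp
  rw [e1] at h2
  constructor
  · exact h1.comp_mul_left' hs.ne'
  · have := MeasureTheory.Measure.integral_comp_mul_left (fun t => Real.exp (m * (t - Real.exp t))) s
    rw [this, h2, abs_of_pos (inv_pos.mpr hs), smul_eq_mul]

theorem exp_prod (hZB : Stmt_ZB) (m s : ℝ) (hm : 0 < m) (hs : 0 < s) :
    ∫⁻ f : Fin K → ℝ, ENNReal.ofReal (Real.exp (∑ a, m * (s * f a - Real.exp (s * f a))))
      = ENNReal.ofReal ((s⁻¹ * (Real.Gamma m * (1/m) ^ m)) ^ K) := by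
  obtain ⟨h1, h2⟩ := one_dim hZB m s hm hs
  have hfun : (fun f : Fin K → ℝ => Real.exp (∑ a, m * (s * f a - Real.exp (s * f a))))
      = fun f => ∏ a, Real.exp (m * (s * f a - Real.exp (s * f a))) := by
    funext f
    rw [Real.exp_sum]
  have hI : Integrable (fun f : Fin K → ℝ => Real.exp (∑ a, m * (s * f a - Real.exp (s * f a)))) := by
    rw [hfun]
    exact Integrable.fintype_prod (fun _ => h1)
  rw [← ofReal_integral_eq_lintegral_ofReal hI
    (Filter.Eventually.of_forall fun _ => (Real.exp_pos _).le), hfun,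
    integral_fintype_prod_volume_eq_prod (fun (_ : Fin K) (t : ℝ) => Real.exp (m * (s * t - Real.exp (s * t)))),
    Finset.prod_const, h2, Finset.card_univ, Fintype.card_fin]

end EXV

theorem EXV_thm (hCVT : Stmt_CVT) (hSIZ : Stmt_SIZ) (hZB : Stmt_ZB) : Stmt_EXV := by
  intro d K U hd hK hU hP
  obtain ⟨p, hin, hout⟩ := hP
  have hd0 : (0:ℝ) < d := by exact_mod_cast hd
  have hK0 : (0:ℝ) < K := by exact_mod_cast hK
  have hsz := hSIZ d K U p hd hK hU hin hout
  set n : ℝ := (d:ℝ) + K with hn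
  have hn0 : 0 < n := by positivity
  set m : ℝ := n / K with hm
  have hm0 : 0 < m := by positivity
  have hsz' : ∀ a, ((Finset.univ.filter (fun i => p i = a)).card : ℝ) = m := by
    intro a
    rw [hm, eq_div_iff hK0.ne', hsz a]
  set q : ℝ := K / n with hq
  have hq0 : 0 < q := by positivity
  have hmq : m * q = 1 := by rw [hm, hq]; field_simp
  set s : ℝ := Real.sqrt q with hs
  have hs0 : 0 < s := Real.sqrt_pos.mpr hq0
  have hss : s * s = q := Real.mul_self_sqrt hq0.le
  set Φ : Matrix (Ix d K) (Fin K) ℝ := fun i a => if p i = a then s else 0 with hΦ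
  have hΦΦ : ∀ i j, (Φ * Φᵀ) i j = if p i = p j then q else 0 := by
    intro i j
    rw [mul_apply]
    simp only [transpose_apply, hΦ]
    by_cases h : p i = p j
    · rw [if_pos h, h]
      simp [hss]
    · rw [if_neg h]
      refine Finset.sum_eq_zero fun c _ => ?_
      by_cases h1 : p i = c
      · have h2 : ¬ p j = c := fun h' => h (h1.trans h'.symm)
        rw [if_neg h2, mul_zero]
      · rw [if_neg h1, zero_mul]
  set r : ℝ := Real.sqrt (d / n) with hr
  have hrr : r * r = d / n := Real.mul_self_sqrt (by positivity)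
  have hr0 : 0 < r := Real.sqrt_pos.mpr (by positivity)
  have hWW : fromCols (r • U) Φ * (fromCols (r • U) Φ)ᵀ = (1 : Matrix (Ix d K) (Ix d K) ℝ) := by
    rw [transpose_fromCols, fromCols_mul_fromRows]
    ext i j
    rw [Matrix.add_apply, hΦΦ, transpose_smul, Matrix.smul_mul, Matrix.mul_smul, smul_smul, hrr,
      Matrix.smul_apply, smul_eq_mul]
    by_cases hij : i = j
    · subst hij
      have h1 : (U * Uᵀ) i i = 1 := by
        rw [mul_apply, ← hU i]
        refine Finset.sum_congr rfl fun a _ => ?_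
        rw [transpose_apply, sq]
      rw [h1, if_pos rfl, one_apply_eq, mul_one, hq, hn]
      field_simp
    · rw [one_apply_ne hij]
      by_cases h : p i = p j
      · rw [hin i j hij h, if_pos h, hq]
        field_simp
        ring
      · rw [hout i j h, if_neg h]
        ring
  have hWT : (fromCols (r • U) Φ)ᵀ * fromCols (r • U) Φ = (1 : Matrix (Ix d K) (Ix d K) ℝ) :=
    mul_eq_one_comm.1 hWW
  rw [transpose_fromCols, fromRows_mul_fromCols, ← fromBlocks_one, fromBlocks_inj] at hWT
  obtain ⟨hA, -, hB, hC⟩ := hWT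
  have hUU : Uᵀ * U = (n / d) • (1 : Matrix (Fin d) (Fin d) ℝ) := by
    rw [transpose_smul, Matrix.smul_mul, Matrix.mul_smul, smul_smul, hrr] at hA
    rw [← hA, smul_smul]
    have : n / d * (d / n) = 1 := by field_simp
    rw [this, one_smul]
  have hΦU : Φᵀ * U = 0 := by
    rw [Matrix.mul_smul] at hB
    exact (smul_eq_zero.mp hB).resolve_left hr0.ne'
  have hdet : (Uᵀ * U).det = (n / d) ^ d := by
    rw [hUU, det_smul, det_one, mul_one, Fintype.card_fin]
  have hdet0 : (Uᵀ * U).det ≠ 0 := by rw [hdet]; positivity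
  have hF : IsFrame U Φ := ⟨hC, hΦU, hdet0⟩
  -- class sums
  have hcl : ∀ (a : Fin K) (b : Fin d), ∑ i ∈ Finset.univ.filter (fun i => p i = a), U i b = 0 := by
    intro a b
    have h := congrFun (congrFun hΦU a) b
    rw [mul_apply] at h
    simp only [transpose_apply, hΦ, Matrix.zero_apply] at h
    have h2 : ∑ i, (if p i = a then s else 0) * U i b
        = s * ∑ i ∈ Finset.univ.filter (fun i => p i = a), U i b := by
      rw [Finset.mul_sum, Finset.sum_filter]
      refine Finset.sum_congr rfl fun i _ => ?_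
      split_ifs <;> simp
    rw [h2] at h
    exact (mul_eq_zero.mp h).resolve_left hs0.ne'
  have hyc : ∀ (x : Fin d → ℝ) (a : Fin K),
      ∑ i ∈ Finset.univ.filter (fun i => p i = a), yv U x i = m := by
    intro x a
    have e : ∑ i ∈ Finset.univ.filter (fun i => p i = a), yv U x i
        = ((Finset.univ.filter (fun i => p i = a)).card : ℝ)
          - ∑ b, (∑ i ∈ Finset.univ.filter (fun i => p i = a), U i b) * x b := by
      simp only [yv]
      rw [Finset.sum_sub_distrib, Finset.sum_const, nsmul_eq_mul, mul_one, Finset.sum_comm]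
      congr 1
      refine Finset.sum_congr rfl fun b _ => ?_
      rw [Finset.sum_mul]
    rw [e, hsz' a]
    simp [hcl]
  have hDm : ∀ x, Dm Φ (yv U x) = 1 := by
    intro x
    ext a b
    rw [Dm, mul_apply]
    have e : ∀ i, (Φᵀ * diagonal (yv U x)) a i * Φ i b
        = if p i = a then (if a = b then q * yv U x i else 0) else 0 := by
      intro i
      rw [mul_diagonal, transpose_apply]
      simp only [hΦ]
      by_cases h1 : p i = a
      · by_cases h2 : a = b
        · rw [if_pos h1, if_pos (h1.trans h2), if_pos h1, if_pos h2, ← hss]; ring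
        · have h3 : ¬ p i = b := fun h' => h2 (h1.symm.trans h')
          rw [if_neg h3, mul_zero, if_neg h2]; simp
      · rw [if_neg h1, if_neg h1]; ring
    rw [Finset.sum_congr rfl (fun i _ => e i), ← Finset.sum_filter]
    by_cases h2 : a = b
    · subst h2
      simp only [if_true]
      rw [← Finset.mul_sum, hyc x a, one_apply_eq]
      linarith
    · simp only [if_neg h2, Finset.sum_const_zero]
      rw [one_apply_ne h2]
  -- the exponent
  have hexp : ∀ (x : Fin d → ℝ) (f : Fin K → ℝ),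
      ∑ i, (sl Φ (fun _ => 0) f i - yv U x i * Real.exp (sl Φ (fun _ => 0) f i))
        = ∑ a, m * (s * f a - Real.exp (s * f a)) := by
    intro x f
    have hsl : ∀ i, sl Φ (fun _ => 0) f i = s * f (p i) := by
      intro i
      rw [sl, zero_add]
      simp only [hΦ]
      simp
    have e1 : ∑ i, (sl Φ (fun _ => 0) f i - yv U x i * Real.exp (sl Φ (fun _ => 0) f i))
        = ∑ a, ∑ i ∈ Finset.univ.filter (fun i => p i = a),
            (s * f a - yv U x i * Real.exp (s * f a)) := by
      rw [← Finset.sum_fiberwise (s := Finset.univ) (g := p)]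
      refine Finset.sum_congr rfl fun a _ => Finset.sum_congr rfl fun i hi => ?_
      have hpi : p i = a := (Finset.mem_filter.mp hi).2
      rw [hsl i, hpi]
    rw [e1]
    refine Finset.sum_congr rfl fun a _ => ?_
    rw [Finset.sum_sub_distrib, Finset.sum_const, nsmul_eq_mul, hsz' a, ← Finset.sum_mul, hyc x a]
    ring
  have hmain := hCVT d K U Φ (fun _ => 0) hF
  simp only [hDm, det_one, mul_one, hexp] at hmain
  rw [EXV.exp_prod hZB m s hm0 hs0] at hmain
  rw [lintegral_const, Measure.restrict_apply MeasurableSet.univ, Set.univ_inter,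
    ← ENNReal.ofReal_mul (Real.sqrt_nonneg _)] at hmain
  set C : ℝ := Real.sqrt (Uᵀ * U).det * (s⁻¹ * (Real.Gamma m * (1/m) ^ m)) ^ K with hC'
  have hG : 0 < Real.Gamma m := Real.Gamma_pos_of_pos hm0
  have hC0 : 0 < C := by
    have : 0 < Real.sqrt (Uᵀ * U).det := Real.sqrt_pos.mpr (by rw [hdet]; positivity)
    positivity
  have hCV : C * Vopt d K = 1 := by
    have hV : Vopt d K = (d / n) ^ ((d:ℝ)/2) * m ^ ((d:ℝ) + K/2) / Real.Gamma m ^ K := by
      rw [Vopt]
    have h1 : Real.sqrt (Uᵀ * U).det = (n / d) ^ ((d:ℝ)/2) := by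
      rw [hdet, Real.sqrt_eq_rpow, ← Real.rpow_natCast, ← Real.rpow_mul (by positivity)]
      congr 1; ring
    have h2 : (d / n : ℝ) ^ ((d:ℝ)/2) * (n / d) ^ ((d:ℝ)/2) = 1 := by
      rw [← Real.mul_rpow (by positivity) (by positivity)]
      have : (d / n * (n / d) : ℝ) = 1 := by field_simp
      rw [this, Real.one_rpow]
    have h3 : s⁻¹ = m ^ ((1:ℝ)/2) := by
      rw [hs, Real.sqrt_eq_rpow, ← Real.rpow_neg_one, ← Real.rpow_mul hq0.le]
      have : q = m⁻¹ := by rw [hm, hq]; field_simp
      rw [this, Real.inv_rpow hm0.le, ← Real.rpow_neg hm0.le]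
      congr 1; ring
    have h4 : (1/m) ^ m = (m ^ m)⁻¹ := by
      rw [one_div, Real.inv_rpow hm0.le]
    have h5 : m ^ ((d:ℝ) + K/2) * ((m ^ ((1:ℝ)/2)) ^ K * ((m ^ m)⁻¹) ^ K) = 1 := by
      rw [← Real.rpow_natCast (m ^ ((1:ℝ)/2)) K, ← Real.rpow_mul hm0.le,
        inv_pow, ← Real.rpow_natCast (m ^ m) K, ← Real.rpow_mul hm0.le,
        ← Real.rpow_neg hm0.le, ← Real.rpow_add hm0, ← Real.rpow_add hm0]
      have : (d:ℝ) + K/2 + (1/2 * K + -(m * K)) = 0 := by
        have : m * K = d + K := by rw [hm, hn]; field_simp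
        rw [this]; ring
      rw [this, Real.rpow_zero]
    rw [hC', hV, h1, h3, h4, mul_pow, mul_pow]
    have hGK : Real.Gamma m ^ K ≠ 0 := by positivity
    calc (n / d) ^ ((d:ℝ)/2) * ((m ^ ((1:ℝ)/2)) ^ K * (Real.Gamma m ^ K * ((m ^ m)⁻¹) ^ K)) *
        ((d / n) ^ ((d:ℝ)/2) * m ^ ((d:ℝ) + K/2) / Real.Gamma m ^ K)
        = ((d / n : ℝ) ^ ((d:ℝ)/2) * (n / d) ^ ((d:ℝ)/2)) *
          (m ^ ((d:ℝ) + K/2) * ((m ^ ((1:ℝ)/2)) ^ K * ((m ^ m)⁻¹) ^ K)) *
          (Real.Gamma m ^ K / Real.Gamma m ^ K) := by ring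
      _ = 1 := by rw [h2, h5, div_self hGK]; ring
  have hVC : Vopt d K = C⁻¹ := eq_inv_of_mul_eq_one_right hCV
  rw [hVC, ENNReal.ofReal_inv_of_pos hC0]
  exact ENNReal.eq_inv_of_mul_eq_one_left (by rw [mul_comm]; exact hmain)

end Pool.LH60
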