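import Pool.Agent.Work.MP_1c7b0d_lh60.Interface

/-! Block MAIN1S: strict version of the main bound. -/

open MeasureTheory Matrix
open scoped BigOperators

namespace Pool.LH60

/-- `∑ (y_i - 1) ⟨φ_i, f⟩ = 0` -/
theorem m1s_cross {d K : ℕ} {U : Matrix (Ix d K) (Fin d) ℝ} {Φ : Matrix (Ix d K) (Fin K) ℝ}
    (hU : Φᵀ * U = 0) (x : Fin d → ℝ) (f : Fin K → ℝ) :
    ∑ i, (yv U x i - 1) * (∑ a, Φ i a * f a) = 0 := by
  have h1 : ∀ i, yv U x i - 1 = -(U *ᵥ x) i := by
    intro i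
    show 1 - ∑ a, U i a * x a - 1 = -∑ a, U i a * x a
    ring
  have h2 : ∀ i, ∑ a, Φ i a * f a = (Φ *ᵥ f) i := fun i => rfl
  simp only [h1, h2]
  have h3 : (Φ *ᵥ f) ⬝ᵥ (U *ᵥ x) = 0 := by
    rw [Matrix.dotProduct_mulVec, ← Matrix.vecMul_transpose Φ f, Matrix.vecMul_vecMul, hU]
    simp
  have h4 : ∑ i, -(U *ᵥ x) i * (Φ *ᵥ f) i = -((Φ *ᵥ f) ⬝ᵥ (U *ᵥ x)) := by
    rw [dotProduct, ← Finset.sum_neg_distrib]
    exact Finset.sum_congr rfl (fun i _ => by ring)
  rw [h4, h3, neg_zero]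

/-- pointwise bound before the spectral step -/
theorem m1s_ptw (hBLG : Stmt_BLG) {d K : ℕ} {U : Matrix (Ix d K) (Fin d) ℝ}
    {Φ : Matrix (Ix d K) (Fin K) ℝ} (hU : Φᵀ * U = 0) (hS : 0 < (Uᵀ * U).det)
    (b A : Ix d K → ℝ) (x : Fin d → ℝ)
    (hb : ∑ i, b i * (yv U x i - 1) = ∑ i, (A i - 1) * (yv U x i - 1))
    (hy : ∀ i, 0 < yv U x i) (hD : (Dm Φ (yv U x)).PosDef) :
    ENNReal.ofReal (Real.sqrt (Uᵀ * U).det * (Dm Φ (yv U x)).det) *
      (∫⁻ f : Fin K → ℝ,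
        ENNReal.ofReal (Real.exp (∑ i, (sl Φ b f i - yv U x i * Real.exp (sl Φ b f i)))))
    ≤ ENNReal.ofReal (Real.exp (Real.log (Uᵀ * U).det / 2 + (K:ℝ) / 2 * Real.log (2 * Real.pi)
        + (Real.log (Dm Φ (yv U x)).det / 2
            + ∑ i, yv U x i * g (qf Φ (Dm Φ (yv U x))⁻¹ i))
        - ∑ i, yv U x i - ∑ i, (A i - 1) * (yv U x i - 1))) := by
  set y := yv U x with hyd
  set κ : ℝ := ∑ i, (A i - 1) * (y i - 1) with hκ
  have hint : ∀ f : Fin K → ℝ, ∑ i, (sl Φ b f i - y i * Real.exp (sl Φ b f i))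
      = -κ + ∑ i, y i * (sl Φ b f i - Real.exp (sl Φ b f i)) := by
    intro f
    have h1 : ∑ i, (y i - 1) * sl Φ b f i = κ := by
      have h2 : ∀ i, (y i - 1) * sl Φ b f i = b i * (y i - 1) + (y i - 1) * (∑ a, Φ i a * f a) := by
        intro i
        unfold sl
        ring
      rw [Finset.sum_congr rfl (fun i _ => h2 i), Finset.sum_add_distrib, hb, m1s_cross hU x f,
        add_zero]
    have h3 : ∀ i, sl Φ b f i - y i * Real.exp (sl Φ b f i)
        = y i * (sl Φ b f i - Real.exp (sl Φ b f i)) - (y i - 1) * sl Φ b f i := by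
      intro i; ring
    rw [Finset.sum_congr rfl (fun i _ => h3 i), Finset.sum_sub_distrib, h1]
    ring
  have hinner : (∫⁻ f : Fin K → ℝ,
        ENNReal.ofReal (Real.exp (∑ i, (sl Φ b f i - y i * Real.exp (sl Φ b f i)))))
      ≤ ENNReal.ofReal (Real.exp (-κ)) * ENNReal.ofReal (Real.exp ((K:ℝ) / 2 * Real.log (2 * Real.pi)
        - Real.log (Dm Φ y).det / 2
        + ∑ i, y i * (-1 + g (qf Φ (Dm Φ y)⁻¹ i)))) := by
    have h1 : ∀ f : Fin K → ℝ,
        ENNReal.ofReal (Real.exp (∑ i, (sl Φ b f i - y i * Real.exp (sl Φ b f i))))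
        = ENNReal.ofReal (Real.exp (-κ)) *
          ENNReal.ofReal (Real.exp (∑ i, y i * (sl Φ b f i - Real.exp (sl Φ b f i)))) := by
      intro f
      rw [hint f, Real.exp_add, ENNReal.ofReal_mul (Real.exp_pos _).le]
    rw [lintegral_congr h1, lintegral_const_mul' _ _ ENNReal.ofReal_ne_top]
    exact mul_le_mul_right (hBLG _ K Φ y b hy hD) _
  refine le_trans (mul_le_mul_right hinner _) ?_
  have hDp := hD.det_pos
  rw [← ENNReal.ofReal_mul (Real.exp_pos _).le,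
    ← ENNReal.ofReal_mul (mul_nonneg (Real.sqrt_nonneg _) hDp.le)]
  apply ENNReal.ofReal_le_ofReal
  apply le_of_eq
  have h5 : Real.sqrt (Uᵀ * U).det = Real.exp (Real.log (Uᵀ * U).det / 2) := by
    rw [Real.sqrt_eq_rpow, Real.rpow_def_of_pos hS]
    congr 1
    ring
  have h6 : (Dm Φ y).det = Real.exp (Real.log (Dm Φ y).det) := (Real.exp_log hDp).symm
  have h7 : ∑ i, y i * (-1 + g (qf Φ (Dm Φ y)⁻¹ i))
      = -∑ i, y i + ∑ i, y i * g (qf Φ (Dm Φ y)⁻¹ i) := by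
    rw [← Finset.sum_neg_distrib, ← Finset.sum_add_distrib]
    exact Finset.sum_congr rfl (fun i _ => by ring)
  rw [h7, h5]
  rw [show Real.exp (Real.log (Uᵀ * U).det / 2) * (Dm Φ y).det
      = Real.exp (Real.log (Uᵀ * U).det / 2 + Real.log (Dm Φ y).det) by
    rw [Real.exp_add, Real.exp_log hDp]]
  rw [← Real.exp_add, ← Real.exp_add]
  congr 1
  ring

theorem MAIN1S_thm (hGM3 : Stmt_GM3) (hSCA : Stmt_SCA) (hSPEC : Stmt_SPEC) (hSPECS : Stmt_SPECS)
    (hBLG : Stmt_BLG) (hCVT : Stmt_CVT) (hFRI : Stmt_FRI) (hPDY : Stmt_PDY)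
    (hLINB : Stmt_LINB) : Stmt_MAIN1S := by
  intro d K U Φ hd hK hfr hunit hc hex
  obtain ⟨hΦΦ, hΦU, hdet⟩ := hfr
  obtain ⟨hP1, hSpos, hsumc, hcnn, -⟩ := hFRI d K U Φ ⟨hΦΦ, hΦU, hdet⟩
  have hSd : 0 < (Uᵀ * U).det := hSpos.det_pos
  have hd' : (1:ℝ) ≤ d := by exact_mod_cast hd
  have hK' : (1:ℝ) ≤ K := by exact_mod_cast hK
  set m : ℝ := ((d:ℝ) + K) / K with hm
  have hKpos : (0:ℝ) < K := by linarith
  have hnpos : (0:ℝ) < (d:ℝ) + K := by linarith
  have hm1 : 1 ≤ m := by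
    rw [hm, le_div_iff₀ hKpos]
    linarith
  have hmpos : 0 < m := by linarith
  have hinvm : 1 / m = K / ((d:ℝ) + K) := by rw [hm, one_div_div]
  have hc' : ∀ i, cn Φ i = 1 / m := fun i => by rw [hc i, hinvm]
  obtain ⟨p, hp⟩ := hGM3 m hmpos
  obtain ⟨hs1, hs2⟩ := hSCA m p hm1 hp
  -- constants
  set α : ℝ := al m p with hα
  set A0 : ℝ := Ac m p (1/m) with hA0
  have hinvpos : (0:ℝ) < 1 / m := by positivity
  have hinvle : 1 / m ≤ 1 := by rw [div_le_one hmpos]; exact hm1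
  obtain ⟨b, hb⟩ := hLINB d K U (fun _ => A0 - 1) hdet
  set C : ENNReal := ENNReal.ofReal (Real.exp (Cex U Φ)) with hC
  -- cardinality
  have hcard : ((Fintype.card (Ix d K) : ℕ) : ℝ) = (d:ℝ) + K := by
    simp [Ix]
  -- Cex
  have hCex : Cex U Φ = Real.log (Uᵀ * U).det / 2 + (K:ℝ) / 2 * Real.log (2 * Real.pi)
      + (K * α + ((d:ℝ) + K) * A0) - ((d:ℝ) + K) := by
    unfold Cex
    have h0 : ∀ i, (cn Φ i - K / ((d:ℝ) + K))^2 = 0 := by
      intro i
      rw [hc i]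
      ring
    rw [Finset.sum_congr rfl (fun i _ => h0 i)]
    rw [hα, hA0]
    unfold al Ac
    rw [← hm]
    have hKm : (d:ℝ) + K = K * m := by rw [hm]; field_simp
    rw [hKm]
    simp only [Finset.sum_const_zero]
    field_simp
    ring
  -- the exponent
  have hexp : ∀ x : Fin d → ℝ, ∀ E : ℝ,
      Real.log (Uᵀ * U).det / 2 + (K:ℝ) / 2 * Real.log (2 * Real.pi) + E
        - ∑ i, yv U x i - ∑ i, (A0 - 1) * (yv U x i - 1)
      = Cex U Φ + (E - (K * α + ∑ i, A0 * yv U x i)) := by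
    intro x E
    rw [hCex]
    have h1 : ∑ i, (A0 - 1) * (yv U x i - 1) = (A0 - 1) * (∑ i, yv U x i) - (A0 - 1) * ((d:ℝ) + K) := by
      rw [← Finset.mul_sum, Finset.sum_sub_distrib, mul_sub]
      simp [Ix]
    have h2 : ∑ i, A0 * yv U x i = A0 * ∑ i, yv U x i := by rw [Finset.mul_sum]
    rw [h1, h2]
    ring
  set F : (Fin d → ℝ) → ENNReal := fun x =>
    (ENNReal.ofReal (Real.sqrt (Uᵀ * U).det * (Dm Φ (yv U x)).det) *
    (∫⁻ f : Fin K → ℝ,
      ENNReal.ofReal (Real.exp (∑ i, (sl Φ b f i - yv U x i * Real.exp (sl Φ b f i)))))) with hF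
  have hint : ∫⁻ x in Pol U, F x = 1 := hCVT d K U Φ b ⟨hΦΦ, hΦU, hdet⟩
  have hscal : ∀ i, 0 < cn Φ i → ∀ e : ℝ, 0 < e →
      Real.log e / 2 + mu (e / cn Φ i) ≤ α + A0 / cn Φ i * e := by
    intro i _ e he
    rw [hc' i]
    exact hs1 (1/m) e hinvpos hinvle he
  have hscals : ∀ i, ∀ e : ℝ, 0 < e → e ≠ 1 →
      Real.log e / 2 + mu (e / cn Φ i) < α + A0 / cn Φ i * e := by
    intro i e he he1
    rw [hc' i]
    have h := hs2 e he he1
    have h1 : e / (1/m) = e * m := by field_simp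
    have h2 : A0 / (1/m) = A0 * m := by field_simp
    rw [h1, h2]
    exact h
  have hcpos : ∀ i, 0 < cn Φ i := fun i => by rw [hc' i]; exact hinvpos
  have hFle : ∀ x ∈ Pol U, F x ≤ C := by
    intro x hx
    have hy : ∀ i, 0 < yv U x i := hx
    have hD := hPDY d K Φ (yv U x) hΦΦ hy
    refine le_trans (m1s_ptw hBLG hΦU hSd b (fun _ => A0) x (hb x) hy hD) ?_
    rw [hexp, hC]
    apply ENNReal.ofReal_le_ofReal
    apply Real.exp_le_exp.mpr
    have hsp := hSPEC (Ix d K) K Φ (yv U x) (fun _ => A0) α hy hD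
      (fun i h0 => absurd h0 (hcpos i).ne') hscal
    linarith
  have hFlt : ∀ x ∈ Pol U, Dm Φ (yv U x) ≠ 1 → F x < C := by
    intro x hx hne
    have hy : ∀ i, 0 < yv U x i := hx
    have hD := hPDY d K Φ (yv U x) hΦΦ hy
    refine lt_of_le_of_lt (m1s_ptw hBLG hΦU hSd b (fun _ => A0) x (hb x) hy hD) ?_
    rw [hexp, hC]
    rw [ENNReal.ofReal_lt_ofReal_iff (Real.exp_pos _)]
    apply Real.exp_lt_exp.mpr
    have hsp := hSPECS (Ix d K) K Φ (yv U x) (fun _ => A0) α hy hD hne hcpos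
      (fun i => hscal i (hcpos i)) hscals
    linarith
  -- the open set
  have hcont : Continuous (fun x : Fin d → ℝ => yv U x) := by
    apply continuous_pi
    intro i
    unfold yv
    fun_prop
  have hPolo : IsOpen (Pol U) := by
    have : Pol U = ⋂ i, {x | 0 < yv U x i} := by
      ext x
      simp [Pol]
    rw [this]
    apply isOpen_iInter_of_finite
    intro i
    exact isOpen_lt continuous_const ((continuous_apply i).comp hcont)
  have hDc : Continuous (fun x : Fin d → ℝ => Dm Φ (yv U x)) := by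
    unfold Dm
    have h1 : Continuous (fun x : Fin d → ℝ => Matrix.diagonal (yv U x)) :=
      Continuous.matrix_diagonal hcont
    exact (continuous_const.matrix_mul h1).matrix_mul continuous_const
  set O : Set (Fin d → ℝ) := Pol U ∩ {x | Dm Φ (yv U x) ≠ 1} with hO
  have hOo : IsOpen O := by
    apply hPolo.inter
    exact isOpen_ne_fun hDc continuous_const
  have hOne : O.Nonempty := by
    obtain ⟨x, hx, hne⟩ := hex
    exact ⟨x, hx, hne⟩
  by_contra hcon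
  push Not at hcon
  have hCtop : C ≠ ⊤ := ENNReal.ofReal_ne_top
  have hintC : ∫⁻ x in Pol U, C = volume (Pol U) * C := by
    rw [setLIntegral_const, mul_comm]
  have hae : F =ᵐ[volume.restrict (Pol U)] (fun _ => C) := by
    apply ae_eq_of_ae_le_of_lintegral_le
    · exact (ae_restrict_iff' hPolo.measurableSet).mpr (Filter.Eventually.of_forall hFle)
    · rw [hint]; exact ENNReal.one_ne_top
    · exact measurable_const.aemeasurable
    · rw [hintC, hint]
      exact hcon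
  have hae2 : ∀ᵐ x ∂volume, x ∈ Pol U → F x = C := by
    exact (ae_restrict_iff' hPolo.measurableSet).mp hae
  have hnull : volume O = 0 := by
    have h1 : O ⊆ {x | ¬ (x ∈ Pol U → F x = C)} := by
      intro x hx
      obtain ⟨hx1, hx2⟩ := hx
      intro h
      exact absurd (h hx1) (hFlt x hx1 hx2).ne
    exact measure_mono_null h1 hae2
  exact absurd hnull (hOo.measure_pos volume hOne).ne'

end Pool.LH60
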