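import Pool.Agent.Work.MP_1c7b0d_lh60.BIN

/-! Block SCA (helper74): no hypotheses. GM2, GM3, GCV, GLIM are in BIN.lean (namespace H74) too. -/

namespace Pool.LH60

theorem SCA_thm : Stmt_SCA := H74.SCA_thm

end Pool.LH60
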