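import Pool.Agent.Work.MP_1c7b0d_lh60.Interface

/-! Block `SIZ` (helper62): the class sizes in the equality case. -/

open MeasureTheory Matrix
open scoped BigOperators

namespace Pool.LH60

theorem SIZ_thm : Stmt_SIZ := by
  intro d K U p hd hK hU hin hout a
  have hdR : (0:ℝ) < d := by exact_mod_cast (by omega : 0 < d)
  have hKR : (0:ℝ) < K := by exact_mod_cast (by omega : 0 < K)
  -- every class has at most `(d+K)/K` elements
  have hle : ∀ a : Fin K, (((Finset.univ.filter (fun i => p i = a)).card : ℝ)) * K ≤ (d:ℝ) + K := by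
    intro a
    set s := Finset.univ.filter (fun i => p i = a) with hs
    -- the norm of the sum
    have h1 : 0 ≤ ∑ i ∈ s, ∑ j ∈ s, (U * Uᵀ) i j := by
      have h2 : ∑ i ∈ s, ∑ j ∈ s, (U * Uᵀ) i j = ∑ b, (∑ i ∈ s, U i b) ^ 2 := by
        simp only [Matrix.mul_apply, Matrix.transpose_apply]
        have h3 : ∀ b, (∑ i ∈ s, U i b) ^ 2 = ∑ i ∈ s, ∑ j ∈ s, U i b * U j b := by
          intro b; rw [sq, Finset.sum_mul_sum]
        simp_rw [h3]
        rw [Finset.sum_comm]
        conv_rhs => rw [Finset.sum_comm]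
        rw [Finset.sum_comm]
        refine Finset.sum_congr rfl (fun i _ => ?_)
        rw [Finset.sum_comm]
      rw [h2]; exact Finset.sum_nonneg (fun b _ => sq_nonneg _)
    have h4 : ∑ i ∈ s, ∑ j ∈ s, (U * Uᵀ) i j = ∑ i ∈ s, (1 + ((s.card : ℝ) - 1) * (-(K:ℝ) / d)) := by
      refine Finset.sum_congr rfl (fun i hi => ?_)
      have hpi : p i = a := (Finset.mem_filter.1 hi).2
      rw [← Finset.add_sum_erase s _ hi]
      have h5 : (U * Uᵀ) i i = 1 := by
        rw [Matrix.mul_apply, ← hU i]
        refine Finset.sum_congr rfl (fun b _ => ?_)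
        rw [Matrix.transpose_apply, sq]
      have h6 : ∑ j ∈ s.erase i, (U * Uᵀ) i j = ∑ j ∈ s.erase i, (-(K:ℝ) / d) := by
        refine Finset.sum_congr rfl (fun j hj => ?_)
        have hj' := Finset.mem_erase.1 hj
        have hpj : p j = a := (Finset.mem_filter.1 hj'.2).2
        exact hin i j (fun h => hj'.1 h.symm) (by rw [hpi, hpj])
      rw [h5, h6, Finset.sum_const, nsmul_eq_mul, Finset.card_erase_of_mem hi]
      have hpos : 1 ≤ s.card := Finset.card_pos.2 ⟨i, hi⟩
      rw [Nat.cast_sub hpos, Nat.cast_one]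
    rw [h4, Finset.sum_const, nsmul_eq_mul] at h1
    rcases Nat.eq_zero_or_pos s.card with h0 | h0
    · rw [h0]; simp; positivity
    · have h7 : (0:ℝ) < s.card := by exact_mod_cast h0
      have h8 : 0 ≤ 1 + ((s.card : ℝ) - 1) * (-(K:ℝ) / d) := by
        by_contra h9
        push Not at h9
        exact absurd h1 (not_le.2 (mul_neg_of_pos_of_neg h7 h9))
      have h10 : ((s.card : ℝ) - 1) * ((K:ℝ) / d) ≤ 1 := by
        have : ((s.card : ℝ) - 1) * (-(K:ℝ) / d) = -(((s.card : ℝ) - 1) * ((K:ℝ) / d)) := by ring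
        linarith
      have h11 : ((s.card : ℝ) - 1) * K ≤ d := by
        have h12 : ((s.card : ℝ) - 1) * K = (((s.card : ℝ) - 1) * ((K:ℝ) / d)) * d := by
          field_simp
        rw [h12]; nlinarith
      linarith
  -- the sum of the sizes
  have hsum : ∑ a : Fin K, (((Finset.univ.filter (fun i => p i = a)).card : ℝ)) * K
      = ∑ _a : Fin K, ((d:ℝ) + K) := by
    rw [← Finset.sum_mul, ← Nat.cast_sum]
    have h13 : ∑ a : Fin K, (Finset.univ.filter (fun i => p i = a)).card = d + K := by
      rw [← Finset.card_eq_sum_card_fiberwise (f := p) (s := Finset.univ) (t := Finset.univ)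
        (fun _ _ => Finset.mem_coe.2 (Finset.mem_univ _))]
      simp
    rw [h13, Finset.sum_const, Finset.card_univ, Fintype.card_fin, nsmul_eq_mul]
    push_cast; ring
  exact (Finset.sum_eq_sum_iff_of_le (fun a _ => hle a)).1 hsum a (Finset.mem_univ a)

end Pool.LH60
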