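import Pool.Agent.Work.MP_1c7b0d_lh60.Interface

/-! Block `TRF` (helper62): from Euclidean space to coordinates. -/

open MeasureTheory Matrix
open scoped BigOperators

namespace Pool.LH60

lemma trf_hyperplane_null {d : ℕ} (u : EuclideanSpace ℝ (Fin d)) (hu : ‖u‖ = 1) :
    volume {x : EuclideanSpace ℝ (Fin d) | inner ℝ u x = 1} = 0 := by
  have huu : inner ℝ u u = (1 : ℝ) := by rw [real_inner_self_eq_norm_sq, hu]; norm_num
  set S : AffineSubspace ℝ (EuclideanSpace ℝ (Fin d)) :=
    AffineSubspace.mk' u (LinearMap.ker (innerSL ℝ u).toLinearMap) with hS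
  have hmem : ∀ x, x ∈ S ↔ inner ℝ u x = 1 := by
    intro x
    rw [hS, AffineSubspace.mem_mk', LinearMap.mem_ker]
    simp only [vsub_eq_sub, ContinuousLinearMap.coe_coe, innerSL_apply_apply, inner_sub_right, huu]
    constructor <;> intro h <;> linarith
  have hset : {x : EuclideanSpace ℝ (Fin d) | inner ℝ u x = 1} = (S : Set (EuclideanSpace ℝ (Fin d))) := by
    ext x; exact (hmem x).symm
  rw [hset]
  refine Measure.addHaar_affineSubspace volume S (fun h => ?_)
  have h0 : (0 : EuclideanSpace ℝ (Fin d)) ∈ S := by rw [h]; exact AffineSubspace.mem_top _ _ _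
  rw [hmem, inner_zero_right] at h0
  exact zero_ne_one h0

theorem TRF_thm : Stmt_TRF := by
  intro d K u hu
  have hyv : ∀ (x : EuclideanSpace ℝ (Fin d)) (i : Ix d K),
      yv (matU u) (fun a => x a) i = 1 - inner ℝ (u (finSumFinEquiv i)) x := by
    intro x i
    unfold yv matU
    rw [PiLp.inner_apply]
    congr 1
    refine Finset.sum_congr rfl (fun a _ => ?_)
    simp [mul_comm]
  constructor
  · -- the open version in Euclidean space
    set P : Set (EuclideanSpace ℝ (Fin d)) := {x | ∀ i, inner ℝ (u i) x < 1} with hP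
    have h1 : volume (Pool.Agent.Work.MP_1c7b0d_gt.circ u) = volume P := by
      apply le_antisymm
      · have hsub : Pool.Agent.Work.MP_1c7b0d_gt.circ u ⊆
            P ∪ ⋃ i, {x : EuclideanSpace ℝ (Fin d) | inner ℝ (u i) x = 1} := by
          intro x hx
          by_cases hxP : x ∈ P
          · exact Or.inl hxP
          · right
            rw [hP, Set.mem_ofPred_eq] at hxP
            push Not at hxP
            obtain ⟨i, hi⟩ := hxP
            exact Set.mem_iUnion.2 ⟨i, le_antisymm (hx i) hi⟩
        have hnull : volume (⋃ i, {x : EuclideanSpace ℝ (Fin d) | inner ℝ (u i) x = 1}) = 0 :=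
          measure_iUnion_null (fun i => trf_hyperplane_null (u i) (hu i))
        calc volume (Pool.Agent.Work.MP_1c7b0d_gt.circ u)
            ≤ volume (P ∪ ⋃ i, {x : EuclideanSpace ℝ (Fin d) | inner ℝ (u i) x = 1}) :=
              measure_mono hsub
          _ ≤ volume P + volume (⋃ i, {x : EuclideanSpace ℝ (Fin d) | inner ℝ (u i) x = 1}) :=
              measure_union_le _ _
          _ = volume P := by rw [hnull, add_zero]
      · exact measure_mono (fun x hx i => (hx i).le)
    have h2 : P = (WithLp.ofLp : EuclideanSpace ℝ (Fin d) → (Fin d → ℝ)) ⁻¹' (Pol (matU u)) := by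
      ext x
      have h3 : ∀ i : Ix d K, yv (matU u) (WithLp.ofLp x) i = 1 - inner ℝ (u (finSumFinEquiv i)) x :=
        fun i => hyv x i
      simp only [hP, Set.mem_ofPred_eq, Set.mem_preimage, Pol, h3, sub_pos]
      constructor
      · intro h i; exact h _
      · intro h i
        have := h (finSumFinEquiv.symm i)
        rwa [Equiv.apply_symm_apply] at this
    have h4 : MeasurableSet (Pol (matU (K := K) u)) := by
      have : Pol (matU (K := K) u) = ⋂ i, {x : Fin d → ℝ | 0 < yv (matU (K := K) u) x i} := by
        ext x; simp [Pol]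
      rw [this]
      refine (isOpen_iInter_of_finite (fun i => isOpen_lt continuous_const ?_)).measurableSet
      unfold yv
      fun_prop
    rw [h1, h2]
    exact (PiLp.volume_preserving_ofLp (Fin d)).measure_preimage h4.nullMeasurableSet
  · intro i
    have h5 := hu (finSumFinEquiv i)
    have h6 : ‖u (finSumFinEquiv i)‖ ^ 2 = 1 := by rw [h5]; norm_num
    rw [EuclideanSpace.norm_sq_eq] at h6
    unfold matU
    simpa using h6

end Pool.LH60
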