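import Pool.Agent.Work.MP_1c7b0d_lh60.Interface

/-!
Block VAL: the value `Vopt` in terms of Binet's function.
-/

namespace Pool.LH60

theorem VAL_thm : Stmt_VAL := by
  intro d K hd hK
  have hd' : (0:ℝ) < d := by exact_mod_cast hd
  have hK' : (0:ℝ) < K := by exact_mod_cast hK
  have hn : (0:ℝ) < (d:ℝ) + K := by positivity
  have hm : (0:ℝ) < ((d:ℝ) + K) / K := by positivity
  have hq : (0:ℝ) < (d:ℝ) / ((d:ℝ) + K) := by positivity
  have hG : 0 < Real.Gamma (((d:ℝ) + K) / K) := Real.Gamma_pos_of_pos hm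
  have h1 : 0 < ((d:ℝ) / (d + K)) ^ ((d:ℝ) / 2) := Real.rpow_pos_of_pos hq _
  have h2 : 0 < (((d:ℝ) + K) / K) ^ ((d:ℝ) + K / 2) := Real.rpow_pos_of_pos hm _
  have h3 : 0 < Real.Gamma (((d:ℝ) + K) / K) ^ K := pow_pos hG _
  refine ⟨div_pos (mul_pos h1 h2) h3, ?_⟩
  unfold Vopt mu
  rw [Real.log_div (mul_pos h1 h2).ne' h3.ne', Real.log_mul h1.ne' h2.ne', Real.log_rpow hq,
    Real.log_rpow hm, Real.log_pow]
  have h4 : (K:ℝ) * (((d:ℝ) + K) / K) = (d:ℝ) + K := by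
    field_simp
  linear_combination (Real.log (((d:ℝ) + K) / K) - 1) * (-h4)

end Pool.LH60
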