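import Pool.Agent.Work.MP_1c7b0d_lh60.Interface

namespace Pool.LH60

theorem VDIV_thm : Stmt_VDIV := by
  intro K q hK hq
  have hK0 : (0:ℝ) < K := by exact_mod_cast hK
  have hq0 : (0:ℝ) < q := by exact_mod_cast hq
  unfold Vopt Pool.Agent.Work.MP_1c7b0d_gt.sv
  push_cast
  have e1 : (K:ℝ) * q / (K * q + K) = q / (q + 1) := by
    field_simp
  have e2 : ((K:ℝ) * q + K) / K = q + 1 := by
    field_simp
  rw [e1, e2, Real.Gamma_nat_eq_factorial, div_pow]
  congr 1
  have hq1 : (0:ℝ) < q + 1 := by linarith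
  rw [Real.sqrt_eq_rpow, ← Real.rpow_natCast, ← Real.rpow_mul (by positivity),
    Real.mul_rpow (by positivity) (by positivity), Real.div_rpow hq0.le hq1.le,
    ← Real.rpow_natCast (q:ℝ) q, ← Real.rpow_natCast ((q:ℝ)+1) (q+1),
    ← Real.rpow_mul hq0.le, ← Real.rpow_mul hq1.le, div_mul_eq_mul_div, mul_div_assoc,
    ← Real.rpow_sub hq1]
  congr 2
  · ring
  · push_cast
    ring

end Pool.LH60
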