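import Pool.Agent.Work.MP_1c7b0d_lh60.TOP
import Pool.Agent.Work.MP_1c7b0d_lh60.SCA
import Pool.Agent.Work.MP_1c7b0d_lh60.SPEC
import Pool.Agent.Work.MP_1c7b0d_lh60.BLI
import Pool.Agent.Work.MP_1c7b0d_lh60.BLG
import Pool.Agent.Work.MP_1c7b0d_lh60.CVI
import Pool.Agent.Work.MP_1c7b0d_lh60.CVS
import Pool.Agent.Work.MP_1c7b0d_lh60.CVD
import Pool.Agent.Work.MP_1c7b0d_lh60.CVT
import Pool.Agent.Work.MP_1c7b0d_lh60.FRI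
import Pool.Agent.Work.MP_1c7b0d_lh60.ONC
import Pool.Agent.Work.MP_1c7b0d_lh60.PDY
import Pool.Agent.Work.MP_1c7b0d_lh60.LINB
import Pool.Agent.Work.MP_1c7b0d_lh60.DETS
import Pool.Agent.Work.MP_1c7b0d_lh60.AMGM
import Pool.Agent.Work.MP_1c7b0d_lh60.RHO
import Pool.Agent.Work.MP_1c7b0d_lh60.VAL
import Pool.Agent.Work.MP_1c7b0d_lh60.VDIV
import Pool.Agent.Work.MP_1c7b0d_lh60.ZB
import Pool.Agent.Work.MP_1c7b0d_lh60.MAIN1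
import Pool.Agent.Work.MP_1c7b0d_lh60.MAIN1S
import Pool.Agent.Work.MP_1c7b0d_lh60.LOWER
import Pool.Agent.Work.MP_1c7b0d_lh60.DEGEN
import Pool.Agent.Work.MP_1c7b0d_lh60.EQP
import Pool.Agent.Work.MP_1c7b0d_lh60.SIZ
import Pool.Agent.Work.MP_1c7b0d_lh60.EXV
import Pool.Agent.Work.MP_1c7b0d_lh60.EXI
import Pool.Agent.Work.MP_1c7b0d_lh60.TRF
import Pool.Agent.Work.MP_1c7b0d_lh60.ISO

namespace Pool.LH60

theorem CVT_fin : Stmt_CVT := CVT_thm CVI_thm (CVS_thm FRI_thm) CVD_thm PDY_thm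
theorem BLG_fin : Stmt_BLG := BLG_thm BLI_thm
theorem SPEC_fin : Stmt_SPEC := SPEC_thm H74.GCV_thm
theorem SPECS_fin : Stmt_SPECS := SPECS_thm H74.GCV_thm
theorem MAIN1_fin : Stmt_MAIN1 :=
  MAIN1_thm H74.GM3_thm SCA_thm SPEC_fin BLG_fin CVT_fin FRI_thm PDY_thm LINB_thm
theorem MAIN1S_fin : Stmt_MAIN1S :=
  MAIN1S_thm H74.GM3_thm SCA_thm SPEC_fin SPECS_fin BLG_fin CVT_fin FRI_thm PDY_thm LINB_thm

theorem LOWER_fin : Stmt_LOWER :=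
  LOWER_thm MAIN1_fin MAIN1S_fin VAL_thm DEGEN_thm DETS_thm RHO_thm AMGM_thm FRI_thm ONC_thm
    (EQP_thm FRI_thm)

theorem top_fin : Stmt_TOP :=
  TOP_thm LOWER_fin (EXV_thm CVT_fin SIZ_thm ZB_thm) (EXI_thm ONC_thm) TRF_thm (ISO_thm SIZ_thm) VDIV_thm

end Pool.LH60
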