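import Pool.Agent.Work.MP_1c7b0d_lh60.Interface

/-!
Block GLIM: `mu (u + N) → 0`.
-/

open Filter Topology

namespace Pool.LH60

theorem glim_aux_seq (u : ℝ) (hu : 0 < u) (N : ℕ) :
    Real.log (Real.Gamma (u + (N + 1 : ℕ))) - u * Real.log N - Real.log (N.factorial : ℝ)
      = Real.log (Real.Gamma u) - Real.BohrMollerup.logGammaSeq u N := by
  have h := Real.BohrMollerup.f_add_nat_eq (f := Real.log ∘ Real.Gamma) (x := u)
    (fun {y} hy => by
      rw [Function.comp_apply, Real.Gamma_add_one hy.ne',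
        Real.log_mul hy.ne' (Real.Gamma_pos_of_pos hy).ne', add_comm, Function.comp_apply]) hu (N + 1)
  simp only [Function.comp_apply] at h
  rw [h, Real.BohrMollerup.logGammaSeq]
  ring

theorem glim_decomp (u : ℝ) (hu : 0 < u) (N : ℕ) (hN : N ≠ 0) :
    mu (u + (N + 1 : ℕ)) =
      (Real.log (Real.Gamma u) - Real.BohrMollerup.logGammaSeq u N)
      + (Real.log (Stirling.stirlingSeq N) - Real.log Real.pi / 2)
      + ((u + 1) - ((N : ℝ) * Real.log (1 + (u + 1) / N)
          + (u + 1 / 2) * Real.log (1 + (u + 1) / N))) := by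
  have hN0 : (0 : ℝ) < N := by exact_mod_cast Nat.pos_of_ne_zero hN
  have h1 := glim_aux_seq u hu N
  have h2 := Stirling.log_stirlingSeq_formula N
  have h3 : Real.log (u + (N + 1 : ℕ)) = Real.log N + Real.log (1 + (u + 1) / N) := by
    rw [← Real.log_mul hN0.ne' (by positivity)]
    congr 1
    push_cast
    field_simp
    ring
  have h4 : Real.log (2 * (N : ℝ)) = Real.log 2 + Real.log N :=
    Real.log_mul (by norm_num) hN0.ne'
  have h5 : Real.log ((N : ℝ) / Real.exp 1) = Real.log N - 1 := by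
    rw [Real.log_div hN0.ne' (Real.exp_ne_zero 1), Real.log_exp]
  have h6 : Real.log (2 * Real.pi) = Real.log 2 + Real.log Real.pi :=
    Real.log_mul (by norm_num) Real.pi_ne_zero
  unfold mu
  rw [h3, h6, ← h1, h2, h4, h5]
  push_cast
  ring

theorem GLIM_thm : Stmt_GLIM := by
  intro u hu
  rw [← tendsto_add_atTop_iff_nat 1]
  have e1 : Tendsto (fun N : ℕ => Real.log (Real.Gamma u) - Real.BohrMollerup.logGammaSeq u N)
      atTop (𝓝 0) := by
    have := (tendsto_const_nhds (x := Real.log (Real.Gamma u)) (f := (atTop : Filter ℕ))).sub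
      (Real.BohrMollerup.tendsto_log_gamma hu)
    simpa using this
  have e2 : Tendsto (fun N : ℕ => Real.log (Stirling.stirlingSeq N) - Real.log Real.pi / 2)
      atTop (𝓝 0) := by
    have h := (Real.continuousAt_log (x := √Real.pi)
      (Real.sqrt_pos.mpr Real.pi_pos).ne').tendsto.comp Stirling.tendsto_stirlingSeq_sqrt_pi
    have h' := h.sub (tendsto_const_nhds (x := Real.log Real.pi / 2))
    rw [Real.log_sqrt Real.pi_pos.le, sub_self] at h'
    exact h'
  have e3 : Tendsto (fun N : ℕ => (N : ℝ) * Real.log (1 + (u + 1) / N)) atTop (𝓝 (u + 1)) :=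
    (Real.tendsto_mul_log_one_add_div_atTop (u + 1)).comp tendsto_natCast_atTop_atTop
  have e4 : Tendsto (fun N : ℕ => Real.log (1 + (u + 1) / (N : ℝ))) atTop (𝓝 0) := by
    have h0 : Tendsto (fun N : ℕ => 1 + (u + 1) / (N : ℝ)) atTop (𝓝 (1 + 0)) :=
      tendsto_const_nhds.add (tendsto_const_nhds.div_atTop tendsto_natCast_atTop_atTop)
    rw [add_zero] at h0
    have := (Real.continuousAt_log (x := 1) one_ne_zero).tendsto.comp h0
    rwa [Real.log_one] at this
  have e5 := (e1.add e2).add ((tendsto_const_nhds (x := u + 1)).sub (e3.add (e4.const_mul (u + 1 / 2))))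
  have e6 : (0 : ℝ) + 0 + (u + 1 - (u + 1 + (u + 1 / 2) * 0)) = 0 := by ring
  rw [e6] at e5
  refine e5.congr' ?_
  filter_upwards [eventually_ne_atTop 0] with N hN
  exact (glim_decomp u hu N hN).symm

end Pool.LH60
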