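import Pool.Agent.Work.MP_1c7b0d_lh60.Interface

/-!
Block MTR: monotone transport on the line.
-/

open MeasureTheory Filter Topology Set

namespace Pool.LH60

namespace MTRaux

/-- the distribution function -/
noncomputable def cdf (f : ℝ → ℝ) (s : ℝ) : ℝ := ∫ t in Iic s, f t

variable {f : ℝ → ℝ}

theorem cdf_sub (hi : Integrable f) (a b : ℝ) : cdf f b - cdf f a = ∫ t in a..b, f t := by
  unfold cdf
  exact intervalIntegral.integral_Iic_sub_Iic hi.integrableOn hi.integrableOn

theorem cdf_hasDerivAt (hc : Continuous f) (hi : Integrable f) (s : ℝ) :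
    HasDerivAt (cdf f) (f s) s := by
  have h1 : ∀ x, cdf f x = cdf f 0 + ∫ t in (0:ℝ)..x, f t := by
    intro x
    rw [← cdf_sub hi]
    ring
  have h2 : HasDerivAt (fun x => cdf f 0 + ∫ t in (0:ℝ)..x, f t) (f s) s := by
    have h3 := intervalIntegral.integral_hasDerivAt_right (hc.intervalIntegrable 0 s)
      hc.aestronglyMeasurable.stronglyMeasurableAtFilter hc.continuousAt
    exact h3.const_add _
  have h4 : cdf f = fun x => cdf f 0 + ∫ t in (0:ℝ)..x, f t := funext h1
  rw [h4]
  exact h2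

theorem cdf_strictMono (hc : Continuous f) (hi : Integrable f) (hp : ∀ s, 0 < f s) :
    StrictMono (cdf f) := by
  refine strictMono_of_deriv_pos fun x => ?_
  rw [(cdf_hasDerivAt hc hi x).deriv]
  exact hp x

theorem cdf_continuous (hc : Continuous f) (hi : Integrable f) : Continuous (cdf f) :=
  continuous_iff_continuousAt.2 fun x => (cdf_hasDerivAt hc hi x).continuousAt

theorem cdf_atTop (hi : Integrable f) : Tendsto (cdf f) atTop (𝓝 (∫ t, f t)) := by
  unfold cdf
  have h1 : Tendsto (fun i : ℝ => ∫ x in Iic i, f x) atTop (𝓝 (∫ x, f x)) := by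
    refine AECover.integral_tendsto_of_countably_generated ?_ hi
    exact aecover_Iic tendsto_id
  exact h1

theorem cdf_atBot (hi : Integrable f) : Tendsto (cdf f) atBot (𝓝 0) := by
  have h1 : Tendsto (fun i : ℝ => ∫ x in Ioi i, f x) atBot (𝓝 (∫ x, f x)) := by
    refine AECover.integral_tendsto_of_countably_generated ?_ hi
    exact aecover_Ioi tendsto_id
  have h2 : ∀ i : ℝ, cdf f i = (∫ x, f x) - ∫ x in Ioi i, f x := by
    intro i
    unfold cdf
    rw [eq_sub_iff_add_eq]
    have := integral_add_compl (measurableSet_Iic (a := i)) hi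
    rwa [compl_Iic] at this
  have h3 : cdf f = fun i : ℝ => (∫ x, f x) - ∫ x in Ioi i, f x := funext h2
  rw [h3]
  have := (tendsto_const_nhds (x := ∫ x, f x)).sub h1
  simpa using this

theorem cdf_pos (hc : Continuous f) (hi : Integrable f) (hp : ∀ s, 0 < f s) (s : ℝ) :
    0 < cdf f s := by
  have h1 : 0 ≤ cdf f (s - 1) :=
    le_of_tendsto (cdf_atBot hi) (by
      filter_upwards [eventually_le_atBot (s - 1)] with x hx
      exact (cdf_strictMono hc hi hp).monotone hx)
  exact lt_of_le_of_lt h1 (cdf_strictMono hc hi hp (by linarith))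

theorem cdf_lt (hc : Continuous f) (hi : Integrable f) (hp : ∀ s, 0 < f s) (s : ℝ) :
    cdf f s < ∫ t, f t := by
  have h1 : cdf f (s + 1) ≤ ∫ t, f t :=
    ge_of_tendsto (cdf_atTop hi) (by
      filter_upwards [eventually_ge_atTop (s + 1)] with x hx
      exact (cdf_strictMono hc hi hp).monotone hx)
  exact lt_of_lt_of_le (cdf_strictMono hc hi hp (by linarith)) h1

theorem cdf_surj (hc : Continuous f) (hi : Integrable f) {y : ℝ} (h0 : 0 < y)
    (h1 : y < ∫ t, f t) : ∃ x, cdf f x = y := by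
  obtain ⟨a, ha⟩ := ((cdf_atBot hi).eventually_lt_const h0).exists
  obtain ⟨b, hb⟩ := ((cdf_atTop hi).eventually_const_lt h1).exists
  exact mem_range_of_exists_le_of_exists_ge (cdf_continuous hc hi) ⟨a, ha.le⟩ ⟨b, hb.le⟩

end MTRaux

open MTRaux

theorem MTR_thm : Stmt_MTR := by
  intro f h hfc hhc hfp hhp hfi hhi heq
  have hex : ∀ s, ∃ x, cdf h x = cdf f s := fun s =>
    cdf_surj hhc hhi (cdf_pos hfc hfi hfp s) (heq ▸ cdf_lt hfc hfi hfp s)
  choose τ hτ using hex
  have hFm := cdf_strictMono hfc hfi hfp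
  have hHm := cdf_strictMono hhc hhi hhp
  have hτm : StrictMono τ := by
    intro a b hab
    have h1 := hFm hab
    rw [← hτ a, ← hτ b] at h1
    exact hHm.lt_iff_lt.1 h1
  have hτs : Function.Surjective τ := by
    intro x
    obtain ⟨s, hs⟩ := cdf_surj hfc hfi (cdf_pos hhc hhi hhp x) (heq ▸ cdf_lt hhc hhi hhp x)
    refine ⟨s, hHm.injective ?_⟩
    rw [hτ s, hs]
  have hτc : Continuous τ := hτm.monotone.continuous_of_surjective hτs
  refine ⟨τ, fun s => ?_⟩
  rw [hasDerivAt_iff_tendsto_slope]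
  have hF := (hasDerivAt_iff_tendsto_slope).1 (cdf_hasDerivAt hfc hfi s)
  have hH := (hasDerivAt_iff_tendsto_slope).1 (cdf_hasDerivAt hhc hhi (τ s))
  have hcomp : Tendsto τ (𝓝[≠] s) (𝓝[≠] (τ s)) := by
    refine tendsto_nhdsWithin_iff.2 ⟨(hτc.tendsto s).mono_left nhdsWithin_le_nhds, ?_⟩
    filter_upwards [self_mem_nhdsWithin] with y hy
    exact fun hc => hy (hτm.injective hc)
  have hH2 := hH.comp hcomp
  have hdiv := hF.div hH2 (hhp (τ s)).ne'
  refine hdiv.congr' ?_
  filter_upwards [self_mem_nhdsWithin] with y hy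
  have hne : y - s ≠ 0 := sub_ne_zero.2 hy
  have hne2 : τ y - τ s ≠ 0 := sub_ne_zero.2 fun hc => hy (hτm.injective hc)
  have hne3 : cdf h (τ y) - cdf h (τ s) ≠ 0 := by
    rw [sub_ne_zero]
    exact fun hc => hne2 (by rw [hHm.injective hc, sub_self])
  simp only [Pi.div_apply, Function.comp, slope_def_field]
  rw [← hτ y, ← hτ s]
  field_simp

end Pool.LH60
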