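import Pool.Agent.Work.MP_1c7b0d_lh60.Interface

open MeasureTheory Matrix
open scoped BigOperators

namespace Pool.LH60

open Pool.Agent.Work.MP_1c7b0d_gt

lemma matU_mul_apply {d K : ℕ} (u : Fin (d + K) → EuclideanSpace ℝ (Fin d)) (i j : Ix d K) :
    (matU u * (matU u)ᵀ) i j = inner ℝ (u (finSumFinEquiv i)) (u (finSumFinEquiv j)) := by
  rw [Matrix.mul_apply, PiLp.inner_apply]
  refine Finset.sum_congr rfl fun a _ => ?_
  simp only [matU, Matrix.transpose_apply, RCLike.inner_apply, conj_trivial]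
  ring

lemma pat_iff {d K : ℕ} (u : Fin (d + K) → EuclideanSpace ℝ (Fin d)) :
    Pat (matU u) ↔ ∃ p : Fin (d + K) → Fin K,
        (∀ i j, i ≠ j → p i = p j → inner ℝ (u i) (u j) = -(K:ℝ) / d) ∧
        (∀ i j, p i ≠ p j → inner ℝ (u i) (u j) = 0) := by
  constructor
  · rintro ⟨p, h1, h2⟩
    refine ⟨fun i => p (finSumFinEquiv.symm i), ?_, ?_⟩
    · intro i j hij hp
      have := h1 (finSumFinEquiv.symm i) (finSumFinEquiv.symm j)
        (fun h => hij (finSumFinEquiv.symm.injective h)) hp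
      rw [matU_mul_apply] at this
      simpa using this
    · intro i j hp
      have := h2 (finSumFinEquiv.symm i) (finSumFinEquiv.symm j) hp
      rw [matU_mul_apply] at this
      simpa using this
  · rintro ⟨p, h1, h2⟩
    refine ⟨fun i => p (finSumFinEquiv i), ?_, ?_⟩
    · intro i j hij hp
      rw [matU_mul_apply]
      exact h1 _ _ (fun h => hij (finSumFinEquiv.injective h)) hp
    · intro i j hp
      rw [matU_mul_apply]
      exact h2 _ _ hp

/-- the vectors of a matrix -/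
noncomputable def vecU {d K : ℕ} (U : Matrix (Ix d K) (Fin d) ℝ) (i : Fin (d + K)) :
    EuclideanSpace ℝ (Fin d) := WithLp.toLp 2 (fun a => U (finSumFinEquiv.symm i) a)

lemma matU_vecU {d K : ℕ} (U : Matrix (Ix d K) (Fin d) ℝ) : matU (vecU U) = U := by
  ext i a
  simp [matU, vecU]

lemma norm_vecU {d K : ℕ} (U : Matrix (Ix d K) (Fin d) ℝ) (h : UnitRows U) (i) : ‖vecU U i‖ = 1 := by
  rw [EuclideanSpace.norm_eq]
  have := h (finSumFinEquiv.symm i)
  simp only [vecU, Real.norm_eq_abs, sq_abs]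
  rw [this, Real.sqrt_one]

theorem TOP_thm (hL : Stmt_LOWER) (hX : Stmt_EXV) (hE : Stmt_EXI) (hT : Stmt_TRF) (hI : Stmt_ISO)
    (hV : Stmt_VDIV) : Stmt_TOP := by
  intro d K hd hK
  refine ⟨?_, ?_, ?_⟩
  · intro u hu
    obtain ⟨hv, hun⟩ := hT d K u hu
    obtain ⟨h1, h2⟩ := hL d K (matU u) hd hK hun
    rw [hv]
    refine ⟨h1, ?_⟩
    rw [← pat_iff]
    exact ⟨h2, fun h => hX d K (matU u) hd hK hun h⟩
  · intro hdvd
    refine ⟨?_, ?_⟩
    · obtain ⟨q, rfl⟩ := hdvd
      have hq : 1 ≤ q := by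
        rcases Nat.eq_zero_or_pos q with h | h
        · subst h; simp at hd
        · exact h
      rw [Nat.mul_div_cancel_left _ (by omega), hV K q hK hq]
    · obtain ⟨U, hU, hp⟩ := hE d K hd hK hdvd
      have hn := norm_vecU U hU
      refine ⟨vecU U, hn, ?_⟩
      obtain ⟨hv, hun⟩ := hT d K (vecU U) hn
      rw [hv, matU_vecU]
      exact hX d K U hd hK hU hp
  · intro u u' hu hu' h h'
    obtain ⟨hv, hun⟩ := hT d K u hu
    obtain ⟨hv', hun'⟩ := hT d K u' hu'
    refine hI d K u u' hd hK hu hu' ?_ ?_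
    · exact (hL d K (matU u) hd hK hun).2 (hv ▸ h)
    · exact (hL d K (matU u') hd hK hun').2 (hv' ▸ h')

end Pool.LH60
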