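import Pool.Agent.Work.MP_1c7b0d_lh60.Interface

/-!
Block TRANS: monotone transport to the Gaussian of variance `r`.
-/

open MeasureTheory Filter Topology Set

namespace Pool.LH60

namespace TRANSaux

theorem const_eq (r : ℝ) (hr : 0 < r) :
    Real.Gamma (1/r) * r ^ (1/r) * Real.exp ((1 - g r) / r) = Real.sqrt (2 * Real.pi * r) := by
  have hu : 0 < 1 / r := by positivity
  have hG : 0 < Real.Gamma (1/r) := Real.Gamma_pos_of_pos hu
  have h2pi : 0 < 2 * Real.pi := by positivity
  have h1 : (1 - g r) / r = 1 / r - mu (1/r) := by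
    unfold g
    field_simp
  have hL : 0 < Real.Gamma (1/r) * r ^ (1/r) * Real.exp ((1 - g r) / r) := by positivity
  have hR : 0 < Real.sqrt (2 * Real.pi * r) := by positivity
  refine Real.log_injOn_pos hL hR ?_
  rw [Real.log_mul (by positivity) (by positivity), Real.log_mul hG.ne' (by positivity),
    Real.log_exp, Real.log_rpow hr, h1, Real.log_sqrt (by positivity),
    Real.log_mul h2pi.ne' hr.ne']
  unfold mu
  rw [Real.log_div one_ne_zero hr.ne', Real.log_one]
  ring

end TRANSaux

open TRANSaux

theorem TRANS_thm (hMTR : Stmt_MTR) (hZB : Stmt_ZB) : Stmt_TRANS := by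
  intro r hr
  obtain ⟨hint, hval⟩ := hZB r hr
  set f : ℝ → ℝ := fun s => Real.exp ((s - Real.exp s) / r) * Real.exp ((1 - g r) / r) with hf
  set h : ℝ → ℝ := fun x => Real.exp (-(1 / (2 * r)) * x ^ 2) with hh
  have hb : 0 < 1 / (2 * r) := by positivity
  have hfc : Continuous f := by
    rw [hf]
    fun_prop
  have hhc : Continuous h := by
    rw [hh]
    fun_prop
  have hfp : ∀ s, 0 < f s := fun s => by
    rw [hf]
    positivity
  have hhp : ∀ s, 0 < h s := fun s => by
    rw [hh]
    positivity
  have hfi : Integrable f := hint.mul_const _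
  have hhi : Integrable h := integrable_exp_neg_mul_sq hb
  have heq : ∫ s, f s = ∫ s, h s := by
    have e1 : ∫ s, f s = Real.sqrt (2 * Real.pi * r) := by
      rw [hf]
      simp only
      rw [integral_mul_const, hval]
      exact const_eq r hr
    have e2 : ∫ s, h s = Real.sqrt (2 * Real.pi * r) := by
      rw [hh]
      simp only
      rw [integral_gaussian]
      congr 1
      field_simp
    rw [e1, e2]
  obtain ⟨τ, hτ⟩ := hMTR f h hfc hhc hfp hhp hfi hhi heq
  refine ⟨τ, fun s => f s / h (τ s), hτ, fun s => div_pos (hfp s) (hhp _), fun s => ?_⟩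
  have e3 : f s / h (τ s) = Real.exp ((s - Real.exp s) / r + (1 - g r) / r
      + 1 / (2 * r) * (τ s) ^ 2) := by
    rw [hf, hh]
    simp only
    rw [← Real.exp_add, ← Real.exp_sub]
    congr 1
    ring
  simp only
  rw [e3, ← Real.exp_mul, ← Real.exp_add, ← Real.exp_add]
  congr 1
  field_simp
  ring

end Pool.LH60
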